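import Mathlib

set_option autoImplicit false

namespace Pool.Agent.H170Z.Cage

open Polynomial Finset

/-- Chebyshev type polynomials for the 10-regular tree. -/
noncomputable def Hp : ℕ → ℤ[X]
  | 0 => 1
  | 1 => X
  | (i + 2) => X * Hp (i + 1) - C 9 * Hp i

/-- Distance polynomials of the 10-regular tree. -/
noncomputable def Fp : ℕ → ℤ[X]
  | 0 => 1
  | 1 => X
  | (i + 2) => Hp (i + 2) - Hp i

/-- Sphere sizes of the 10-regular tree. -/
def Sz : ℕ → ℕ
  | 0 => 1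
  | (i + 1) => 10 * 9 ^ i

noncomputable def Pp (κ d : ℕ) : ℤ[X] := Fp d + C (κ : ℤ) * ∑ i ∈ range d, Fp i

noncomputable def Hr (i : ℕ) (x : ℝ) : ℝ := aeval x (Hp i)
noncomputable def Fr (i : ℕ) (x : ℝ) : ℝ := aeval x (Fp i)
noncomputable def Pr (κ d : ℕ) (x : ℝ) : ℝ := aeval x (Pp κ d)

noncomputable def kap (κ d i : ℕ) : ℝ := if i < d then 1 / (Sz i : ℝ) else 1 / ((κ : ℝ) * Sz d)

/-- The Christoffel-Darboux kernel. -/
noncomputable def Kr (κ d : ℕ) (x y : ℝ) : ℝ := ∑ i ∈ range (d + 1), kap κ d i * Fr i x * Fr i y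

noncomputable def phi (x : ℝ) : ℝ := 5 * (36 - x ^ 2) / (100 - x ^ 2)

noncomputable def cs (l : ℕ) (x : ℝ) : ℝ := Real.cos (l * Real.arccos (x / 6))

/-- The data extracted from a 10-regular graph of girth at least `2 d` and small excess. -/
structure Inst (V : Type) [Fintype V] [DecidableEq V] (c d : ℕ) where
  G : SimpleGraph V
  dec : DecidableRel G.Adj
  ne : Nonempty V
  reg : ∀ x, (univ.filter fun y => G.Adj x y).card = 10
  ρ : V → V → ℕ
  ρ_symm : ∀ x y, ρ x y = ρ y x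
  ρ_zero : ∀ x y, ρ x y = 0 ↔ x = y
  ρ_adj : ∀ x y y', G.Adj y y' → ρ x y' ≤ ρ x y + 1
  par_ex : ∀ x y i, ρ x y = i + 1 → i + 1 ≤ d → ∃ y', G.Adj y y' ∧ ρ x y' = i
  par_uniq : ∀ x y i y1 y2, ρ x y = i + 1 → i + 1 < d → G.Adj y y1 → G.Adj y y2 →
    ρ x y1 = i → ρ x y2 = i → y1 = y2
  no_side : ∀ x y y', ρ x y < d → G.Adj y y' → ρ x y' ≠ ρ x y
  κ : ℕ
  hκ : κ = 1 ∨ κ = 10
  E : Matrix V V ℤ
  E_nonneg : ∀ x y, 0 ≤ E x y
  E_row : ∀ x, ∑ y, E x y ≤ c
  E_eq : ∀ x y, (aeval (G.adjMatrix ℤ) (Pp κ d)) x y = (κ : ℤ) - E x y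
  E_symm : ∀ x y, E x y = E y x
  E_comm : G.adjMatrix ℤ * E = E * G.adjMatrix ℤ
  N_eq : ∀ i, i < d → ∀ x y, (aeval (G.adjMatrix ℤ) (Fp i)) x y = if ρ x y = i then 1 else 0
  N_top : ∀ x y, 0 ≤ (aeval (G.adjMatrix ℤ) (Fp d)) x y ∧ (aeval (G.adjMatrix ℤ) (Fp d)) x y ≤ 10 ∧
    (ρ x y ≠ d → (aeval (G.adjMatrix ℤ) (Fp d)) x y = 0)

attribute [instance] Inst.dec

variable {V : Type} [Fintype V] [DecidableEq V] {c d : ℕ}

/-- integer adjacency matrix -/
def Inst.A (I : Inst V c d) : Matrix V V ℤ := I.G.adjMatrix ℤ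

/-- distance matrices -/
noncomputable def Inst.N (I : Inst V c d) (i : ℕ) : Matrix V V ℤ := aeval I.A (Fp i)

/-- the support of row `x` of `E` splits into small, well separated clusters -/
def Inst.Clustered (I : Inst V c d) (m R : ℕ) (x : V) : Prop :=
  ∀ y z, 0 < I.E x y → 0 < I.E x z → I.ρ y z < m ∨ R < I.ρ y z

/-- expander mixing for small sets -/
def Inst.Mix (I : Inst V c d) : Prop :=
  ∀ U : Finset V, 5 * U.card ≤ Fintype.card V →
    ∑ y ∈ U, (U.filter fun y' => I.G.Adj y y').card ≤ 8 * U.card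

open Classical in
/-- number of zero eigenvalues -/
noncomputable def nz {B : Matrix V V ℝ} (h : B.IsHermitian) : ℕ :=
  (univ.filter fun i => h.eigenvalues i = 0).card

open Classical in
/-- number of small nonzero eigenvalues -/
noncomputable def nsm {B : Matrix V V ℝ} (h : B.IsHermitian) (τ : ℝ) : ℕ :=
  (univ.filter fun i => h.eigenvalues i ≠ 0 ∧ |h.eigenvalues i| ≤ τ).card

open Classical in
/-- multiplicity of a value in a finite family -/
noncomputable def mult {ι : Type} [Fintype ι] (θ : ι → ℝ) (y : ℝ) : ℕ :=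
  (univ.filter fun i => θ i = y).card

end Pool.Agent.H170Z.Cage
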