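import Mathlib
import Pool.Agent.H170Z.Cage.Defs

set_option autoImplicit false

namespace Pool.Agent.H170Z.Cage

open Polynomial Finset

/-- the squared modulus of `1 - r e^{it}` -/
noncomputable def e_q (r t : ℝ) : ℝ := 1 - 2 * r * Real.cos t + r ^ 2

/-- the regularised logarithmic kernel -/
noncomputable def e_K (r a b : ℝ) : ℝ :=
  Real.log (e_q r (a + b)) / 2 + Real.log (e_q r (a - b)) / 2

theorem e_q_ge {r : ℝ} (hr0 : 0 < r) (t : ℝ) : (1 - r) ^ 2 ≤ e_q r t := by
  have := Real.cos_le_one t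
  unfold e_q
  nlinarith

theorem e_q_ge' (r t : ℝ) : r * (2 - 2 * Real.cos t) ≤ e_q r t := by
  unfold e_q
  nlinarith [sq_nonneg (1 - r)]

theorem e_series {r : ℝ} (hr0 : 0 < r) (hr1 : r < 1) (t : ℝ) :
    HasSum (fun n : ℕ => r ^ n / n * Real.cos (n * t)) (-(Real.log (e_q r t) / 2)) := by
  have hz : ‖(r : ℂ) * Complex.exp (t * Complex.I)‖ < 1 := by
    rw [norm_mul, Complex.norm_exp_ofReal_mul_I, Complex.norm_real, Real.norm_eq_abs,
      abs_of_pos hr0, mul_one]
    exact hr1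
  have h := Complex.hasSum_re (Complex.hasSum_taylorSeries_neg_log hz)
  convert h using 1
  · funext n
    have h1 : ((r : ℂ) * Complex.exp (t * Complex.I)) ^ n / n =
        ((r ^ n / n : ℝ) : ℂ) * Complex.exp (((n * t : ℝ) : ℂ) * Complex.I) := by
      rw [mul_pow, ← Complex.exp_nat_mul]
      push_cast
      rw [mul_assoc (n : ℂ)]
      ring
    rw [h1, Complex.re_ofReal_mul, Complex.exp_ofReal_mul_I_re]
  · rw [Complex.neg_re, Complex.log_re]
    have h2 : e_q r t = ‖1 - (r : ℂ) * Complex.exp (t * Complex.I)‖ ^ 2 := by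
      rw [Complex.sq_norm, Complex.normSq_apply]
      simp only [Complex.sub_re, Complex.one_re, Complex.re_ofReal_mul,
        Complex.exp_ofReal_mul_I_re, Complex.sub_im, Complex.one_im, Complex.im_ofReal_mul,
        Complex.exp_ofReal_mul_I_im]
      unfold e_q
      nlinarith [Real.sin_sq_add_cos_sq t]
    rw [h2, Real.log_pow]
    push_cast
    ring

theorem e_K_series {r : ℝ} (hr0 : 0 < r) (hr1 : r < 1) (a b : ℝ) :
    HasSum (fun n : ℕ => 2 * r ^ n / n * (Real.cos (n * a) * Real.cos (n * b))) (-e_K r a b) := by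
  have h := (e_series hr0 hr1 (a + b)).add (e_series hr0 hr1 (a - b))
  convert h using 1
  · funext n
    rw [mul_add, mul_sub, Real.cos_add, Real.cos_sub]
    ring
  · unfold e_K
    ring

theorem e_K_ge {r : ℝ} (hr0 : 0 < r) (hr1 : r < 1) (a b : ℝ) :
    2 * Real.log (1 - r) ≤ e_K r a b := by
  have h0 : 0 < (1 - r) ^ 2 := by have : 0 < 1 - r := by linarith
                                  positivity
  have h1 := Real.log_le_log h0 (e_q_ge hr0 (a + b))
  have h2 := Real.log_le_log h0 (e_q_ge hr0 (a - b))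
  rw [Real.log_pow] at h1 h2
  push_cast at h1 h2
  unfold e_K
  linarith

theorem e_log_le {r : ℝ} (hr0 : 0 < r) (hr1 : r < 1) (a b : ℝ)
    (hne : 6 * Real.cos a ≠ 6 * Real.cos b) :
    Real.log |6 * Real.cos a - 6 * Real.cos b| ≤ Real.log (3 / r) + e_K r a b := by
  have h0 : 0 < (1 - r) ^ 2 := by have : 0 < 1 - r := by linarith
                                  positivity
  have hq1 : 0 < e_q r (a + b) := lt_of_lt_of_le h0 (e_q_ge hr0 _)
  have hq2 : 0 < e_q r (a - b) := lt_of_lt_of_le h0 (e_q_ge hr0 _)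
  have hid : (6 * Real.cos a - 6 * Real.cos b) ^ 2 =
      9 * ((2 - 2 * Real.cos (a + b)) * (2 - 2 * Real.cos (a - b))) := by
    rw [Real.cos_add, Real.cos_sub]
    have h1 := Real.sin_sq_add_cos_sq a
    have h2 := Real.sin_sq_add_cos_sq b
    have h3 : Real.sin a ^ 2 = 1 - Real.cos a ^ 2 := by linarith
    have h4 : Real.sin b ^ 2 = 1 - Real.cos b ^ 2 := by linarith
    have h5 : (2 - 2 * (Real.cos a * Real.cos b - Real.sin a * Real.sin b)) *
        (2 - 2 * (Real.cos a * Real.cos b + Real.sin a * Real.sin b)) =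
        4 * ((1 - Real.cos a * Real.cos b) ^ 2 - Real.sin a ^ 2 * Real.sin b ^ 2) := by ring
    rw [h5, h3, h4]
    ring
  have hc1 : 0 ≤ r * (2 - 2 * Real.cos (a + b)) :=
    mul_nonneg hr0.le (by linarith [Real.cos_le_one (a + b)])
  have hc2 : 0 ≤ r * (2 - 2 * Real.cos (a - b)) :=
    mul_nonneg hr0.le (by linarith [Real.cos_le_one (a - b)])
  have hle : (6 * Real.cos a - 6 * Real.cos b) ^ 2 ≤
      (3 / r) ^ 2 * (e_q r (a + b) * e_q r (a - b)) := by
    have h1 := mul_le_mul (e_q_ge' r (a + b)) (e_q_ge' r (a - b)) hc2 hq1.le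
    have h2 : (6 * Real.cos a - 6 * Real.cos b) ^ 2 = (3 / r) ^ 2 *
        (r * (2 - 2 * Real.cos (a + b)) * (r * (2 - 2 * Real.cos (a - b)))) := by
      rw [hid]
      field_simp
      ring
    rw [h2]
    exact mul_le_mul_of_nonneg_left h1 (by positivity)
  have hpos : 0 < (6 * Real.cos a - 6 * Real.cos b) ^ 2 := by
    have := sub_ne_zero.2 hne
    positivity
  have h := Real.log_le_log hpos hle
  rw [Real.log_mul (by positivity) (by positivity), Real.log_mul hq1.ne' hq2.ne', Real.log_pow,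
    Real.log_pow] at h
  push_cast at h
  rw [Real.log_abs]
  unfold e_K
  linarith

theorem e_cos_arccos {x : ℝ} (hx : |x| ≤ 6) : 6 * Real.cos (Real.arccos (x / 6)) = x := by
  obtain ⟨h1, h2⟩ := abs_le.1 hx
  rw [Real.cos_arccos (by linarith) (by linarith)]
  ring

/-- the normalised Chebyshev value -/
noncomputable def e_u (a : ℝ) (m : ℕ) : ℝ := Hr m (6 * Real.cos a) / 3 ^ m

theorem e_u_zero (a : ℝ) : e_u a 0 = 1 := by simp [e_u, Hr, Hp]

theorem e_u_one (a : ℝ) : e_u a 1 = 2 * Real.cos a := by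
  simp only [e_u, Hr, Hp, aeval_X]
  ring

theorem e_u_rec (a : ℝ) (m : ℕ) : e_u a (m + 2) = 2 * Real.cos a * e_u a (m + 1) - e_u a m := by
  have h : Hr (m + 2) (6 * Real.cos a) =
      6 * Real.cos a * Hr (m + 1) (6 * Real.cos a) - 9 * Hr m (6 * Real.cos a) := by
    simp [Hr, Hp, map_ofNat]
  simp only [e_u, h]
  field_simp
  ring

theorem e_u_trig (a : ℝ) (m : ℕ) :
    Real.cos ((m + 1 : ℕ) * a) = e_u a (m + 1) - Real.cos a * e_u a m ∧
      Real.sin ((m + 1 : ℕ) * a) = Real.sin a * e_u a m := by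
  induction m with
  | zero =>
    rw [e_u_zero, e_u_one]
    simp only [zero_add, Nat.cast_one, one_mul, mul_one, and_true]
    ring
  | succ m ih =>
    obtain ⟨h1, h2⟩ := ih
    have h3 : ((m + 1 + 1 : ℕ) : ℝ) * a = (m + 1 : ℕ) * a + a := by push_cast; ring
    rw [h3, Real.cos_add, Real.sin_add, h1, h2, e_u_rec]
    have h4 := Real.sin_sq_add_cos_sq a
    constructor
    · linear_combination (-e_u a m) * h4
    · ring

theorem e_u_diff (a : ℝ) (m : ℕ) : e_u a (m + 1) ^ 2 - e_u a m ^ 2 =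
    1 + 2 * ∑ k ∈ range (m + 1), Real.cos ((2 * (k + 1) : ℕ) * a) := by
  induction m with
  | zero =>
    rw [e_u_zero, e_u_one]
    simp only [zero_add, range_one, sum_singleton, mul_one, Nat.cast_ofNat, Real.cos_two_mul]
    ring
  | succ m ih =>
    rw [sum_range_succ]
    obtain ⟨h1, h2⟩ := e_u_trig a (m + 1)
    have h3 : ((2 * (m + 1 + 1) : ℕ) : ℝ) * a = 2 * ((m + 1 + 1 : ℕ) * a) := by push_cast; ring
    rw [h3, Real.cos_two_mul', h1, h2]
    have h4 := Real.sin_sq_add_cos_sq a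
    have h5 := e_u_rec a m
    rw [h5]
    linear_combination ih + (2 * e_u a (m + 1) ^ 2) * h4

open Classical in
theorem energy_mode {ι : Type} (s : Finset ι) (x : ι → ℝ) (hx : ∀ i ∈ s, |x i| ≤ 6)
    (cl : ι → ι → Prop) (hcl : ∀ i ∈ s, ∀ j ∈ s, x i = x j → cl i j) (D T r : ℝ) (hD : 0 ≤ D)
    (hclD : ∀ i ∈ s, ∀ j ∈ s, cl i j → x i ≠ x j → Real.log |x i - x j| ≤ -D)
    (hT : ∀ i ∈ s, ((s.filter fun j => x j = x i).card : ℝ) ≤ T)
    (hr0 : 0 < r) (hr1 : r < 1) (l : ℕ) (hl : 1 ≤ l) :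
    2 * r ^ l / l * (∑ i ∈ s, cs l (x i)) ^ 2 ≤
      (s.card : ℝ) ^ 2 * Real.log (3 / r)
        - 2 * (∑ i ∈ s, ((s.filter fun j => cl i j).card : ℝ)) * Real.log (1 - r)
        - ((∑ i ∈ s, ((s.filter fun j => cl i j).card : ℝ)) - T * s.card) * D
        - ∑ i ∈ s, ∑ j ∈ s, Real.log |x i - x j| := by
  set a : ι → ℝ := fun i => Real.arccos (x i / 6) with ha
  have hxa : ∀ i ∈ s, 6 * Real.cos (a i) = x i := fun i hi => e_cos_arccos (hx i hi)
  have hsum : HasSum (fun n : ℕ => 2 * r ^ n / n * (∑ i ∈ s, Real.cos (n * a i)) ^ 2)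
      (∑ i ∈ s, ∑ j ∈ s, -e_K r (a i) (a j)) := by
    have h := hasSum_sum (s := s) fun i _ => hasSum_sum (s := s) fun j _ =>
      e_K_series hr0 hr1 (a i) (a j)
    convert h using 1
    funext n
    rw [sq, sum_mul_sum, mul_sum]
    exact sum_congr rfl fun i _ => mul_sum _ _ _
  have hterm := le_hasSum hsum l fun n _ => by positivity
  have hlog : 0 ≤ Real.log (3 / r) := Real.log_nonneg (by rw [le_div_iff₀ hr0]; linarith)
  have hpt : ∀ i ∈ s, ∀ j ∈ s, Real.log |x i - x j| ≤ Real.log (3 / r) + e_K r (a i) (a j) +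
      (if cl i j then -2 * Real.log (1 - r) - D else 0) + (if x j = x i then D else 0) := by
    intro i hi j hj
    have hK := e_K_ge hr0 hr1 (a i) (a j)
    by_cases he : x j = x i
    · rw [if_pos he, if_pos (hcl i hi j hj he.symm), he, sub_self, abs_zero, Real.log_zero]
      linarith
    · rw [if_neg he]
      by_cases hc : cl i j
      · rw [if_pos hc]
        linarith [hclD i hi j hj hc (Ne.symm he)]
      · rw [if_neg hc]
        have h := e_log_le hr0 hr1 (a i) (a j) (by rw [hxa i hi, hxa j hj]; exact Ne.symm he)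
        rw [hxa i hi, hxa j hj] at h
        linarith
  have hrow : ∀ i ∈ s, ∑ j ∈ s, Real.log |x i - x j| ≤ s.card * Real.log (3 / r) +
      ∑ j ∈ s, e_K r (a i) (a j) +
      ((s.filter fun j => cl i j).card : ℝ) * (-2 * Real.log (1 - r) - D) + T * D := by
    intro i hi
    have h := sum_le_sum (hpt i hi)
    rw [sum_add_distrib, sum_add_distrib, sum_add_distrib, sum_const, nsmul_eq_mul,
      ← sum_filter, ← sum_filter, sum_const, sum_const, nsmul_eq_mul, nsmul_eq_mul] at h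
    have h2 := mul_le_mul_of_nonneg_right (hT i hi) hD
    linarith
  have hall := sum_le_sum hrow
  rw [sum_add_distrib, sum_add_distrib, sum_add_distrib, sum_const, nsmul_eq_mul, sum_const,
    nsmul_eq_mul, ← sum_mul] at hall
  simp only [sum_neg_distrib] at hterm
  have hcs : ∑ i ∈ s, cs l (x i) = ∑ i ∈ s, Real.cos (l * a i) := rfl
  rw [hcs]
  nlinarith

theorem fejer_test {ι : Type} (s : Finset ι) (x : ι → ℝ) (hx : ∀ i ∈ s, |x i| ≤ 6) (m : ℕ) (W : ℝ)
    (hW : ∀ l : ℕ, 1 ≤ l → l ≤ 2 * m → |∑ i ∈ s, cs l (x i)| ≤ W) :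
    ((m : ℝ) + 1) * s.card ≤ ∑ i ∈ s, (Hr m (x i) / 3 ^ m) ^ 2 + m * (m + 1) * W := by
  set a : ι → ℝ := fun i => Real.arccos (x i / 6) with ha
  have hxa : ∀ i ∈ s, 6 * Real.cos (a i) = x i := fun i hi => e_cos_arccos (hx i hi)
  have hu : ∑ i ∈ s, (Hr m (x i) / 3 ^ m) ^ 2 = ∑ i ∈ s, e_u (a i) m ^ 2 :=
    sum_congr rfl fun i hi => by rw [e_u, hxa i hi]
  rw [hu]
  have key : ∀ n : ℕ, n ≤ m →
      ((n : ℝ) + 1) * s.card ≤ ∑ i ∈ s, e_u (a i) n ^ 2 + n * (n + 1) * W := by
    intro n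
    induction n with
    | zero => intro _; simp [e_u_zero]
    | succ n ih =>
      intro hn
      have h1 := ih (by omega)
      have h2 : ∑ i ∈ s, e_u (a i) (n + 1) ^ 2 - ∑ i ∈ s, e_u (a i) n ^ 2 =
          s.card + 2 * ∑ k ∈ range (n + 1), ∑ i ∈ s, cs (2 * (k + 1)) (x i) := by
        rw [← sum_sub_distrib, sum_congr rfl fun i _ => e_u_diff (a i) n, sum_add_distrib,
          sum_const, nsmul_eq_mul, mul_one, ← mul_sum, sum_comm]
        rfl
      have h3 : ∑ _k ∈ range (n + 1), -W ≤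
          ∑ k ∈ range (n + 1), ∑ i ∈ s, cs (2 * (k + 1)) (x i) :=
        sum_le_sum fun k hk => (abs_le.1 (hW _ (by omega) (by
          have := mem_range.1 hk
          omega))).1
      rw [sum_const, card_range, nsmul_eq_mul] at h3
      push_cast at h3 ⊢
      linarith
  exact key m le_rfl

end Pool.Agent.H170Z.Cage

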