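import Mathlib
import Pool.Agent.H170Z.Cage.Defs

set_option autoImplicit false

namespace Pool.Agent.H170Z.Cage

open Polynomial Finset

/-- the real polynomial attached to an integer polynomial -/
noncomputable abbrev ga_R (g : ℤ[X]) : ℝ[X] := g.map (Int.castRingHom ℝ)

lemma ga_eval (g : ℤ[X]) (y : ℝ) : (ga_R g).eval y = aeval y g := by
  rw [ga_R, ← eval_map_algebraMap]; rfl

open Classical in
/-- the set of real conjugates -/
noncomputable def ga_cls (y : ℝ) : Finset ℝ := (ga_R (minpoly ℤ y)).roots.toFinset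

lemma ga_monic {x : ℝ} (hx : IsIntegral ℤ x) : (ga_R (minpoly ℤ x)).Monic :=
  (minpoly.monic hx).map _

lemma ga_mem {x : ℝ} (hx : IsIntegral ℤ x) (y : ℝ) :
    y ∈ ga_cls x ↔ aeval y (minpoly ℤ x) = 0 := by
  classical
  rw [ga_cls, Multiset.mem_toFinset, mem_roots (ga_monic hx).ne_zero, IsRoot, ga_eval]

lemma ga_self {x : ℝ} (hx : IsIntegral ℤ x) : x ∈ ga_cls x := by
  rw [ga_mem hx]; exact minpoly.aeval ℤ x

lemma ga_zero {x : ℝ} (hx : IsIntegral ℤ x) (g : ℤ[X]) (hg : aeval x g = 0) {y : ℝ}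
    (hy : y ∈ ga_cls x) : aeval y g = 0 := by
  obtain ⟨h, rfl⟩ := minpoly.isIntegrallyClosed_dvd hx hg
  rw [map_mul, (ga_mem hx y).1 hy, zero_mul]

lemma ga_int {x : ℝ} (hx : IsIntegral ℤ x) {y : ℝ} (hy : y ∈ ga_cls x) : IsIntegral ℤ y :=
  ⟨minpoly ℤ x, minpoly.monic hx, by
    have := (ga_mem hx y).1 hy
    rwa [aeval_def] at this⟩

lemma ga_minpoly {x : ℝ} (hx : IsIntegral ℤ x) {y : ℝ} (hy : y ∈ ga_cls x) :
    minpoly ℤ y = minpoly ℤ x := by
  have hyi := ga_int hx hy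
  have h1 := minpoly.isIntegrallyClosed_eq_field_fractions' ℚ hx
  have h2 := minpoly.isIntegrallyClosed_eq_field_fractions' ℚ hyi
  have hxq : IsIntegral ℚ x := hx.tower_top
  have h3 : minpoly ℚ x = minpoly ℚ y := by
    apply minpoly.eq_of_irreducible_of_monic (minpoly.irreducible hxq) _ (minpoly.monic hxq)
    rw [h1, aeval_map_algebraMap]
    exact (ga_mem hx y).1 hy
  apply map_injective (algebraMap ℤ ℚ) (algebraMap ℤ ℚ).injective_int
  rw [← h1, ← h2, h3]

lemma ga_cls_eq {x : ℝ} (hx : IsIntegral ℤ x) {y : ℝ} (hy : y ∈ ga_cls x) :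
    ga_cls y = ga_cls x := by
  unfold ga_cls; rw [ga_minpoly hx hy]

lemma ga_nodup {x : ℝ} (hx : IsIntegral ℤ x) : (ga_R (minpoly ℤ x)).roots.Nodup := by
  have h1 := minpoly.isIntegrallyClosed_eq_field_fractions' ℚ hx
  have hxq : IsIntegral ℚ x := hx.tower_top
  have hs : (minpoly ℚ x).Separable := (minpoly.irreducible hxq).separable
  have h2 : ga_R (minpoly ℤ x) = (minpoly ℚ x).map (algebraMap ℚ ℝ) := by
    rw [h1, Polynomial.map_map]; congr 1
  rw [h2]
  exact nodup_roots (hs.map)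

lemma ga_prod {x : ℝ} (hx : IsIntegral ℤ x) (F : ℝ → ℝ) :
    ((ga_R (minpoly ℤ x)).roots.map F).prod = ∏ y ∈ ga_cls x, F y := by
  classical
  rw [Finset.prod_eq_multiset_prod, ga_cls, Multiset.toFinset_val, (ga_nodup hx).dedup]

lemma ga_norm {x : ℝ} (hx : IsIntegral ℤ x) (hs : (ga_R (minpoly ℤ x)).Splits) (g : ℤ[X])
    (hg : aeval x g ≠ 0) : 0 ≤ ∑ y ∈ ga_cls x, Real.log |aeval y g| := by
  have hne : ∀ y ∈ ga_cls x, aeval y g ≠ 0 := by
    intro y hy h0
    apply hg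
    apply ga_zero (ga_int hx hy) g h0
    rw [ga_cls_eq hx hy]; exact ga_self hx
  have h1 := resultant_eq_prod_eval (ga_R (minpoly ℤ x)) (ga_R g) g.natDegree natDegree_map_le hs
  rw [(ga_monic hx).leadingCoeff, one_pow, one_mul, ga_prod hx, resultant_map_map] at h1
  have h2 : ∏ y ∈ ga_cls x, (ga_R g).eval y = ∏ y ∈ ga_cls x, aeval y g :=
    Finset.prod_congr rfl fun y _ => ga_eval g y
  rw [h2] at h1
  rw [← Real.log_prod (fun y hy => abs_ne_zero.2 (hne y hy)), ← Finset.abs_prod, ← h1]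
  apply Real.log_nonneg
  set r := resultant (minpoly ℤ x) g (ga_R (minpoly ℤ x)).natDegree g.natDegree with hr
  have hr0 : r ≠ 0 := by
    intro h0
    rw [h0, map_zero] at h1
    exact Finset.prod_ne_zero_iff.2 hne h1.symm
  have : (1 : ℤ) ≤ |r| := Int.one_le_abs hr0
  have h3 : ((1 : ℤ) : ℝ) ≤ ((|r| : ℤ) : ℝ) := Int.cast_le.2 this
  simpa using h3

lemma ga_pair {x z : ℝ} (hx : IsIntegral ℤ x) (hsx : (ga_R (minpoly ℤ x)).Splits)
    (hz : IsIntegral ℤ z) (hsz : (ga_R (minpoly ℤ z)).Splits) :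
    0 ≤ ∑ y ∈ ga_cls x, ∑ w ∈ ga_cls z, Real.log |y - w| := by
  classical
  by_cases h : x ∈ ga_cls z
  · have hxz : ga_cls x = ga_cls z := ga_cls_eq hz h
    have key : ∀ y ∈ ga_cls z, aeval y (derivative (minpoly ℤ z)) =
        ∏ w ∈ (ga_cls z).erase y, (y - w) := by
      intro y hy
      have hy' : y ∈ (ga_R (minpoly ℤ z)).roots := by
        simpa [ga_cls] using hy
      have := hsz.eval_root_derivative (ga_monic hz) hy'
      rw [← ga_eval, ga_R, ← derivative_map, this, Finset.prod_eq_multiset_prod,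
        Finset.erase_val, ga_cls, Multiset.toFinset_val, (ga_nodup hz).dedup]
    have hne : ∀ y, ∀ w ∈ (ga_cls z).erase y, y - w ≠ 0 := fun y w hw =>
      sub_ne_zero.2 (Finset.ne_of_mem_erase hw).symm
    have h1 := ga_norm hx hsx (derivative (minpoly ℤ z))
      (by rw [key x h]; exact Finset.prod_ne_zero_iff.2 (hne x))
    refine h1.trans (le_of_eq (Finset.sum_congr rfl fun y hy => ?_))
    rw [hxz] at hy
    rw [key y hy, Finset.abs_prod, Real.log_prod (fun w hw => abs_ne_zero.2 (hne y w hw)),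
      ← Finset.add_sum_erase _ _ hy]
    simp
  · have h1 := ga_norm hx hsx (minpoly ℤ z) (fun h0 => h ((ga_mem hz x).2 h0))
    refine h1.trans (le_of_eq (Finset.sum_congr rfl fun y hy => ?_))
    have hne : ∀ w ∈ ga_cls z, y - w ≠ 0 := by
      intro w hw h0
      have hyw : y = w := sub_eq_zero.1 h0
      subst hyw
      apply h
      rw [← ga_cls_eq hz hw, ga_cls_eq hx hy]
      exact ga_self hx
    rw [← ga_eval, hsz.eval_eq_prod_roots_of_monic (ga_monic hz), ga_prod hz, Finset.abs_prod,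
      Real.log_prod (fun w hw => abs_ne_zero.2 (hne w hw))]

open Classical in
lemma ga_mult_eq {ι : Type} [Fintype ι] (θ : ι → ℝ) (y : ℝ) :
    mult θ y = rootMultiplicity y (∏ i, (X - C (θ i))) := by
  have h1 : (∏ i, (X - C (θ i)) : ℝ[X]) = (((univ.val.map θ)).map fun a => X - C a).prod := by
    rw [Finset.prod_eq_multiset_prod, Multiset.map_map]; rfl
  rw [← count_roots, h1, roots_multiset_prod_X_sub_C, Multiset.count_map, mult]
  rw [Finset.card_def, Finset.filter_val]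
  congr 1
  apply Multiset.filter_congr
  intro i _
  exact eq_comm

lemma ga_rootMult {x : ℝ} (hx : IsIntegral ℤ x) {y : ℝ} (hy : y ∈ ga_cls x) (χ : ℤ[X])
    (hχ : ga_R χ ≠ 0) : rootMultiplicity x (ga_R χ) ≤ rootMultiplicity y (ga_R χ) := by
  by_contra hlt
  push Not at hlt
  have h1 := (lt_rootMultiplicity_iff_isRoot_iterate_derivative hχ).1 hlt
  have h2 : rootMultiplicity y (ga_R χ) < rootMultiplicity y (ga_R χ) := by
    rw [lt_rootMultiplicity_iff_isRoot_iterate_derivative hχ]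
    intro m hm
    have h3 := h1 m hm
    rw [ga_R, iterate_derivative_map, IsRoot] at h3 ⊢
    have h4 := ga_eval (derivative^[m] χ) x
    have h5 := ga_eval (derivative^[m] χ) y
    rw [ga_R] at h4 h5
    rw [h5]
    rw [h4] at h3
    exact ga_zero hx _ h3 hy
  exact lt_irrefl _ h2

open Classical in
lemma ga_group {ι : Type} [Fintype ι] (θ : ι → ℝ) (cls : ℝ → Finset ℝ)
    (h1 : ∀ i, θ i ∈ cls (θ i))
    (h2 : ∀ i, ∀ y ∈ cls (θ i), cls y = cls (θ i) ∧ mult θ y = mult θ (θ i))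
    (T : ℝ) (F : ℝ → ℝ) (hF : ∀ i, 0 ≤ ∑ y ∈ cls (θ i), F y) :
    0 ≤ ∑ i ∈ univ.filter (fun i => (mult θ (θ i) : ℝ) ≤ T), F (θ i) := by
  set L := univ.filter (fun i => (mult θ (θ i) : ℝ) ≤ T) with hL
  rw [← Finset.sum_fiberwise_of_maps_to (s := L) (t := L.image fun i => cls (θ i))
    (g := fun i => cls (θ i)) (fun i hi => Finset.mem_image_of_mem _ hi)]
  apply Finset.sum_nonneg
  intro S hS
  obtain ⟨i0, hi0, rfl⟩ := Finset.mem_image.1 hS
  rw [← Finset.sum_fiberwise_of_maps_to (s := L.filter fun i => cls (θ i) = cls (θ i0))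
    (t := cls (θ i0)) (g := θ) (fun i hi => by
      rw [← (Finset.mem_filter.1 hi).2]; exact h1 i)]
  have : ∀ y ∈ cls (θ i0), ∑ i ∈ (L.filter fun i => cls (θ i) = cls (θ i0)).filter
      (fun i => θ i = y), F (θ i) = (mult θ (θ i0) : ℝ) * F y := by
    intro y hy
    have he : (L.filter fun i => cls (θ i) = cls (θ i0)).filter (fun i => θ i = y) =
        univ.filter fun i => θ i = y := by
      ext i
      simp only [hL, Finset.mem_filter, Finset.mem_univ, true_and]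
      constructor
      · exact fun h => h.2
      · intro h
        have hi0' := (Finset.mem_filter.1 hi0).2
        refine ⟨⟨?_, ?_⟩, h⟩
        · rw [h, (h2 i0 y hy).2]; exact hi0'
        · rw [h, (h2 i0 y hy).1]
    rw [he, Finset.sum_congr rfl (g := fun _ => F y)
      (fun i hi => by rw [(Finset.mem_filter.1 hi).2]), Finset.sum_const, nsmul_eq_mul,
      ← (h2 i0 y hy).2, mult]
  rw [Finset.sum_congr rfl this, ← Finset.mul_sum]
  exact mul_nonneg (Nat.cast_nonneg _) (hF i0)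

open Classical in
theorem galois_pack {ι : Type} [Fintype ι] (θ : ι → ℝ) (χ : ℤ[X]) (hm : χ.Monic)
    (hχ : χ.map (Int.castRingHom ℝ) = ∏ i, (X - C (θ i))) :
    ∃ cls : ℝ → Finset ℝ,
      (∀ i, θ i ∈ cls (θ i)) ∧
      (∀ i, ∀ y ∈ cls (θ i), (∃ j, θ j = y) ∧ cls y = cls (θ i) ∧ mult θ y = mult θ (θ i)) ∧
      (∀ i (g : ℤ[X]), aeval (θ i) g = 0 → ∀ y ∈ cls (θ i), aeval y g = 0) ∧
      (∀ i (g : ℤ[X]), aeval (θ i) g ≠ 0 → 0 ≤ ∑ y ∈ cls (θ i), Real.log |aeval y g|) ∧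
      (∀ T : ℝ, 0 ≤ ∑ i ∈ univ.filter (fun i => (mult θ (θ i) : ℝ) ≤ T),
        ∑ j ∈ univ.filter (fun j => (mult θ (θ j) : ℝ) ≤ T), Real.log |θ i - θ j|) := by
  have hev : ∀ y : ℝ, aeval y χ = ∏ i, (y - θ i) := by
    intro y
    rw [← ga_eval, ga_R, hχ, eval_prod]
    simp
  have hroot : ∀ i, aeval (θ i) χ = 0 := by
    intro i
    rw [hev]
    exact Finset.prod_eq_zero (Finset.mem_univ i) (sub_self _)
  have hint : ∀ i, IsIntegral ℤ (θ i) := fun i => ⟨χ, hm, by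
    have := hroot i
    rwa [aeval_def] at this⟩
  have hne : ga_R χ ≠ 0 := (hm.map _).ne_zero
  have hsχ : (ga_R χ).Splits := by
    rw [ga_R, hχ]
    exact Splits.prod fun i _ => Splits.X_sub_C _
  have hs : ∀ i, (ga_R (minpoly ℤ (θ i))).Splits := fun i =>
    hsχ.of_dvd hne (Polynomial.map_dvd _ (minpoly.isIntegrallyClosed_dvd (hint i) (hroot i)))
  have hA : ∀ i, θ i ∈ ga_cls (θ i) := fun i => ga_self (hint i)
  have hB : ∀ i, ∀ y ∈ ga_cls (θ i), ga_cls y = ga_cls (θ i) ∧ mult θ y = mult θ (θ i) := by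
    intro i y hy
    refine ⟨ga_cls_eq (hint i) hy, ?_⟩
    rw [ga_mult_eq, ga_mult_eq, ← hχ]
    apply le_antisymm
    · apply ga_rootMult (ga_int (hint i) hy) _ χ hne
      rw [ga_cls_eq (hint i) hy]; exact hA i
    · exact ga_rootMult (hint i) hy χ hne
  have hC : ∀ i, ∀ y ∈ ga_cls (θ i), ∃ j, θ j = y := by
    intro i y hy
    have h0 := ga_zero (hint i) χ (hroot i) hy
    rw [hev] at h0
    obtain ⟨j, -, hj⟩ := Finset.prod_eq_zero_iff.1 h0
    exact ⟨j, (sub_eq_zero.1 hj).symm⟩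
  refine ⟨ga_cls, hA, fun i y hy => ⟨hC i y hy, hB i y hy⟩,
    fun i g hg y hy => ga_zero (hint i) g hg hy, fun i g hg => ga_norm (hint i) (hs i) g hg, ?_⟩
  intro T
  apply ga_group θ ga_cls hA hB T
    (fun x => ∑ j ∈ univ.filter (fun j => (mult θ (θ j) : ℝ) ≤ T), Real.log |x - θ j|)
  intro i
  rw [Finset.sum_comm]
  apply ga_group θ ga_cls hA hB T (fun z => ∑ y ∈ ga_cls (θ i), Real.log |y - z|)
  intro j
  rw [Finset.sum_comm]
  exact ga_pair (hint i) (hs i) (hint j) (hs j)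

end Pool.Agent.H170Z.Cage
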