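import Mathlib
import Pool.Agent.H170Z.Cage.Defs

set_option autoImplicit false
set_option linter.unusedSectionVars false

namespace Pool.Agent.H170Z.Cage

open Polynomial Finset

section dist

variable {V : Type} {G : SimpleGraph V}

theorem g_path_of_edist {x y : V} (p : G.Walk x y) (hp : (p.length : ℕ∞) = G.edist x y) :
    p.IsPath := by
  apply p.isPath_of_length_eq_dist
  have h := p.reachable.coe_dist_eq_edist
  rw [← hp] at h
  exact_mod_cast h.symm

theorem g_edist_adj {x y y' : V} (h : G.Adj y y') : G.edist y' x ≤ G.edist y x + 1 := by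
  have h1 : G.edist y' x ≤ G.edist y' y + G.edist y x := G.edist_triangle
  rw [SimpleGraph.edist_eq_one_iff_adj.mpr h.symm, add_comm] at h1
  exact h1

theorem g_par_ex {x y : V} {i : ℕ} (h : G.edist y x = ((i + 1 : ℕ) : ℕ∞)) :
    ∃ y', G.Adj y y' ∧ G.edist y' x = i := by
  obtain ⟨p, hp⟩ := SimpleGraph.exists_walk_of_edist_eq_coe h
  cases p with
  | nil => simp at hp
  | cons h' q =>
    rename_i z
    refine ⟨z, h', le_antisymm ?_ ?_⟩
    · have := SimpleGraph.edist_le q
      simp only [SimpleGraph.Walk.length_cons, Nat.add_right_cancel_iff] at hp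
      rwa [hp] at this
    · have h2 := g_edist_adj (x := x) h'.symm
      rw [h] at h2
      push_cast at h2
      exact (ENat.add_le_add_iff_right (by simp)).mp h2

theorem g_par_uniq {x y y1 y2 : V} {i : ℕ} (h : G.edist y x = ((i + 1 : ℕ) : ℕ∞))
    (h1 : G.Adj y y1) (h2 : G.Adj y y2) (e1 : G.edist y1 x = i) (e2 : G.edist y2 x = i)
    (hg : 2 * (i + 1) < G.girth) : y1 = y2 := by
  by_contra hne
  obtain ⟨q1, hq1⟩ := SimpleGraph.exists_walk_of_edist_eq_coe e1
  obtain ⟨q2, hq2⟩ := SimpleGraph.exists_walk_of_edist_eq_coe e2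
  have p1 : (SimpleGraph.Walk.cons h1 q1).IsPath := g_path_of_edist _ (by simp [h, hq1])
  have p2 : (SimpleGraph.Walk.cons h2 q2).IsPath := g_path_of_edist _ (by simp [h, hq2])
  have hd : SimpleGraph.Walk.cons h1 q1 ≠ SimpleGraph.Walk.cons h2 q2 := by
    intro he
    simp only [SimpleGraph.Walk.cons.injEq] at he
    exact hne he.1
  obtain ⟨w, -, -, c, hc, hl⟩ := p1.exists_isCycle_length_le_add_of_ne p2 hd
  have := SimpleGraph.girth_le_length hc
  simp only [SimpleGraph.Walk.length_cons, hq1, hq2] at hl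
  omega

theorem g_no_side {x y y' : V} {i : ℕ} (h : G.edist y x = i) (h1 : G.Adj y y')
    (e1 : G.edist y' x = i) (hg : 2 * i + 1 < G.girth) : False := by
  classical
  obtain ⟨p, hp⟩ := SimpleGraph.exists_walk_of_edist_eq_coe h
  obtain ⟨q, hq⟩ := SimpleGraph.exists_walk_of_edist_eq_coe e1
  have pp : p.IsPath := g_path_of_edist _ (by simp [h, hp])
  have pq : q.IsPath := g_path_of_edist _ (by simp [e1, hq])
  have hy : y ∉ q.support := by
    intro hy
    have h3 := SimpleGraph.Walk.length_dropUntil_lt_length hy h1.ne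
    have h4 := SimpleGraph.edist_le (q.dropUntil y hy)
    rw [h] at h4
    have h5 : i ≤ (q.dropUntil y hy).length := by exact_mod_cast h4
    omega
  have p2 : (SimpleGraph.Walk.cons h1 q).IsPath := by
    rw [SimpleGraph.Walk.cons_isPath_iff]
    exact ⟨pq, hy⟩
  have hd : p ≠ SimpleGraph.Walk.cons h1 q := by
    intro he
    have := congrArg SimpleGraph.Walk.length he
    simp only [SimpleGraph.Walk.length_cons, hp, hq] at this
    omega
  obtain ⟨w, -, -, c, hc, hl⟩ := pp.exists_isCycle_length_le_add_of_ne p2 hd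
  have := SimpleGraph.girth_le_length hc
  simp only [SimpleGraph.Walk.length_cons, hp, hq] at hl
  omega

/-- truncated distance -/
noncomputable def g_rho (G : SimpleGraph V) (d : ℕ) (x y : V) : ℕ :=
  (min (G.edist y x) ((d + 1 : ℕ) : ℕ∞)).toNat

theorem g_rho_coe (d : ℕ) (x y : V) :
    (g_rho G d x y : ℕ∞) = min (G.edist y x) ((d + 1 : ℕ) : ℕ∞) := by
  unfold g_rho
  apply ENat.natCast_toNat
  exact ne_top_of_le_ne_top (ENat.natCast_ne_top _) (min_le_right _ _)

theorem g_rho_eq_iff {d i : ℕ} (hi : i ≤ d) (x y : V) :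
    g_rho G d x y = i ↔ G.edist y x = i := by
  rw [← Nat.cast_inj (R := ℕ∞), g_rho_coe]
  have hlt : (i : ℕ∞) < ((d + 1 : ℕ) : ℕ∞) := by exact_mod_cast Nat.lt_succ_of_le hi
  constructor
  · intro h
    rcases min_choice (G.edist y x) ((d + 1 : ℕ) : ℕ∞) with h' | h'
    · rw [← h', h]
    · rw [h'] at h
      exact absurd h hlt.ne'
  · intro h
    rw [h]
    exact min_eq_left hlt.le

theorem g_rho_symm (d : ℕ) (x y : V) : g_rho G d x y = g_rho G d y x := by
  unfold g_rho
  rw [SimpleGraph.edist_comm]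

theorem g_rho_zero (d : ℕ) (x y : V) : g_rho G d x y = 0 ↔ x = y := by
  rw [g_rho_eq_iff (Nat.zero_le d), Nat.cast_zero, SimpleGraph.edist_eq_zero_iff, eq_comm]

theorem g_rho_adj (d : ℕ) (x y y' : V) (h : G.Adj y y') :
    g_rho G d x y' ≤ g_rho G d x y + 1 := by
  have h1 := g_edist_adj (x := x) h
  have h2 : (g_rho G d x y' : ℕ∞) ≤ (g_rho G d x y : ℕ∞) + 1 := by
    rw [g_rho_coe, g_rho_coe]
    rcases le_total (G.edist y x) ((d + 1 : ℕ) : ℕ∞) with h3 | h3
    · rw [min_eq_left h3]
      exact (min_le_left _ _).trans h1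
    · rw [min_eq_right h3]
      exact (min_le_right _ _).trans le_self_add
  exact_mod_cast h2

end dist

section poly

theorem g_Fp_rec (i : ℕ) :
    Fp (i + 2) = Fp (i + 1) * X - C (if i = 0 then (10 : ℤ) else 9) * Fp i := by
  match i with
  | 0 =>
    simp only [Fp, Hp, if_true, map_ofNat]
    ring
  | 1 =>
    simp only [Fp, Hp, map_ofNat]
    simp only [one_ne_zero, if_false, map_ofNat]
    ring
  | (j + 2) =>
    have e1 : Fp (j + 2 + 2) = Hp (j + 4) - Hp (j + 2) := rfl
    have e2 : Fp (j + 2 + 1) = Hp (j + 3) - Hp (j + 1) := rfl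
    have e3 : Fp (j + 2) = Hp (j + 2) - Hp j := rfl
    have e4 : Hp (j + 4) = X * Hp (j + 3) - C 9 * Hp (j + 2) := rfl
    have e5 : Hp (j + 2) = X * Hp (j + 1) - C 9 * Hp j := rfl
    rw [e1, e2, e3, e4, if_neg (by omega)]
    linear_combination (-1 : ℤ[X]) * e5

theorem g_Fp_eval (i : ℕ) : (Fp i).eval 10 = (Sz i : ℤ) := by
  induction i using Nat.strong_induction_on with
  | _ i ih =>
    match i with
    | 0 => simp [Fp, Sz]
    | 1 => simp [Fp, Sz]
    | 2 =>
      rw [g_Fp_rec 0]
      simp [Fp, Sz]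
    | (j + 3) =>
      rw [g_Fp_rec (j + 1), eval_sub, eval_mul, eval_mul, ih (j + 2) (by omega),
        ih (j + 1) (by omega), if_neg (by omega)]
      simp only [Sz, eval_X, eval_C]
      push_cast
      ring

theorem g_geom (k : ℕ) : 8 * ∑ i ∈ range k, (9 : ℤ) ^ i + 1 = 9 ^ k := by
  induction k with
  | zero => simp
  | succ k ih => rw [sum_range_succ, pow_succ]; linear_combination ih

theorem g_sum_Sz (k : ℕ) :
    ∑ i ∈ range (k + 1), (Sz i : ℤ) = 1 + 10 * ∑ i ∈ range k, (9 : ℤ) ^ i := by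
  induction k with
  | zero => simp [Sz]
  | succ k ih =>
    rw [sum_range_succ, ih, sum_range_succ]
    simp only [Sz]
    push_cast
    ring

theorem g_Pp_eval (κ d : ℕ) :
    (Pp κ d).eval 10 = (Sz d : ℤ) + κ * ∑ i ∈ range d, (Sz i : ℤ) := by
  simp only [Pp, eval_add, eval_mul, eval_C, eval_finsetSum, g_Fp_eval]

theorem g_Pp_one (d : ℕ) : (Pp 1 d).eval 10 = 1 + 10 * ∑ i ∈ range d, (9 : ℤ) ^ i := by
  rw [g_Pp_eval, ← g_sum_Sz, sum_range_succ]
  push_cast
  ring

theorem g_Pp_ten (d : ℕ) (hd : 1 ≤ d) :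
    (Pp 10 d).eval 10 = 10 * (2 * ∑ i ∈ range d, (9 : ℤ) ^ i) := by
  obtain ⟨k, rfl⟩ : ∃ k, d = k + 1 := ⟨d - 1, by omega⟩
  rw [g_Pp_eval, g_sum_Sz, sum_range_succ]
  simp only [Sz]
  push_cast
  linear_combination (10 : ℤ) * g_geom k

end poly

section matrix

variable {V : Type} [Fintype V] [DecidableEq V]

theorem g_aeval_symm (A : Matrix V V ℤ) (hA : A.transpose = A) (p : ℤ[X]) :
    (aeval A p).transpose = aeval A p := by
  induction p using Polynomial.induction_on' with
  | add p q hp hq => rw [map_add, Matrix.transpose_add, hp, hq]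
  | monomial n a =>
    rw [aeval_monomial, ← Algebra.smul_def, Matrix.transpose_smul, Matrix.transpose_pow, hA]

theorem g_pow_row (A : Matrix V V ℤ) (hA : ∀ x, ∑ y, A x y = 10) (n : ℕ) (x : V) :
    ∑ y, (A ^ n) x y = 10 ^ n := by
  induction n generalizing x with
  | zero => simp [Matrix.one_apply]
  | succ n ih =>
    simp only [pow_succ, Matrix.mul_apply]
    rw [sum_comm]
    simp only [← mul_sum, hA]
    rw [← sum_mul, ih]

theorem g_aeval_row (A : Matrix V V ℤ) (hA : ∀ x, ∑ y, A x y = 10) (p : ℤ[X]) (x : V) :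
    ∑ y, (aeval A p) x y = p.eval 10 := by
  induction p using Polynomial.induction_on' with
  | add p q hp hq =>
    simp only [map_add, Matrix.add_apply, sum_add_distrib, hp, hq, eval_add]
  | monomial n a =>
    rw [aeval_monomial, ← Algebra.smul_def, eval_monomial]
    simp only [Matrix.smul_apply, smul_eq_mul, ← mul_sum, g_pow_row A hA]

theorem g_aeval_comm (A : Matrix V V ℤ) (p : ℤ[X]) : A * aeval A p = aeval A p * A := by
  have h1 : A * aeval A p = aeval A (X * p) := by rw [map_mul, aeval_X]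
  have h2 : aeval A p * A = aeval A (p * X) := by rw [map_mul, aeval_X]
  rw [h1, h2, mul_comm]

variable (G : SimpleGraph V) [DecidableRel G.Adj] (ρ : V → V → ℕ) (d : ℕ)

/-- number of neighbours of `y` at level `i` from `x` -/
def g_cnt (x y : V) (i : ℕ) : ℕ := (univ.filter fun y' => G.Adj y y' ∧ ρ x y' = i).card

/-- the tree-like hypotheses -/
structure g_Tree : Prop where
  reg : ∀ x, (univ.filter fun y => G.Adj x y).card = 10
  ρ_zero : ∀ x y, ρ x y = 0 ↔ x = y
  ρ_adj : ∀ x y y', G.Adj y y' → ρ x y' ≤ ρ x y + 1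
  par_ex : ∀ x y i, ρ x y = i + 1 → i + 1 ≤ d → ∃ y', G.Adj y y' ∧ ρ x y' = i
  par_uniq : ∀ x y i y1 y2, ρ x y = i + 1 → i + 1 < d → G.Adj y y1 → G.Adj y y2 →
    ρ x y1 = i → ρ x y2 = i → y1 = y2
  no_side : ∀ x y y', ρ x y < d → G.Adj y y' → ρ x y' ≠ ρ x y

variable {G ρ d}

theorem g_cnt_le_ten (T : g_Tree G ρ d) (x y : V) (i : ℕ) : g_cnt G ρ x y i ≤ 10 := by
  rw [← T.reg y]
  apply card_le_card
  intro z hz
  simp only [mem_filter, mem_univ, true_and] at hz ⊢
  exact hz.1

theorem g_cnt_par (T : g_Tree G ρ d) {x y : V} {i : ℕ} (h : ρ x y = i + 1) (hi : i + 1 < d) :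
    g_cnt G ρ x y i = 1 := by
  obtain ⟨z, hz1, hz2⟩ := T.par_ex x y i h hi.le
  unfold g_cnt
  rw [card_eq_one]
  refine ⟨z, ?_⟩
  ext w
  simp only [mem_filter, mem_univ, true_and, mem_singleton]
  constructor
  · rintro ⟨h1, h2⟩
    exact T.par_uniq x y i w z h hi h1 hz1 h2 hz2
  · rintro rfl
    exact ⟨hz1, hz2⟩

theorem g_cnt_child (T : g_Tree G ρ d) {x y : V} {j : ℕ} (h : ρ x y = j) (hj : j < d) :
    g_cnt G ρ x y (j + 1) = if j = 0 then 10 else 9 := by
  have key : ∀ z, G.Adj y z → ρ x z = j + 1 ∨ ρ x z + 1 = j := by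
    intro z hz
    have h1 := T.ρ_adj x y z hz
    have h2 := T.ρ_adj x z y hz.symm
    have h3 := T.no_side x y z (by omega) hz
    omega
  split_ifs with h0
  · rw [← T.reg y]
    unfold g_cnt
    congr 1
    ext z
    simp only [mem_filter, mem_univ, true_and]
    constructor
    · exact fun h => h.1
    · intro hz
      have := key z hz
      exact ⟨hz, by omega⟩
  · obtain ⟨k, rfl⟩ : ∃ k, j = k + 1 := ⟨j - 1, by omega⟩
    have h1 := g_cnt_par T h hj
    have h2 : g_cnt G ρ x y (k + 1 + 1) + g_cnt G ρ x y k = 10 := by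
      rw [← T.reg y]
      unfold g_cnt
      rw [← card_union_of_disjoint]
      · congr 1
        ext z
        simp only [mem_union, mem_filter, mem_univ, true_and]
        constructor
        · rintro (h | h) <;> exact h.1
        · intro hz
          rcases key z hz with h3 | h3
          · exact Or.inl ⟨hz, h3⟩
          · exact Or.inr ⟨hz, by omega⟩
      · rw [disjoint_filter]
        intro z _ h3 h4
        omega
    omega

theorem g_cnt_other (T : g_Tree G ρ d) {x y : V} {i : ℕ} (hi : i < d) (h1 : ρ x y ≠ i + 1)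
    (h2 : ρ x y + 1 ≠ i) : g_cnt G ρ x y i = 0 := by
  unfold g_cnt
  rw [card_eq_zero, filter_eq_empty_iff]
  rintro z - ⟨hz, hz2⟩
  have h3 := T.ρ_adj x y z hz
  have h4 := T.ρ_adj x z y hz.symm
  have h5 := T.no_side x z y (by omega) hz.symm
  omega

theorem g_step (T : g_Tree G ρ d) {i : ℕ} (hi : i + 1 < d)
    (h0 : ∀ x y, (aeval (G.adjMatrix ℤ) (Fp i)) x y = if ρ x y = i then 1 else 0)
    (h1 : ∀ x y, (aeval (G.adjMatrix ℤ) (Fp (i + 1))) x y = if ρ x y = i + 1 then 1 else 0)
    (x y : V) : (aeval (G.adjMatrix ℤ) (Fp (i + 2))) x y =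
      if ρ x y = i + 2 then (g_cnt G ρ x y (i + 1) : ℤ) else 0 := by
  have e : (aeval (G.adjMatrix ℤ) (Fp (i + 1)) * G.adjMatrix ℤ) x y =
      (g_cnt G ρ x y (i + 1) : ℤ) := by
    rw [Matrix.mul_apply]
    unfold g_cnt
    rw [card_filter]
    push_cast
    refine sum_congr rfl fun z _ => ?_
    rw [h1, SimpleGraph.adjMatrix_apply]
    by_cases ha : G.Adj y z
    · simp [ha, ha.symm]
    · have ha' : ¬ G.Adj z y := fun h => ha h.symm
      simp [ha, ha']
  rw [g_Fp_rec, map_sub, map_mul, map_mul, aeval_X, aeval_C, ← Algebra.smul_def,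
    Matrix.sub_apply, Matrix.smul_apply, e, h0, smul_eq_mul]
  by_cases c1 : ρ x y = i + 2
  · rw [if_pos c1, if_neg (show ¬ ρ x y = i by omega)]
    ring
  · rw [if_neg c1]
    by_cases c2 : ρ x y = i
    · rw [if_pos c2, g_cnt_child T c2 (by omega)]
      split_ifs <;> simp
    · rw [if_neg c2, g_cnt_other T hi c1 (by omega)]
      simp

theorem g_N_eq (T : g_Tree G ρ d) (i : ℕ) (hi : i < d) (x y : V) :
    (aeval (G.adjMatrix ℤ) (Fp i)) x y = if ρ x y = i then 1 else 0 := by
  induction i using Nat.strong_induction_on generalizing x y with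
  | _ i ih =>
    match i with
    | 0 => simp [Fp, Matrix.one_apply, T.ρ_zero]
    | 1 =>
      have : ρ x y = 1 ↔ G.Adj x y := by
        constructor
        · intro h
          obtain ⟨z, hz1, hz2⟩ := T.par_ex x y 0 h hi.le
          rw [T.ρ_zero] at hz2
          rw [hz2]
          exact hz1.symm
        · intro h
          have h1 := T.ρ_adj x x y h
          have h2 := (T.ρ_zero x x).mpr rfl
          have h3 : ρ x y ≠ 0 := fun h' => h.ne ((T.ρ_zero x y).mp h')
          omega
      simp [Fp, SimpleGraph.adjMatrix_apply, this]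
    | (j + 2) =>
      rw [g_step T (by omega) (ih j (by omega) (by omega)) (ih (j + 1) (by omega) (by omega))]
      split_ifs with h
      · rw [g_cnt_par T h hi]
        simp
      · rfl

theorem g_N_top (T : g_Tree G ρ d) (hd : 2 ≤ d) (x y : V) :
    (aeval (G.adjMatrix ℤ) (Fp d)) x y =
      if ρ x y = d then (g_cnt G ρ x y (d - 1) : ℤ) else 0 := by
  obtain ⟨k, rfl⟩ : ∃ k, d = k + 2 := ⟨d - 2, by omega⟩
  exact g_step T (by omega) (g_N_eq T k (by omega)) (g_N_eq T (k + 1) (by omega)) x y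

theorem g_P_apply (T : g_Tree G ρ d) (hd : 2 ≤ d) (κ : ℕ) (x y : V) :
    (aeval (G.adjMatrix ℤ) (Pp κ d)) x y =
      (if ρ x y = d then (g_cnt G ρ x y (d - 1) : ℤ) else 0) +
        κ * (if ρ x y < d then 1 else 0) := by
  rw [Pp, map_add, map_mul, aeval_C, ← Algebra.smul_def, Matrix.add_apply, Matrix.smul_apply,
    g_N_top T hd, map_sum, Matrix.sum_apply, smul_eq_mul]
  congr 2
  rw [sum_congr rfl fun i hi => g_N_eq T i (mem_range.mp hi) x y, sum_ite_eq]
  simp

theorem g_row (T : g_Tree G ρ d) (x : V) : ∑ y, (G.adjMatrix ℤ) x y = 10 := by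
  have := T.reg x
  rw [card_filter] at this
  simp only [SimpleGraph.adjMatrix_apply]
  exact_mod_cast this

theorem g_col (T : g_Tree G ρ d) (y : V) : ∑ x, (G.adjMatrix ℤ) x y = 10 := by
  rw [← g_row T y]
  refine sum_congr rfl fun x _ => ?_
  simp only [SimpleGraph.adjMatrix_apply, G.adj_comm]

theorem g_inst (T : g_Tree G ρ d) (hd : 2 ≤ d) (hne : Nonempty V)
    (hs : ∀ x y, ρ x y = ρ y x) (κ : ℕ) (hκ : κ = 1 ∨ κ = 10)
    (hc : ∀ x y, ρ x y = d → g_cnt G ρ x y (d - 1) ≤ κ) (c : ℕ)
    (hrow : (κ : ℤ) * Fintype.card V - (Pp κ d).eval 10 ≤ c) : Nonempty (Inst V c d) := by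
  refine ⟨{
    G := G
    dec := inferInstance
    ne := hne
    reg := T.reg
    ρ := ρ
    ρ_symm := hs
    ρ_zero := T.ρ_zero
    ρ_adj := T.ρ_adj
    par_ex := T.par_ex
    par_uniq := T.par_uniq
    no_side := T.no_side
    κ := κ
    hκ := hκ
    E := Matrix.of fun x y => (κ : ℤ) - (aeval (G.adjMatrix ℤ) (Pp κ d)) x y
    E_nonneg := ?_
    E_row := ?_
    E_eq := ?_
    E_symm := ?_
    E_comm := ?_
    N_eq := g_N_eq T
    N_top := ?_ }⟩
  · intro x y
    rw [Matrix.of_apply, g_P_apply T hd]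
    by_cases h1 : ρ x y = d
    · have := hc x y h1
      rw [if_pos h1, if_neg (by omega)]
      omega
    · rw [if_neg h1]
      split_ifs <;> simp
  · intro x
    simp only [Matrix.of_apply, sum_sub_distrib, g_aeval_row _ (g_row T), sum_const, card_univ,
      nsmul_eq_mul]
    linarith
  · intro x y
    simp
  · intro x y
    have := congrFun (congrFun
      (g_aeval_symm (G.adjMatrix ℤ) G.transpose_adjMatrix (Pp κ d)) x) y
    rw [Matrix.transpose_apply] at this
    simp only [Matrix.of_apply, this]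
  · ext x y
    have := congrFun (congrFun (g_aeval_comm (G.adjMatrix ℤ) (Pp κ d)) x) y
    simp only [Matrix.mul_apply] at this
    simp only [Matrix.mul_apply, Matrix.of_apply, mul_sub, sub_mul, sum_sub_distrib, this,
      ← sum_mul, ← mul_sum, g_row T, g_col T]
    ring
  · intro x y
    rw [g_N_top T hd]
    have := g_cnt_le_ten T x y (d - 1)
    refine ⟨?_, ?_, ?_⟩
    · split_ifs <;> simp
    · split_ifs
      · exact_mod_cast this
      · norm_num
    · intro h
      rw [if_neg h]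

end matrix

open Classical in
theorem exists_inst (c g n : ℕ) (hg : 4 ≤ g) (G : SimpleGraph (Fin n))
    (hreg : G.IsRegularOfDegree 10) (hgirth : G.girth = g)
    (hn : n ≤ (if Even g then 2 * ∑ i ∈ Finset.range (g / 2), (10 - 1) ^ i
      else 1 + 10 * ∑ i ∈ Finset.range ((g - 1) / 2), (10 - 1) ^ i) + c) :
    Nonempty (Inst (Fin n) (10 * c) (g / 2)) := by
  set d := g / 2 with hd
  have T : g_Tree G (g_rho G d) d := {
    reg := fun x => by
      have := hreg x
      rw [← SimpleGraph.card_neighborFinset_eq_degree, SimpleGraph.neighborFinset_eq_filter]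
        at this
      convert this
    ρ_zero := g_rho_zero d
    ρ_adj := g_rho_adj d
    par_ex := fun x y i h hi => by
      rw [g_rho_eq_iff hi] at h
      obtain ⟨z, hz1, hz2⟩ := g_par_ex h
      exact ⟨z, hz1, (g_rho_eq_iff (by omega) x z).mpr hz2⟩
    par_uniq := fun x y i y1 y2 h hi h1 h2 e1 e2 => by
      rw [g_rho_eq_iff (by omega)] at h e1 e2
      exact g_par_uniq h h1 h2 e1 e2 (by omega)
    no_side := fun x y y' h h1 e1 => by
      have h2 : G.edist y x = g_rho G d x y := (g_rho_eq_iff h.le x y).mp rfl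
      rw [g_rho_eq_iff h.le] at e1
      exact g_no_side h2 h1 e1 (by omega) }
  have hne : Nonempty (Fin n) := by
    have : ¬ G.IsAcyclic := by
      rw [← SimpleGraph.girth_eq_zero]
      omega
    obtain ⟨a, -⟩ := SimpleGraph.exists_girth_eq_length.mpr this
    exact ⟨a⟩
  by_cases he : Even g
  · rw [if_pos he] at hn
    refine g_inst T (by omega) hne (g_rho_symm d) 10 (Or.inr rfl)
      (fun x y _ => g_cnt_le_ten T x y _) _ ?_
    rw [g_Pp_ten d (by omega), Fintype.card_fin]
    have : (n : ℤ) ≤ 2 * ∑ i ∈ range d, (9 : ℤ) ^ i + c := by exact_mod_cast hn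
    push_cast
    linarith
  · rw [if_neg he] at hn
    have ho : g = 2 * d + 1 := by
      rw [Nat.not_even_iff] at he
      omega
    have hd' : (g - 1) / 2 = d := by omega
    rw [hd'] at hn
    refine g_inst T (by omega) hne (g_rho_symm d) 1 (Or.inl rfl) ?_ _ ?_
    · intro x y h
      unfold g_cnt
      rw [card_le_one]
      intro y1 h1 y2 h2
      simp only [mem_filter, mem_univ, true_and] at h1 h2
      obtain ⟨a1, e1⟩ := h1
      obtain ⟨a2, e2⟩ := h2
      rw [g_rho_eq_iff (by omega)] at h e1 e2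
      have h' : G.edist y x = ((d - 1 + 1 : ℕ) : ℕ∞) := by
        rw [h]
        congr 1
        omega
      exact g_par_uniq h' a1 a2 e1 e2 (by omega)
    · rw [g_Pp_one d, Fintype.card_fin]
      have : (n : ℤ) ≤ 1 + 10 * ∑ i ∈ range d, (9 : ℤ) ^ i + c := by exact_mod_cast hn
      push_cast
      have hc : (0 : ℤ) ≤ c := Int.natCast_nonneg c
      linarith

end Pool.Agent.H170Z.Cage
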