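import Mathlib
import Pool.Agent.H170Z.Cage.Defs

set_option autoImplicit false

namespace Pool.Agent.H170Z.Cage

open Polynomial Finset

theorem Hr_zero (x : ℝ) : Hr 0 x = 1 := by simp [Hr, Hp]
theorem Hr_one (x : ℝ) : Hr 1 x = x := by simp [Hr, Hp]
theorem Hr_succ (i : ℕ) (x : ℝ) : Hr (i + 2) x = x * Hr (i + 1) x - 9 * Hr i x := by
  simp [Hr, Hp, map_ofNat]
theorem Fr_zero (x : ℝ) : Fr 0 x = 1 := by simp [Fr, Fp]
theorem Fr_one (x : ℝ) : Fr 1 x = x := by simp [Fr, Fp]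
theorem Fr_succ (i : ℕ) (x : ℝ) : Fr (i + 2) x = Hr (i + 2) x - Hr i x := by simp [Fr, Hr, Fp]

lemma p_Hinv (x : ℝ) (i : ℕ) :
    Hr (i + 1) x ^ 2 - x * Hr (i + 1) x * Hr i x + 9 * Hr i x ^ 2 = 9 ^ (i + 1) := by
  induction i with
  | zero => rw [Hr_one, Hr_zero]; ring
  | succ i ih => rw [Hr_succ, pow_succ (9 : ℝ) (i + 1), ← ih]; ring

theorem Hr_abs_le (i : ℕ) {x : ℝ} (hx : |x| ≤ 6) : |Hr i x| ≤ (i + 1) * 3 ^ i := by
  induction i with
  | zero => simp [Hr_zero]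
  | succ i ih =>
    have h := p_Hinv x i
    have hx2 : x ^ 2 ≤ 36 := by nlinarith [abs_nonneg x, sq_abs x]
    have e9 : (9 : ℝ) ^ (i + 1) = (3 ^ (i + 1)) ^ 2 := by
      rw [← pow_mul, mul_comm, pow_mul]; norm_num
    have h1 : (Hr (i + 1) x - x / 2 * Hr i x) ^ 2 ≤ (3 ^ (i + 1)) ^ 2 := by
      rw [← e9, ← h]; nlinarith [sq_nonneg (Hr i x)]
    have h2 : |Hr (i + 1) x - x / 2 * Hr i x| ≤ 3 ^ (i + 1) :=
      abs_le_of_sq_le_sq h1 (by positivity)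
    have h3 : |x / 2 * Hr i x| ≤ 3 * ((i + 1) * 3 ^ i) := by
      rw [abs_mul, abs_div, abs_two]
      exact mul_le_mul (by linarith) ih (abs_nonneg _) (by norm_num)
    have h4 := abs_add_le (Hr (i + 1) x - x / 2 * Hr i x) (x / 2 * Hr i x)
    rw [sub_add_cancel] at h4
    push_cast
    rw [pow_succ] at h2 ⊢
    linarith

theorem Fr_abs_le (i : ℕ) {x : ℝ} (hx : |x| ≤ 6) : |Fr i x| ≤ 2 * (i + 1) * 3 ^ i := by
  match i with
  | 0 => simp [Fr_zero]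
  | 1 => rw [Fr_one]; norm_num; linarith
  | i + 2 =>
    rw [Fr_succ]
    have h1 := Hr_abs_le (i + 2) hx
    have h2 := Hr_abs_le i hx
    have h3 := abs_sub (Hr (i + 2) x) (Hr i x)
    have h4 : (0 : ℝ) < 3 ^ i := by positivity
    have h5 : (0 : ℝ) ≤ i := by positivity
    push_cast at h1 ⊢
    rw [pow_add] at h1 ⊢
    nlinarith

lemma p_ratio {x a r : ℝ} (hx : a ≤ |x|) (hr : 0 < r) (hra : r ≤ a) (h : r ^ 2 + 9 ≤ a * r)
    (i : ℕ) : r * |Hr i x| ≤ |Hr (i + 1) x| := by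
  induction i with
  | zero => rw [Hr_zero, Hr_one]; simp; linarith
  | succ i ih =>
    rw [Hr_succ]
    have h1 := abs_sub_abs_le_abs_sub (x * Hr (i + 1) x) (9 * Hr i x)
    rw [abs_mul, abs_mul, abs_of_pos (by norm_num : (0 : ℝ) < 9)] at h1
    have h2 := abs_nonneg (Hr (i + 1) x)
    have h3 : a * |Hr (i + 1) x| ≤ |x| * |Hr (i + 1) x| := mul_le_mul_of_nonneg_right hx h2
    refine le_of_mul_le_mul_left ?_ hr
    nlinarith [mul_le_mul_of_nonneg_right h h2, mul_le_mul_of_nonneg_left h1 hr.le,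
      mul_le_mul_of_nonneg_left h3 hr.le]

lemma p_pow_le {x a r : ℝ} (hx : a ≤ |x|) (hr : 0 < r) (hra : r ≤ a) (h : r ^ 2 + 9 ≤ a * r)
    (i : ℕ) : r ^ i ≤ |Hr i x| := by
  induction i with
  | zero => simp [Hr_zero]
  | succ i ih =>
    refine le_trans ?_ (p_ratio hx hr hra h i)
    rw [pow_succ']
    exact mul_le_mul_of_nonneg_left ih hr.le

theorem Hr_ge (i : ℕ) {x : ℝ} (hx : 7 ≤ |x|) : 5 ^ i ≤ |Hr i x| := by
  exact p_pow_le hx (by norm_num) (by norm_num) (by norm_num) i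

lemma p_Hten : ∀ i : ℕ, 8 * Hr i 10 = 9 ^ (i + 1) - 1
  | 0 => by rw [Hr_zero]; norm_num
  | 1 => by rw [Hr_one]; norm_num
  | i + 2 => by
    have h1 := p_Hten i
    have h2 := p_Hten (i + 1)
    rw [Hr_succ]
    rw [pow_succ] at h2
    rw [pow_succ, pow_succ]
    linarith

theorem Hr_ten (i : ℕ) : Hr i 10 ≤ 2 * 9 ^ i := by
  have h := p_Hten i
  have h4 : (0 : ℝ) < 9 ^ i := by positivity
  rw [pow_succ] at h
  linarith

theorem Fr_ten (i : ℕ) : Fr i 10 = Sz i := by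
  match i with
  | 0 => simp [Fr_zero, Sz]
  | 1 => simp [Fr_one, Sz]
  | i + 2 =>
    have h1 := p_Hten i
    have h2 := p_Hten (i + 2)
    rw [Fr_succ]
    simp only [Sz]
    push_cast
    rw [pow_succ, pow_succ] at h2
    linarith

lemma p_Pr (κ d : ℕ) (x : ℝ) : Pr κ d x = Fr d x + κ * ∑ i ∈ range d, Fr i x := by
  simp [Pr, Pp, Fr, map_sum]

lemma p_sumF (n : ℕ) (x : ℝ) : ∑ i ∈ range (n + 2), Fr i x = Hr (n + 1) x + Hr n x := by
  induction n with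
  | zero => simp [sum_range_succ, Fr_zero, Fr_one, Hr_zero, Hr_one, add_comm]
  | succ n ih => rw [sum_range_succ, ih, Fr_succ]; ring

theorem Pr_big {κ d : ℕ} (hκ : κ = 1 ∨ κ = 10) (hd : 2 ≤ d) {x : ℝ} (h1 : 6 ≤ |x|) (h2 : -7 ≤ x) :
    3 ^ (d - 1) ≤ |Pr κ d x| := by
  obtain ⟨n, rfl⟩ : ∃ n, d = n + 2 := ⟨d - 2, by omega⟩
  have h3 : (3 : ℝ) ^ (n + 1) ≤ |Hr (n + 1) x| :=
    p_pow_le h1 (by norm_num) (by norm_num) (by norm_num) _
  have h4 : 3 * |Hr (n + 1) x| ≤ |Hr (n + 2) x| :=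
    p_ratio h1 (by norm_num) (by norm_num) (by norm_num) _
  have h5 := abs_nonneg (Hr (n + 1) x)
  rw [p_Pr, p_sumF, Fr_succ, show n + 2 - 1 = n + 1 from rfl]
  rcases hκ with rfl | rfl
  · have e : Hr (n + 2) x - Hr n x + ((1 : ℕ) : ℝ) * (Hr (n + 1) x + Hr n x) =
        Hr (n + 2) x - -Hr (n + 1) x := by push_cast; ring
    rw [e]
    have := abs_sub_abs_le_abs_sub (Hr (n + 2) x) (-Hr (n + 1) x)
    rw [abs_neg] at this
    linarith
  · have e : Hr (n + 2) x - Hr n x + ((10 : ℕ) : ℝ) * (Hr (n + 1) x + Hr n x) =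
        (x + 10) * Hr (n + 1) x := by rw [Hr_succ]; push_cast; ring
    rw [e, abs_mul, abs_of_pos (by linarith : 0 < x + 10)]
    nlinarith

lemma p_Sz_ge (i : ℕ) : (9 : ℝ) ^ i ≤ Sz i := by
  cases i with
  | zero => simp [Sz]
  | succ i =>
    simp only [Sz]
    push_cast
    rw [pow_succ]
    have : (0 : ℝ) < 9 ^ i := by positivity
    linarith

lemma p_Sz_pos (i : ℕ) : (0 : ℝ) < Sz i := lt_of_lt_of_le (by positivity) (p_Sz_ge i)

lemma p_one_le {κ : ℕ} (hκ : κ = 1 ∨ κ = 10) : (1 : ℝ) ≤ κ := by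
  rcases hκ with rfl | rfl <;> norm_num

theorem kap_pos {κ d : ℕ} (hκ : κ = 1 ∨ κ = 10) (i : ℕ) : 0 < kap κ d i := by
  have h1 := p_Sz_pos i
  have h2 := p_Sz_pos d
  have h3 := p_one_le hκ
  unfold kap
  split_ifs <;> positivity

theorem kap_le {κ d : ℕ} (hκ : κ = 1 ∨ κ = 10) {i : ℕ} (hi : i ≤ d) :
    kap κ d i ≤ 1 / (Sz i : ℝ) := by
  have h1 := p_Sz_pos i
  have h3 := p_one_le hκ
  unfold kap
  split_ifs with h
  · exact le_rfl
  · obtain rfl : i = d := by omega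
    exact one_div_le_one_div_of_le h1 (by nlinarith)

theorem kap_Fr_le {κ d : ℕ} (hκ : κ = 1 ∨ κ = 10) {i : ℕ} (hi : i ≤ d) {x : ℝ} (hx : |x| ≤ 6) :
    kap κ d i * |Fr i x| ≤ 2 * (i + 1) / 3 ^ i := by
  have h1 : kap κ d i ≤ 1 / 9 ^ i :=
    (kap_le hκ hi).trans (one_div_le_one_div_of_le (by positivity) (p_Sz_ge i))
  have e9 : (9 : ℝ) ^ i = 3 ^ i * 3 ^ i := by rw [← mul_pow]; norm_num
  calc kap κ d i * |Fr i x| ≤ 1 / 9 ^ i * (2 * (i + 1) * 3 ^ i) :=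
        mul_le_mul h1 (Fr_abs_le i hx) (abs_nonneg _) (by positivity)
    _ = _ := by rw [e9]; field_simp

lemma p_Frec (x : ℝ) : ∀ i : ℕ, Fr (i + 3) x = x * Fr (i + 2) x - 9 * Fr (i + 1) x
  | 0 => by
    rw [Fr_succ, Fr_succ, Fr_one, Hr_succ, Hr_succ, Hr_one, Hr_zero]; ring
  | i + 1 => by
    rw [Fr_succ, Fr_succ, Fr_succ, Hr_succ (i + 2), Hr_succ i]; ring

lemma p_Ftwo (x : ℝ) : Fr 2 x = x ^ 2 - 10 := by
  rw [Fr_succ, Hr_succ, Hr_one, Hr_zero]; ring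

lemma p_Sz_succ (i : ℕ) : (Sz (i + 2) : ℝ) = 9 * Sz (i + 1) := by
  simp only [Sz]; push_cast; ring

lemma p_tel (x y : ℝ) (m : ℕ) :
    (x - y) * ∑ i ∈ range (m + 2), 1 / (Sz i : ℝ) * Fr i x * Fr i y =
      1 / (Sz (m + 1) : ℝ) * (Fr (m + 2) x * Fr (m + 1) y - Fr (m + 1) x * Fr (m + 2) y) := by
  induction m with
  | zero =>
    simp only [sum_range_succ, sum_range_zero, Fr_zero, Fr_one, p_Ftwo, Sz, zero_add]
    push_cast; ring
  | succ m ih =>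
    have h := p_Sz_pos (m + 1)
    rw [sum_range_succ, mul_add, ih, p_Frec x m, p_Frec y m, p_Sz_succ]
    field_simp
    ring

lemma p_sumF' (x : ℝ) (n : ℕ) :
    (x - 10) * ∑ i ∈ range (n + 2), Fr i x = Fr (n + 2) x - 9 * Fr (n + 1) x := by
  induction n with
  | zero =>
    simp only [sum_range_succ, sum_range_zero, Fr_zero, Fr_one, p_Ftwo, zero_add]; ring
  | succ n ih => rw [sum_range_succ, mul_add, ih, p_Frec x n]; ring

lemma p_Kr_split (κ d : ℕ) (x y : ℝ) : Kr κ d x y =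
    ∑ i ∈ range d, 1 / (Sz i : ℝ) * Fr i x * Fr i y + kap κ d d * Fr d x * Fr d y := by
  unfold Kr
  rw [sum_range_succ]
  congr 1
  refine sum_congr rfl fun i hi => ?_
  rw [kap, if_pos (mem_range.1 hi)]

/-- Christoffel-Darboux identity -/
theorem Kr_cd {κ d : ℕ} (hκ : κ = 1 ∨ κ = 10) (hd : 2 ≤ d) (x y : ℝ) :
    (x - y) * Kr κ d x y =
      kap κ d d * (Fr d y * ((x - 10) * Pr κ d x) - Fr d x * ((y - 10) * Pr κ d y)) := by
  obtain ⟨n, rfl⟩ : ∃ n, d = n + 2 := ⟨d - 2, by omega⟩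
  have h := p_Sz_pos (n + 1)
  have h3 := p_one_le hκ
  have e : ∀ z : ℝ, (z - 10) * Pr κ (n + 2) z =
      (z - 10) * Fr (n + 2) z + κ * (Fr (n + 2) z - 9 * Fr (n + 1) z) := by
    intro z
    rw [p_Pr, ← p_sumF']; ring
  rw [p_Kr_split, mul_add, p_tel, e, e, kap, if_neg (lt_irrefl _), p_Sz_succ]
  field_simp
  ring

theorem Kr_symm (κ d : ℕ) (x y : ℝ) : Kr κ d x y = Kr κ d y x := by
  unfold Kr
  exact sum_congr rfl fun i _ => by ring

lemma p_conv (x y : ℝ) : ∀ i : ℕ, Hr (i + 1) x - Hr (i + 1) y =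
    (x - y) * ∑ p ∈ antidiagonal i, Hr p.1 x * Hr p.2 y
  | 0 => by simp [Hr_one, Hr_zero]
  | 1 => by
    rw [Nat.sum_antidiagonal_succ]
    rw [show (1 + 1 : ℕ) = 0 + 2 from rfl, Hr_succ, Hr_succ]
    simp [Hr_one, Hr_zero]
    ring
  | i + 2 => by
    have h1 := p_conv x y i
    have h2 := p_conv x y (i + 1)
    rw [Nat.sum_antidiagonal_succ] at h2
    rw [Nat.sum_antidiagonal_succ, Nat.sum_antidiagonal_succ]
    have e : ∑ p ∈ antidiagonal i, Hr (p.1 + 1 + 1) x * Hr p.2 y =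
        x * ∑ p ∈ antidiagonal i, Hr (p.1 + 1) x * Hr p.2 y -
          9 * ∑ p ∈ antidiagonal i, Hr p.1 x * Hr p.2 y := by
      rw [mul_sum, mul_sum, ← sum_sub_distrib]
      exact sum_congr rfl fun p _ => by rw [Hr_succ]; ring
    simp only [zero_add, Hr_zero, Hr_one] at h2 ⊢
    rw [e, Hr_succ (i + 1) x, Hr_succ (i + 1) y]
    linear_combination x * h2 - 9 * h1

lemma p_Hlip (i : ℕ) {x x' : ℝ} (hx : |x| ≤ 6) (hx' : |x'| ≤ 6) :
    |Hr i x - Hr i x'| ≤ (i + 1) ^ 3 * 3 ^ i * |x - x'| := by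
  cases i with
  | zero => simp [Hr_zero]
  | succ i =>
    rw [p_conv, abs_mul, mul_comm]
    refine mul_le_mul_of_nonneg_right ?_ (abs_nonneg _)
    have h1 : ∀ p ∈ antidiagonal i, |Hr p.1 x * Hr p.2 x'| ≤ ((i : ℝ) + 1) ^ 2 * 3 ^ i := by
      intro p hp
      have hp' := mem_antidiagonal.1 hp
      have a1 : (p.1 : ℝ) ≤ i := by exact_mod_cast (by omega : p.1 ≤ i)
      have a2 : (p.2 : ℝ) ≤ i := by exact_mod_cast (by omega : p.2 ≤ i)
      rw [abs_mul]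
      calc |Hr p.1 x| * |Hr p.2 x'| ≤ ((i + 1) * 3 ^ p.1) * ((i + 1) * 3 ^ p.2) :=
            mul_le_mul ((Hr_abs_le _ hx).trans (by gcongr)) ((Hr_abs_le _ hx').trans (by gcongr))
              (abs_nonneg _) (by positivity)
        _ = _ := by rw [← hp', pow_add]; ring
    have h2 := (abs_sum_le_sum_abs _ _).trans (sum_le_card_nsmul _ _ _ h1)
    rw [Nat.card_antidiagonal, nsmul_eq_mul] at h2
    refine h2.trans ?_
    push_cast
    calc ((i : ℝ) + 1) * (((i : ℝ) + 1) ^ 2 * 3 ^ i) = ((i : ℝ) + 1) ^ 3 * 3 ^ i := by ring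
      _ ≤ ((i : ℝ) + 1 + 1) ^ 3 * 3 ^ (i + 1) := by
        gcongr
        · linarith
        · norm_num
        · omega

theorem Fr_lip (i : ℕ) {x x' : ℝ} (hx : |x| ≤ 6) (hx' : |x'| ≤ 6) :
    |Fr i x - Fr i x'| ≤ 2 * (i + 1) ^ 3 * 3 ^ i * |x - x'| := by
  have h0 := abs_nonneg (x - x')
  match i with
  | 0 => simp [Fr_zero]
  | 1 => rw [Fr_one, Fr_one]; norm_num; linarith
  | i + 2 =>
    have h1 := p_Hlip (i + 2) hx hx'
    have h2 := p_Hlip i hx hx'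
    have h3 := abs_sub (Hr (i + 2) x - Hr (i + 2) x') (Hr i x - Hr i x')
    have h4 : ((i : ℝ) + 1) ^ 3 * 3 ^ i * |x - x'| ≤
        (((i + 2 : ℕ) : ℝ) + 1) ^ 3 * 3 ^ (i + 2) * |x - x'| := by
      push_cast
      gcongr
      · linarith
      · norm_num
      · omega
    rw [Fr_succ, Fr_succ, show Hr (i + 2) x - Hr i x - (Hr (i + 2) x' - Hr i x') =
      Hr (i + 2) x - Hr (i + 2) x' - (Hr i x - Hr i x') by ring]
    linarith

theorem Kr_lip {κ d : ℕ} (hκ : κ = 1 ∨ κ = 10) {x x' y : ℝ} (hx : |x| ≤ 6) (hx' : |x'| ≤ 6)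
    (hy : |y| ≤ 6) : |Kr κ d x y - Kr κ d x' y| ≤ 4 * (d + 1) ^ 5 * |x - x'| := by
  have h0 := abs_nonneg (x - x')
  unfold Kr
  rw [← sum_sub_distrib]
  have h1 : ∀ i ∈ range (d + 1), |kap κ d i * Fr i x * Fr i y - kap κ d i * Fr i x' * Fr i y| ≤
      4 * ((d : ℝ) + 1) ^ 4 * |x - x'| := by
    intro i hi
    have hi' : i ≤ d := Nat.lt_succ_iff.1 (mem_range.1 hi)
    have hi'' : (i : ℝ) ≤ d := by exact_mod_cast hi'
    rw [show kap κ d i * Fr i x * Fr i y - kap κ d i * Fr i x' * Fr i y =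
      kap κ d i * Fr i y * (Fr i x - Fr i x') by ring, abs_mul, abs_mul,
      abs_of_pos (kap_pos hκ i)]
    calc kap κ d i * |Fr i y| * |Fr i x - Fr i x'|
        ≤ 2 * (i + 1) / 3 ^ i * (2 * (i + 1) ^ 3 * 3 ^ i * |x - x'|) :=
          mul_le_mul (kap_Fr_le hκ hi' hy) (Fr_lip i hx hx') (abs_nonneg _) (by positivity)
      _ = 4 * ((i : ℝ) + 1) ^ 4 * |x - x'| := by field_simp; ring
      _ ≤ _ := by gcongr
  have h2 := (abs_sum_le_sum_abs _ _).trans (sum_le_card_nsmul _ _ _ h1)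
  rw [card_range, nsmul_eq_mul] at h2
  refine h2.trans (le_of_eq ?_)
  push_cast
  ring

theorem one_le_Kr {κ d : ℕ} (hκ : κ = 1 ∨ κ = 10) (hd : 1 ≤ d) (x : ℝ) : 1 ≤ Kr κ d x x := by
  have h := single_le_sum (f := fun i => kap κ d i * Fr i x * Fr i x) (s := range (d + 1))
    (fun i _ => by
      rw [mul_assoc]; exact mul_nonneg (kap_pos hκ i).le (mul_self_nonneg _))
    (mem_range.2 (Nat.succ_pos d))
  have e : kap κ d 0 * Fr 0 x * Fr 0 x = 1 := by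
    rw [kap, if_pos (by omega), Fr_zero]; simp [Sz]
  rw [e] at h
  exact h

/-- normalised values -/
noncomputable def p_z (x : ℝ) : ℕ → ℝ
  | 0 => 10 / 9
  | i + 1 => Fr (i + 1) x / 3 ^ (i + 1)

lemma p_zrec (x : ℝ) : ∀ i : ℕ, p_z x (i + 2) = x / 3 * p_z x (i + 1) - p_z x i
  | 0 => by
    have h : Fr (1 + 1) x = x ^ 2 - 10 := p_Ftwo x
    simp only [p_z, zero_add, h, Fr_one]; ring
  | i + 1 => by
    simp only [p_z]
    rw [p_Frec x i]
    field_simp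
    ring

lemma p_zinv (x : ℝ) (i : ℕ) :
    p_z x i ^ 2 + p_z x (i + 1) ^ 2 - x / 3 * p_z x i * p_z x (i + 1) = (100 - x ^ 2) / 81 := by
  induction i with
  | zero => simp only [p_z, zero_add, Fr_one]; ring
  | succ i ih => rw [p_zrec, ← ih]; ring

lemma p_zsum (x : ℝ) (m : ℕ) : (4 - x ^ 2 / 9) * ∑ i ∈ range m, p_z x (i + 1) ^ 2 =
    2 * m * ((100 - x ^ 2) / 81) + p_z x m ^ 2 - p_z x (m + 1) ^ 2 - p_z x 0 ^ 2 + p_z x 1 ^ 2 := by
  induction m with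
  | zero => simp
  | succ m ih =>
    have h := p_zinv x m
    rw [sum_range_succ, mul_add, ih, p_zrec]
    push_cast
    linear_combination 2 * h

lemma p_zterm (x : ℝ) (i : ℕ) :
    1 / (Sz (i + 1) : ℝ) * Fr (i + 1) x * Fr (i + 1) x = 9 / 10 * p_z x (i + 1) ^ 2 := by
  have e9 : (9 : ℝ) ^ i = 3 ^ i * 3 ^ i := by rw [← mul_pow]; norm_num
  simp only [p_z, Sz]
  push_cast
  rw [e9]
  field_simp
  ring

lemma p_Kr_z {κ : ℕ} (hκ : κ = 1 ∨ κ = 10) (n : ℕ) (x : ℝ) : Kr κ (n + 1) x x =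
    1 + 9 / 10 * ∑ i ∈ range n, p_z x (i + 1) ^ 2 + 9 / 10 * (p_z x (n + 1) ^ 2 / κ) := by
  have h3 := p_one_le hκ
  have h := p_zterm x n
  have h1 := p_Sz_pos (n + 1)
  rw [p_Kr_split, sum_range_succ', kap, if_neg (lt_irrefl _), mul_sum]
  simp only [p_zterm, Fr_zero]
  have e : 1 / ((κ : ℝ) * Sz (n + 1)) * Fr (n + 1) x * Fr (n + 1) x =
      (1 / (Sz (n + 1) : ℝ) * Fr (n + 1) x * Fr (n + 1) x) / κ := by field_simp
  rw [e, h]
  simp only [Sz]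
  push_cast
  ring

lemma p_zlow {x : ℝ} (hx : |x| ≤ 6) (n : ℕ) :
    n * (32 / 81) + p_z x (n + 1) ^ 2 ≤ 2 * ∑ i ∈ range (n + 1), p_z x (i + 1) ^ 2 := by
  induction n with
  | zero => simp; nlinarith [sq_nonneg (p_z x 1)]
  | succ n ih =>
    have h := p_zinv x (n + 1)
    obtain ⟨h1, h2⟩ := abs_le.1 hx
    rw [sum_range_succ]
    push_cast
    nlinarith [mul_nonneg (by linarith : 0 ≤ 6 - x) (sq_nonneg (p_z x (n + 1) - p_z x (n + 1 + 1))),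
      mul_nonneg (by linarith : 0 ≤ 6 + x) (sq_nonneg (p_z x (n + 1) + p_z x (n + 1 + 1))),
      mul_nonneg (by linarith : 0 ≤ 6 - x) (by linarith : 0 ≤ 6 + x)]

theorem Kr_ge {κ d : ℕ} (hκ : κ = 1 ∨ κ = 10) (hd : 5 ≤ d) {x : ℝ} (hx : |x| ≤ 6) :
    (d : ℝ) / 10 ≤ Kr κ d x x := by
  obtain ⟨n, rfl⟩ : ∃ n, d = n + 2 := ⟨d - 2, by omega⟩
  have h3 := p_one_le hκ
  have h := p_zlow hx n
  have h1 : 0 ≤ p_z x (n + 1 + 1) ^ 2 / κ := by positivity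
  have h2 : (0 : ℝ) ≤ n := by positivity
  rw [p_Kr_z hκ]
  push_cast
  nlinarith [sq_nonneg (p_z x (n + 1))]

lemma p_sq {x : ℝ} (hx : |x| ≤ 6) : x ^ 2 ≤ 36 := by nlinarith [abs_nonneg x, sq_abs x]

lemma p_zsum2 {x : ℝ} (hx : x ^ 2 ≤ 36) (n : ℕ) :
    (100 - x ^ 2) / 81 * (n * (n - 1)) - p_z x n ^ 2 - n * p_z x 0 ^ 2 ≤
      n * ((4 - x ^ 2 / 9) * ∑ i ∈ range n, p_z x (i + 1) ^ 2) := by
  induction n with
  | zero => simp; positivity
  | succ n ih =>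
    have h := p_zsum x n
    have hu : 0 ≤ 4 - x ^ 2 / 9 := by linarith
    have h1 : 0 ≤ ((n : ℝ) + 1) * ((4 - x ^ 2 / 9) * p_z x (n + 1) ^ 2) := by positivity
    rw [sum_range_succ, mul_add]
    push_cast
    nlinarith [sq_nonneg (p_z x 1)]

lemma p_uz {x : ℝ} (i : ℕ) : (4 - x ^ 2 / 9) * p_z x i ^ 2 ≤ 4 * ((100 - x ^ 2) / 81) := by
  rw [← p_zinv x i]
  nlinarith [sq_nonneg (2 * p_z x (i + 1) - x / 3 * p_z x i)]

theorem Kr_asymp (D ε : ℝ) (hε : 0 < ε) : ∃ d₀ : ℕ, ∀ d : ℕ, d₀ ≤ d → ∀ κ : ℕ, κ = 1 ∨ κ = 10 →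
    ∀ x : ℝ, |x| ≤ 6 → Kr κ d x x ≤ D * d → |phi x - d / Kr κ d x x| ≤ ε := by
  obtain ⟨N, hN⟩ := exists_nat_ge (14 * |D| + 11 + 10 * (13 + 72 * |D|) / ε)
  refine ⟨N + 5, fun d hd κ hκ x hx hK => ?_⟩
  have hKge := Kr_ge hκ (by omega : 5 ≤ d) hx
  obtain ⟨n, rfl⟩ : ∃ n, d = n + 2 := ⟨d - 2, by omega⟩
  have hD0 := abs_nonneg D
  have hn : (N : ℝ) ≤ n := by exact_mod_cast (by omega : N ≤ n)
  have hq : 0 ≤ 10 * (13 + 72 * |D|) / ε := by positivity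
  have hn1 : 14 * |D| + 11 ≤ n := by linarith
  have hn2 : 10 * (13 + 72 * |D|) ≤ ε * (n + 2) := by
    have : 10 * (13 + 72 * |D|) / ε ≤ n + 2 := by linarith
    rw [div_le_iff₀ hε] at this
    linarith
  have hx2 : x ^ 2 ≤ 36 := p_sq hx
  have h3 := p_one_le hκ
  have hKz := p_Kr_z hκ (n + 1) x
  have hs := p_zsum x (n + 1)
  have hs2 := p_zsum2 hx2 (n + 1)
  have hz0 : p_z x 0 ^ 2 = 100 / 81 := by simp only [p_z]; norm_num
  have hlast : p_z x (n + 1) ^ 2 ≤ ∑ i ∈ range (n + 1), p_z x (i + 1) ^ 2 :=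
    single_le_sum (f := fun i => p_z x (i + 1) ^ 2) (fun i _ => sq_nonneg _)
      (mem_range.2 (Nat.lt_succ_self n))
  have huz := fun i => p_uz (x := x) i
  have hphi : phi x = (4 - x ^ 2 / 9) / (9 / 5 * ((100 - x ^ 2) / 81)) := by
    have : 100 - x ^ 2 ≠ 0 := by linarith
    unfold phi
    field_simp
    ring
  have hw0 : 0 ≤ p_z x (n + 1 + 1) ^ 2 / κ := by positivity
  have hw1 : p_z x (n + 1 + 1) ^ 2 / κ ≤ p_z x (n + 1 + 1) ^ 2 :=
    div_le_self (sq_nonneg _) h3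
  rw [hphi]
  push_cast at hK hKge hs hs2 ⊢
  have hI1 : 64 / 81 ≤ (100 - x ^ 2) / 81 := by linarith
  have hI2 : (100 - x ^ 2) / 81 ≤ 100 / 81 := by linarith [sq_nonneg x]
  have hu0 : 0 ≤ 4 - x ^ 2 / 9 := by linarith
  have hu4 : 4 - x ^ 2 / 9 ≤ 4 := by linarith [sq_nonneg x]
  generalize (100 - x ^ 2) / 81 = I at *
  generalize 4 - x ^ 2 / 9 = u at *
  generalize p_z x (n + 1 + 1) ^ 2 / κ = w at *
  generalize Kr κ (n + 2) x x = K at *
  have hS0 : 0 ≤ ∑ i ∈ range (n + 1), p_z x (i + 1) ^ 2 := (sq_nonneg _).trans hlast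
  generalize ∑ i ∈ range (n + 1), p_z x (i + 1) ^ 2 = S at *
  have hn0 : (0 : ℝ) ≤ n := by positivity
  have hKD : K ≤ |D| * (n + 2) := hK.trans (mul_le_mul_of_nonneg_right (le_abs_self D) (by linarith))
  have hS : S ≤ 4 * |D| * (n + 1) := by linarith [mul_nonneg hD0 hn0]
  -- lower bound for `u`
  have hu : 1 ≤ 8 * |D| * u := by
    have a1 : (n + 1) * (u * S) ≤ (n + 1) * (u * (4 * |D| * (n + 1))) := by gcongr
    have a2 : (n + 1) * (I * n - 4 * |D| - 100 / 81) ≤ (n + 1) * (u * (4 * |D| * (n + 1))) := by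
      rw [hz0] at hs2
      linarith [mul_nonneg hD0 hn0]
    have a3 : I * n - 4 * |D| - 100 / 81 ≤ u * (4 * |D| * (n + 1)) :=
      le_of_mul_le_mul_left a2 (by linarith)
    have a4 : 64 / 81 * n ≤ I * n := mul_le_mul_of_nonneg_right hI1 hn0
    have a5 : (n + 1) * 1 ≤ (n + 1) * (8 * |D| * u) := by linarith
    exact le_of_mul_le_mul_left a5 (by linarith)
  have hz : ∀ i, p_z x i ^ 2 ≤ 40 * |D| := by
    intro i
    have b1 := huz i
    have b2 := sq_nonneg (p_z x i)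
    linarith [mul_le_mul_of_nonneg_right hu b2, mul_le_mul_of_nonneg_left b1 hD0,
      mul_le_mul_of_nonneg_left hI2 hD0]
  have huw : u * w ≤ 5 := by
    have := huz (n + 1 + 1)
    linarith [mul_le_mul_of_nonneg_left hw1 hu0]
  have huw0 : 0 ≤ u * w := mul_nonneg hu0 hw0
  have hE : |u * K - 9 / 5 * I * (n + 2)| ≤ 13 + 72 * |D| := by
    have e : u * K - 9 / 5 * I * (n + 2) = u + 9 / 10 * (p_z x (n + 1) ^ 2 -
        p_z x (n + 1 + 1) ^ 2 - p_z x 0 ^ 2 + p_z x 1 ^ 2) + 9 / 10 * (u * w) - 9 / 5 * I := by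
      rw [hKz]; linear_combination 9 / 10 * hs
    rw [e, hz0, abs_le]
    have := hz (n + 1)
    have := hz (n + 1 + 1)
    have := hz 1
    have := sq_nonneg (p_z x (n + 1))
    have := sq_nonneg (p_z x (n + 1 + 1))
    have := sq_nonneg (p_z x 1)
    constructor <;> linarith
  have hKpos : 0 < K := by linarith
  have hIpos : 0 < I := by linarith
  have e : u / (9 / 5 * I) - (n + 2) / K = (u * K - 9 / 5 * I * (n + 2)) / (9 / 5 * I * K) := by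
    field_simp
  rw [e, abs_div, abs_of_pos (by positivity : 0 < 9 / 5 * I * K), div_le_iff₀ (by positivity)]
  have c1 : K ≤ 9 / 5 * I * K := by linarith [mul_le_mul_of_nonneg_right hI1 hKpos.le]
  have c2 : ε * ((n + 2) / 10) ≤ ε * (9 / 5 * I * K) := by gcongr; linarith
  linarith

theorem Kr_sq_le {κ d : ℕ} (hκ : κ = 1 ∨ κ = 10) (x y : ℝ) :
    Kr κ d x y ^ 2 ≤ Kr κ d x x * Kr κ d y y := by
  unfold Kr
  refine sum_sq_le_sum_mul_sum_of_sq_le_mul _ (fun i _ => ?_) (fun i _ => ?_)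
    (fun i _ => le_of_eq (by ring))
  · rw [mul_assoc]; exact mul_nonneg (kap_pos hκ i).le (mul_self_nonneg _)
  · rw [mul_assoc]; exact mul_nonneg (kap_pos hκ i).le (mul_self_nonneg _)

lemma p_gram {ι : Type} (s : Finset ι) (t : Finset ℕ) (u : ι → ℕ → ℝ)
    (hu : ∀ i ∈ s, ∑ a ∈ t, u i a * u i a = 1) :
    (s.card : ℝ) ^ 2 ≤ t.card * ∑ i ∈ s, ∑ j ∈ s, (∑ a ∈ t, u i a * u j a) ^ 2 := by
  have e1 : (s.card : ℝ) = ∑ a ∈ t, ∑ i ∈ s, u i a * u i a := by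
    rw [sum_comm, sum_congr rfl hu]; simp
  have e2 : ∑ i ∈ s, ∑ j ∈ s, (∑ a ∈ t, u i a * u j a) ^ 2 =
      ∑ a ∈ t, ∑ b ∈ t, (∑ i ∈ s, u i a * u i b) ^ 2 := by
    simp only [sq, sum_mul_sum]
    calc ∑ i ∈ s, ∑ j ∈ s, ∑ a ∈ t, ∑ b ∈ t, u i a * u j a * (u i b * u j b)
        = ∑ i ∈ s, ∑ a ∈ t, ∑ b ∈ t, ∑ j ∈ s, u i a * u j a * (u i b * u j b) := by
          refine sum_congr rfl fun i _ => ?_
          rw [sum_comm]
          exact sum_congr rfl fun a _ => sum_comm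
      _ = ∑ a ∈ t, ∑ b ∈ t, ∑ i ∈ s, ∑ j ∈ s, u i a * u j a * (u i b * u j b) := by
          rw [sum_comm]
          exact sum_congr rfl fun a _ => sum_comm
      _ = _ := by
          refine sum_congr rfl fun a _ => sum_congr rfl fun b _ => sum_congr rfl fun i _ =>
            sum_congr rfl fun j _ => by ring
  rw [e1, e2]
  refine sq_sum_le_card_mul_sum_sq.trans (mul_le_mul_of_nonneg_left ?_ (by positivity))
  exact sum_le_sum fun a ha =>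
    single_le_sum (f := fun b => (∑ i ∈ s, u i a * u i b) ^ 2) (fun b _ => sq_nonneg _) ha

theorem Kr_gram {κ d : ℕ} (hκ : κ = 1 ∨ κ = 10) (hd : 1 ≤ d) {ι : Type} (s : Finset ι)
    (x : ι → ℝ) : (s.card : ℝ) ^ 2 ≤ (d + 1) * ∑ i ∈ s, ∑ j ∈ s,
      Kr κ d (x i) (x j) ^ 2 / (Kr κ d (x i) (x i) * Kr κ d (x j) (x j)) := by
  have hK : ∀ y, 0 < Kr κ d y y := fun y => lt_of_lt_of_le one_pos (one_le_Kr hκ hd y)
  have e : ∀ y z : ℝ, ∑ a ∈ range (d + 1), √(kap κ d a) * Fr a y / √(Kr κ d y y) *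
      (√(kap κ d a) * Fr a z / √(Kr κ d z z)) = Kr κ d y z / (√(Kr κ d y y) * √(Kr κ d z z)) := by
    intro y z
    conv_rhs => rw [Kr, sum_div]
    refine sum_congr rfl fun a _ => ?_
    rw [div_mul_div_comm]
    congr 1
    have := Real.mul_self_sqrt (kap_pos (d := d) hκ a).le
    linear_combination Fr a y * Fr a z * this
  have h := p_gram s (range (d + 1))
    (fun i a => √(kap κ d a) * Fr a (x i) / √(Kr κ d (x i) (x i))) (fun i _ => by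
      rw [e, Real.mul_self_sqrt (hK _).le, div_self (hK _).ne'])
  simp only [e, div_pow, mul_pow, Real.sq_sqrt (hK _).le, card_range] at h
  push_cast at h
  exact h

theorem phi_sep {x y : ℝ} (hx : |x| ≤ 6) (hy : |y| ≤ 6) :
    |x ^ 2 - y ^ 2| ≤ 32 * |phi x - phi y| := by
  have hx2 : x ^ 2 ≤ 36 := by nlinarith [abs_nonneg x, sq_abs x]
  have hy2 : y ^ 2 ≤ 36 := by nlinarith [abs_nonneg y, sq_abs y]
  have a1 : 0 < 100 - x ^ 2 := by linarith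
  have a2 : 0 < 100 - y ^ 2 := by linarith
  have e : x ^ 2 - y ^ 2 = (100 - x ^ 2) * (100 - y ^ 2) / 320 * (phi y - phi x) := by
    unfold phi
    field_simp
    ring
  rw [e, abs_mul, abs_sub_comm (phi y), abs_of_pos (by positivity)]
  refine mul_le_mul_of_nonneg_right ?_ (abs_nonneg _)
  nlinarith [sq_nonneg x, sq_nonneg y]

end Pool.Agent.H170Z.Cage

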