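import Mathlib
import Pool.Agent.H170Z.Cage.Defs
import Pool.Agent.H170Z.Cage.Poly

set_option autoImplicit false

namespace Pool.Agent.H170Z.Cage

open Polynomial Finset Matrix

variable {V : Type} [Fintype V] [DecidableEq V] {c d : ℕ}

namespace Inst

variable (I : Inst V c d)

lemma ρ_self (x : V) : I.ρ x x = 0 := (I.ρ_zero x x).2 rfl

lemma adj_pm {x y y' : V} (h : I.ρ x y < d) (ha : I.G.Adj y y') :
    I.ρ x y' = I.ρ x y + 1 ∨ I.ρ x y' + 1 = I.ρ x y := by
  have h1 := I.ρ_adj x y y' ha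
  have h2 := I.ρ_adj x y' y ha.symm
  have h3 := I.no_side x y y' h ha
  omega

lemma tri (x y : V) : ∀ (i : ℕ) (z : V), I.ρ y z = i → i ≤ d → I.ρ x z ≤ I.ρ x y + i := by
  intro i
  induction i with
  | zero =>
    intro z h _
    rw [(I.ρ_zero y z).1 h]
    omega
  | succ i ih =>
    intro z h hi
    obtain ⟨z', ha, hz⟩ := I.par_ex y z i h hi
    have := ih z' hz (by omega)
    have := I.ρ_adj x z' z ha.symm
    omega

lemma tri' (x y z : V) (h : I.ρ y z ≤ d) : I.ρ x z ≤ I.ρ x y + I.ρ y z := I.tri x y _ z rfl h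

lemma ρ_of_adj {x y : V} (h : I.G.Adj x y) : I.ρ x y = 1 := by
  have h1 := I.ρ_adj x x y h
  rw [I.ρ_self] at h1
  have h2 : I.ρ x y ≠ 0 := fun e => h.ne ((I.ρ_zero x y).1 e)
  omega

lemma adj_of_ρ {x y : V} (hd : 1 ≤ d) (h : I.ρ x y = 1) : I.G.Adj x y := by
  obtain ⟨y', ha, hy⟩ := I.par_ex x y 0 h hd
  rw [← (I.ρ_zero x y').1 hy] at ha
  exact ha.symm

lemma avoid (y a b : V) : ∃ y', I.G.Adj y y' ∧ y' ≠ a ∧ y' ≠ b := by
  by_contra hc
  push Not at hc
  have hsub : (univ.filter fun y' => I.G.Adj y y') ⊆ {a, b} := by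
    intro y' hy
    simp only [mem_filter, mem_univ, true_and] at hy
    by_cases h : y' = a
    · simp [h]
    · simp [hc y' hy h]
  have h1 := Finset.card_le_card hsub
  rw [I.reg] at h1
  have h2 : ({a, b} : Finset V).card ≤ 2 := Finset.card_le_two
  omega

lemma par {x y : V} (h : I.ρ x y < d) :
    ∃ p, ∀ y', I.G.Adj y y' → y' ≠ p → I.ρ x y' = I.ρ x y + 1 := by
  rcases Nat.eq_zero_or_pos (I.ρ x y) with h0 | h0
  · refine ⟨y, fun y' ha _ => ?_⟩
    have := I.adj_pm h ha
    omega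
  · obtain ⟨i, hi⟩ : ∃ i, I.ρ x y = i + 1 := ⟨I.ρ x y - 1, by omega⟩
    obtain ⟨p, hp, hp2⟩ := I.par_ex x y i hi (by omega)
    refine ⟨p, fun y' ha hne => ?_⟩
    rcases I.adj_pm h ha with h1 | h1
    · exact h1
    · exact absurd (I.par_uniq x y i y' p hi (by omega) ha hp (by omega) hp2) hne

lemma child_of_ne {x y p y' : V} {i : ℕ} (h : I.ρ x y = i + 1) (hi : i + 1 < d)
    (hp : I.G.Adj y p) (hp2 : I.ρ x p = i) (ha : I.G.Adj y y') (hne : y' ≠ p) :
    I.ρ x y' = i + 2 := by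
  rcases I.adj_pm (x := x) (by omega) ha with h1 | h1
  · omega
  · exact absurd (I.par_uniq x y i y' p h hi ha hp (by omega) hp2) hne

lemma parity (o z : V) : ∀ (s : ℕ) (o' : V), I.ρ o o' = s → s + I.ρ o z < d →
    (I.ρ o z + s + I.ρ o' z) % 2 = 0 := by
  intro s
  induction s with
  | zero =>
    intro o' h _
    rw [← (I.ρ_zero o o').1 h]
    omega
  | succ s ih =>
    intro o' h hs
    obtain ⟨p, ha, hp⟩ := I.par_ex o o' s h (by omega)
    have h1 := ih p hp (by omega)
    have h2 := I.tri' z o p (by omega)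
    rw [I.ρ_symm z o] at h2
    have h3 := I.adj_pm (x := z) (y := p) (y' := o') (by omega) ha.symm
    rw [I.ρ_symm z o', I.ρ_symm z p] at h3
    omega

lemma ext_sphere {o o' : V} (ha : I.G.Adj o o') : ∀ a : ℕ, a + 1 < d →
    ∃ z, I.ρ o' z = a ∧ I.ρ o z = a + 1 := by
  intro a
  induction a with
  | zero => exact fun _ => ⟨o', I.ρ_self _, I.ρ_of_adj ha⟩
  | succ a ih =>
    intro h
    obtain ⟨z, h1, h2⟩ := ih (by omega)
    obtain ⟨p, hp⟩ := I.par (x := o') (y := z) (by omega)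
    obtain ⟨q, hq⟩ := I.par (x := o) (y := z) (by omega)
    obtain ⟨z', a1, a2, a3⟩ := I.avoid z p q
    exact ⟨z', by rw [hp z' a1 a2, h1], by rw [hq z' a1 a3, h2]⟩

lemma A_apply (x y : V) : I.A x y = if I.G.Adj x y then 1 else 0 := by
  simp [Inst.A, SimpleGraph.adjMatrix_apply]

lemma A_mul_apply (M : Matrix V V ℤ) (x z : V) :
    (I.A * M) x z = ∑ x' ∈ univ.filter (fun x' => I.G.Adj x x'), M x' z := by
  rw [Matrix.mul_apply, Finset.sum_filter]
  apply Finset.sum_congr rfl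
  intro x' _
  rw [A_apply]
  split_ifs <;> simp

lemma mul_A_apply (M : Matrix V V ℤ) (x z : V) :
    (M * I.A) x z = ∑ z' ∈ univ.filter (fun z' => I.G.Adj z z'), M x z' := by
  rw [Matrix.mul_apply, Finset.sum_filter]
  apply Finset.sum_congr rfl
  intro z' _
  rw [A_apply]
  by_cases h : I.G.Adj z z'
  · simp [h, h.symm]
  · have h' : ¬ I.G.Adj z' z := fun e => h e.symm
    simp [h, h']

lemma wave (x z : V) : ∑ x' ∈ univ.filter (fun x' => I.G.Adj x x'), I.E x' z =
    ∑ z' ∈ univ.filter (fun z' => I.G.Adj z z'), I.E x z' := by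
  rw [← A_mul_apply, ← mul_A_apply]
  exact congrFun (congrFun I.E_comm x) z

lemma comm_aeval (p : ℤ[X]) : aeval I.A p * I.E = I.E * aeval I.A p := by
  have h : Commute I.A I.E := I.E_comm
  induction p using Polynomial.induction_on' with
  | add p q hp hq => rw [map_add, add_mul, mul_add, hp, hq]
  | monomial n a =>
    rw [aeval_monomial, mul_assoc, (h.pow_left n).eq, ← mul_assoc, Algebra.commutes, mul_assoc]

lemma N_apply {i : ℕ} (hi : i < d) (x y : V) : I.N i x y = if I.ρ x y = i then 1 else 0 :=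
  I.N_eq i hi x y

lemma EN_apply {i : ℕ} (hi : i < d) (x o : V) :
    (I.E * I.N i) x o = ∑ z ∈ univ.filter (fun z => I.ρ o z = i), I.E x z := by
  rw [Matrix.mul_apply, Finset.sum_filter]
  apply Finset.sum_congr rfl
  intro z _
  rw [N_apply I hi, I.ρ_symm z o]
  split_ifs <;> simp

lemma EN_symm {i : ℕ} (hi : i < d) (x o : V) : (I.E * I.N i) x o = (I.E * I.N i) o x := by
  rw [EN_apply I hi o x]
  have : I.E * I.N i = I.N i * I.E := (I.comm_aeval _).symm
  rw [this, Matrix.mul_apply, Finset.sum_filter]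
  apply Finset.sum_congr rfl
  intro z _
  rw [N_apply I hi, I.E_symm z o]
  split_ifs <;> simp

lemma A_mulVec_one : I.A *ᵥ (fun _ => (1 : ℤ)) = fun _ => 10 := by
  funext x
  simp only [Matrix.mulVec, dotProduct, mul_one, A_apply]
  rw [← Finset.sum_filter]
  simp [I.reg x]

lemma aeval_mulVec_one (p : ℤ[X]) :
    aeval I.A p *ᵥ (fun _ => (1 : ℤ)) = fun _ => p.eval 10 := by
  have hp : ∀ n : ℕ, I.A ^ n *ᵥ (fun _ => (1 : ℤ)) = fun _ => 10 ^ n := by
    intro n
    induction n with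
    | zero => simp
    | succ n ih =>
      rw [pow_succ, ← Matrix.mulVec_mulVec, A_mulVec_one]
      have : (fun _ : V => (10 : ℤ)) = (10 : ℤ) • (fun _ => (1 : ℤ)) := by
        funext x
        simp
      rw [this, Matrix.mulVec_smul, ih]
      funext x
      simp [pow_succ, mul_comm]
  induction p using Polynomial.induction_on' with
  | add p q hp hq =>
    rw [map_add, Matrix.add_mulVec, hp, hq]
    funext x
    simp
  | monomial n a =>
    rw [aeval_monomial, Algebra.algebraMap_eq_smul_one, smul_mul_assoc, one_mul,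
      Matrix.smul_mulVec, hp]
    funext x
    simp

lemma eval_Fp_ten (i : ℕ) : (Fp i).eval 10 = (Sz i : ℤ) := by
  have h := Fr_ten i
  unfold Fr at h
  have h2 : (aeval (10 : ℝ) (Fp i)) = (((Fp i).eval 10 : ℤ) : ℝ) := by
    have := Polynomial.aeval_algebraMap_apply ℝ (10 : ℤ) (Fp i)
    simpa using this
  rw [h2] at h
  exact_mod_cast h

lemma N_row (i : ℕ) (x : V) : ∑ y, I.N i x y = (Sz i : ℤ) := by
  have := congrFun (I.aeval_mulVec_one (Fp i)) x
  simp only [Matrix.mulVec, dotProduct, mul_one] at this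
  rw [← eval_Fp_ten]
  exact this

lemma sphere_card {i : ℕ} (hi : i < d) (x : V) :
    (univ.filter fun y => I.ρ x y = i).card = Sz i := by
  have h := I.N_row i x
  simp only [N_apply I hi] at h
  rw [← Finset.sum_filter] at h
  simp only [sum_const, nsmul_eq_mul, mul_one] at h
  exact_mod_cast h

lemma supp_card (x : V) : (univ.filter fun y => 0 < I.E x y).card ≤ c := by
  have h1 : ((univ.filter fun y => 0 < I.E x y).card : ℤ) ≤
      ∑ y ∈ univ.filter (fun y => 0 < I.E x y), I.E x y := by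
    rw [Finset.card_eq_sum_ones, Nat.cast_sum]
    apply Finset.sum_le_sum
    intro y hy
    simp only [mem_filter, mem_univ, true_and] at hy
    push_cast
    omega
  have h2 : ∑ y ∈ univ.filter (fun y => 0 < I.E x y), I.E x y ≤ ∑ y, I.E x y :=
    Finset.sum_le_sum_of_subset_of_nonneg (Finset.filter_subset _ _) fun y _ _ => I.E_nonneg x y
  have h3 := I.E_row x
  exact_mod_cast h1.trans (h2.trans h3)

end Inst

lemma Sz_pos (i : ℕ) : 0 < Sz i := by
  cases i <;> simp [Sz]

lemma Sz_le (i : ℕ) : Sz i ≤ 10 ^ i := by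
  cases i with
  | zero => simp [Sz]
  | succ i =>
    simp only [Sz, pow_succ]
    have : 9 ^ i ≤ 10 ^ i := Nat.pow_le_pow_left (by norm_num) i
    omega

end Pool.Agent.H170Z.Cage
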