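import Mathlib
import Pool.Agent.H170Z.Cage.Tree

set_option autoImplicit false

namespace Pool.Agent.H170Z.Cage

open Polynomial Finset Matrix

variable {V : Type} [Fintype V] [DecidableEq V] {c d : ℕ}

namespace Inst

variable (I : Inst V c d) (m : ℕ)

def Step (x y : V) : Prop := I.G.Adj x y ∨ 0 < I.E x y

def Cl (x : V) : Prop := I.Clustered m (10 * m + 10) x

def Gd : ℕ → V → Prop
  | 0, x => I.Cl m x
  | r + 1, x => Gd r x ∧ ∀ y, I.Step x y → Gd r y

def Has (x o : V) (i : ℕ) : Prop := ∃ z, 0 < I.E x z ∧ I.ρ o z = i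

def Top (x o : V) (h : ℕ) : Prop :=
  h ≤ 4 * m + 4 ∧ I.Has x o h ∧ ∀ i, i ≤ 4 * m + 4 → i % 2 = h % 2 → I.Has x o i → i ≤ h

def Cen (x o : V) (h : ℕ) : Prop := I.Top m x o h ∧ ∀ o', I.G.Adj o o' → I.Top m x o' (h + 1)

def Mut (x o : V) (h : ℕ) : Prop := h < m ∧ I.Cen m x o h ∧ I.Cen m o x h

variable {I m}

lemma Gd.mono {r r' : ℕ} {x : V} (h : I.Gd m r x) (hr : r' ≤ r) : I.Gd m r' x := by
  induction r with
  | zero =>
    obtain rfl : r' = 0 := by omega
    exact h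
  | succ r ih =>
    rcases Nat.eq_or_lt_of_le hr with rfl | h1
    · exact h
    · exact ih h.1 (by omega)

lemma Gd.cl {r : ℕ} {x : V} (h : I.Gd m r x) : I.Cl m x := h.mono (Nat.zero_le _)

lemma Gd.adj {r r' : ℕ} {x y : V} (h : I.Gd m r x) (ha : I.G.Adj x y) (hr : r' + 1 ≤ r) :
    I.Gd m r' y := (h.mono hr).2 y (Or.inl ha)

lemma Gd.stepE {r r' : ℕ} {x y : V} (h : I.Gd m r x) (ha : 0 < I.E x y) (hr : r' + 1 ≤ r) :
    I.Gd m r' y := (h.mono hr).2 y (Or.inr ha)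

lemma Gd.dist {r' : ℕ} {x : V} : ∀ (s : ℕ) (y : V) {r : ℕ}, I.Gd m r x → I.ρ x y = s → s ≤ d →
    r' + s ≤ r → I.Gd m r' y := by
  intro s
  induction s generalizing r' with
  | zero =>
    intro y r h hy _ hr
    rw [← (I.ρ_zero x y).1 hy]
    exact h.mono (by omega)
  | succ s ih =>
    intro y r h hy hs hr
    obtain ⟨p, ha, hp⟩ := I.par_ex x y s hy hs
    exact (ih (r' := r' + 1) p h hp (by omega) (by omega)).adj ha.symm le_rfl

lemma Has.symm {x o : V} {i : ℕ} (hi : i < d) (h : I.Has x o i) : I.Has o x i := by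
  obtain ⟨z, h1, h2⟩ := h
  have h3 : 0 < (I.E * I.N i) x o := by
    rw [I.EN_apply hi]
    exact Finset.sum_pos' (fun y _ => I.E_nonneg x y) ⟨z, by simp [h2], h1⟩
  rw [I.EN_symm hi, I.EN_apply hi] at h3
  by_contra hc
  have : ∑ z ∈ univ.filter (fun z => I.ρ x z = i), I.E o z ≤ 0 := by
    apply Finset.sum_nonpos
    intro y hy
    simp only [mem_filter, mem_univ, true_and] at hy
    by_contra h4
    exact hc ⟨y, by omega, hy⟩
  omega

lemma Top.uniq {x o : V} {h h' : ℕ} (a : I.Top m x o h) (b : I.Top m x o h') (e : h % 2 = h' % 2) :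
    h = h' := by
  have := a.2.2 h' b.1 e.symm b.2.1
  have := b.2.2 h a.1 e a.2.1
  omega

section
variable (hd : 10 * m + 12 ≤ d)
include hd

lemma Top.symm {x o : V} {h : ℕ} (a : I.Top m x o h) : I.Top m o x h :=
  ⟨a.1, a.2.1.symm (by have := a.1; omega), fun i hi e b => a.2.2 i hi e (b.symm (by omega))⟩

lemma Top.step {x o o' : V} {h : ℕ} (hx : I.Cl m x) (a : I.Top m x o h) (hh : h ≤ 3 * m + 3)
    (ha : I.G.Adj o o') : I.Top m x o' (h + 1) ∨ ∃ h', h = h' + 1 ∧ I.Top m x o' h' := by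
  obtain ⟨z, z1, z2⟩ := a.2.1
  have hz := I.adj_pm (x := z) (y := o) (y' := o') (by rw [I.ρ_symm]; omega) ha
  rw [I.ρ_symm z o', I.ρ_symm z o] at hz
  have key : ∀ i, i ≤ 4 * m + 4 → i % 2 = (h + 1) % 2 → I.Has x o' i → i ≤ h + 1 := by
    rintro i hi e ⟨z', y1, y2⟩
    have t1 := I.tri' z o' z' (by omega)
    rw [I.ρ_symm z o'] at t1
    have t2 : I.ρ z z' < m := by
      rcases hx z z' z1 y1 with t | t <;> omega
    have t3 := I.tri' o z z' (by omega)
    have t4 := I.adj_pm (x := z') (y := o) (y' := o') (by rw [I.ρ_symm]; omega) ha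
    rw [I.ρ_symm z' o', I.ρ_symm z' o] at t4
    have := a.2.2 (I.ρ o z') (by omega) (by omega) ⟨z', y1, rfl⟩
    omega
  by_cases hH : I.Has x o' (h + 1)
  · exact Or.inl ⟨by omega, hH, key⟩
  · right
    have h1 : I.ρ o' z + 1 = h := by
      rcases hz with t | t
      · exact absurd ⟨z, z1, by omega⟩ hH
      · omega
    refine ⟨I.ρ o' z, h1.symm, by omega, ⟨z, z1, rfl⟩, fun i hi e b => ?_⟩
    have := key i hi (by omega) b
    have : i ≠ h + 1 := fun e' => hH (e' ▸ b)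
    omega

lemma Top.down_uniq {x o o1 o2 : V} {h : ℕ} (a : I.Top m x o (h + 1)) (hh : h ≤ 4 * m + 2)
    (a1 : I.G.Adj o o1) (a2 : I.G.Adj o o2) (t1 : I.Top m x o1 h) (t2 : I.Top m x o2 h) :
    o1 = o2 := by
  obtain ⟨z, z1, z2⟩ := a.2.1
  have key : ∀ o', I.G.Adj o o' → I.Top m x o' h → I.ρ z o' = h := by
    intro o' ha t
    have hz := I.adj_pm (x := z) (y := o) (y' := o') (by rw [I.ρ_symm]; omega) ha
    rw [I.ρ_symm z o] at hz
    have := t.2.2 (I.ρ z o') (by omega) (by omega) ⟨z, z1, I.ρ_symm _ _⟩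
    omega
  exact I.par_uniq z o h o1 o2 (by rw [I.ρ_symm]; exact z2) (by omega) a1 a2 (key o1 a1 t1)
    (key o2 a2 t2)

/-- continuing a rising step -/
lemma Top.rise {x o0 o1 o2 : V} {h : ℕ} (hx : I.Cl m x) (t0 : I.Top m x o0 h)
    (t1 : I.Top m x o1 (h + 1)) (hh : h + 1 ≤ 3 * m + 3) (a0 : I.G.Adj o1 o0) (a2 : I.G.Adj o1 o2)
    (hne : o2 ≠ o0) : I.Top m x o2 (h + 2) := by
  rcases t1.step hd hx hh a2 with t | ⟨h', e, t⟩
  · exact t
  · obtain rfl : h = h' := by omega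
    exact absurd (t1.down_uniq hd (by omega) a2 a0 t t0) hne

lemma Cen.cone {x o : V} {h : ℕ} (hx : I.Cl m x) (a : I.Cen m x o h) :
    ∀ (s : ℕ) (v : V), I.ρ o v = s → h + s ≤ 3 * m + 3 → I.Top m x v (h + s) := by
  intro s
  induction s using Nat.strong_induction_on with
  | _ s ih =>
    intro v hv hs
    match s, ih, hv, hs with
    | 0, _, hv, _ =>
      rw [← (I.ρ_zero o v).1 hv]
      exact a.1
    | 1, _, hv, _ => exact a.2 v (I.adj_of_ρ (by omega) hv)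
    | s + 2, ih, hv, hs =>
      obtain ⟨v1, a1, e1⟩ := I.par_ex o v (s + 1) hv (by omega)
      obtain ⟨v2, a2, e2⟩ := I.par_ex o v1 s e1 (by omega)
      refine Top.rise (h := h + s) hd hx (ih s (by omega) v2 e2 (by omega))
        (ih (s + 1) (by omega) v1 e1 (by omega)) (by omega) a2 a1.symm ?_
      rintro rfl
      omega

lemma Cen.bound {x o : V} {h : ℕ} (hx : I.Cl m x) (a : I.Cen m x o h) (hh : 2 * h ≤ 3 * m + 3) :
    2 * h < m := by
  obtain ⟨z, z1, z2⟩ := a.1.2.1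
  obtain ⟨z', y1, y2⟩ := (a.cone hd hx h z z2 (by omega)).2.1
  rcases hx z z' z1 y1 with t | t <;> omega

lemma no_exp {o : V} (ho : I.Gd m 1 o) : ∀ (t h : ℕ) (x0 x1 : V), h + t = m → I.Gd m t x1 →
    I.Cen m x0 o h → I.Cen m x1 o (h + 1) → I.G.Adj x0 x1 → False := by
  intro t
  induction t with
  | zero =>
    intro h x0 x1 e g _ c1 _
    have := c1.bound hd g.cl (by omega)
    omega
  | succ t ih =>
    intro h x0 x1 e g c0 c1 ha
    obtain ⟨x2, a2, hne, -⟩ := I.avoid x1 x0 x0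
    refine ih (h + 1) x1 x2 (by omega) (g.adj a2 le_rfl) c1 ⟨?_, fun o' ho' => ?_⟩ a2
    · exact (Top.rise hd ho.cl (c0.1.symm hd) (c1.1.symm hd) (by omega) ha.symm a2 hne).symm hd
    · exact (Top.rise hd (ho.adj ho' le_rfl).cl ((c0.2 o' ho').symm hd) ((c1.2 o' ho').symm hd)
        (by omega) ha.symm a2 hne).symm hd

lemma cen_of_top {x x' o o' : V} {h : ℕ} (hh : h < m) (gx : I.Cl m x) (gx' : I.Cl m x')
    (go : I.Gd m 2 o) (c0 : I.Cen m x o h) (t1 : I.Top m x' o (h + 1)) (t2 : I.Top m x' o' h)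
    (ax : I.G.Adj x x') (ao : I.G.Adj o o') : I.Cen m x' o' h := by
  refine ⟨t2, fun o'' ha => ?_⟩
  rcases t2.step hd gx' (by omega) ha with t | ⟨h', e, t⟩
  · exact t
  · exfalso
    by_cases ho : o'' = o
    · subst ho
      have := t.uniq t1 (by omega)
      omega
    · have r1 := I.ρ_of_adj ao
      have r2 := I.adj_pm (x := o) (by omega) ha
      have r3 : I.ρ o o'' ≠ 0 := fun e' => ho ((I.ρ_zero _ _).1 e').symm
      have t3 := (c0.cone hd gx 2 o'' (by omega) (by omega)).symm hd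
      have g2 : I.Cl m o'' := ((go.adj ao (r' := 1) le_rfl).adj ha (r' := 0) le_rfl).cl
      rcases (t.symm hd).step hd g2 (by omega) ax.symm with u | ⟨h'', e', u⟩
      · have := u.uniq t3 (by omega)
        omega
      · have := u.uniq t3 (by omega)
        omega

omit hd in
lemma Mut.symm {x o : V} {h : ℕ} (a : I.Mut m x o h) : I.Mut m o x h := ⟨a.1, a.2.2, a.2.1⟩

lemma Mut.prop {x x' o : V} {h : ℕ} (gx : I.Gd m (m + 2) x) (go : I.Gd m (m + 2) o)
    (a : I.Mut m x o h) (ax : I.G.Adj x x') : ∃ o', I.G.Adj o o' ∧ I.Mut m x' o' h := by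
  have hh := a.1
  have t1 : I.Top m x' o (h + 1) := (a.2.2.2 x' ax).symm hd
  have gx' : I.Gd m (m + 1) x' := gx.adj ax le_rfl
  have : ¬ ∀ o', I.G.Adj o o' → I.Top m x' o' (h + 2) := fun hc =>
    no_exp hd (go.mono (by omega)) (m - h) h x x' (by omega) (gx'.mono (by omega)) a.2.1 ⟨t1, hc⟩ ax
  push Not at this
  obtain ⟨o', ao, hn⟩ := this
  have t2 : I.Top m x' o' h := by
    rcases t1.step hd gx'.cl (by omega) ao with t | ⟨h', e, t⟩
    · exact absurd t hn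
    · obtain rfl : h = h' := by omega
      exact t
  refine ⟨o', ao, hh, cen_of_top hd hh gx.cl gx'.cl (go.mono (by omega)) a.2.1 t1 t2 ax ao,
    cen_of_top hd hh go.cl (go.adj ao (r' := 0) (by omega)).cl (gx.mono (by omega)) a.2.2
      ((a.2.1.2 o' ao).symm hd) (t2.symm hd) ao ax⟩

lemma Mut.inj {x x1 x2 o o' : V} {h : ℕ} (a : I.Mut m x o h) (a1 : I.G.Adj x x1)
    (a2 : I.G.Adj x x2) (ao : I.G.Adj o o') (m1 : I.Mut m x1 o' h) (m2 : I.Mut m x2 o' h) :
    x1 = x2 :=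
  ((a.2.1.2 o' ao).symm hd).down_uniq hd (by have := a.1; omega) a1 a2 m1.2.2.1 m2.2.2.1

lemma exists_mut : ∀ (h : ℕ), h < m → ∀ x o : V, I.Gd m (m + 2 + h) x → I.Gd m (m + 2 + h) o →
    I.Top m x o h → ∃ o' h', I.Mut m x o' h' ∧ h = h' + I.ρ o' o := by
  intro h
  induction h with
  | zero =>
    intro hh x o gx go t
    refine ⟨o, 0, ⟨hh, ⟨t, fun o' ao => ?_⟩, ⟨t.symm hd, fun x' ax => ?_⟩⟩, by rw [I.ρ_self]⟩
    · rcases t.step hd gx.cl (by omega) ao with u | ⟨h', e, _⟩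
      · exact u
      · omega
    · rcases (t.symm hd).step hd go.cl (by omega) ax with u | ⟨h', e, _⟩
      · exact u
      · omega
  | succ h ih =>
    intro hh x o gx go t
    by_cases h1 : ∃ o1, I.G.Adj o o1 ∧ I.Top m x o1 h
    · obtain ⟨o1, ao, t1⟩ := h1
      obtain ⟨o', h', mu, e⟩ := ih (by omega) x o1 (gx.mono (by omega)) (go.adj ao (by omega)) t1
      refine ⟨o', h', mu, ?_⟩
      have r := I.adj_pm (x := o') (y := o1) (y' := o) (by omega) ao.symm
      have := t.uniq (mu.2.1.cone hd gx.cl _ o rfl (by omega)) (by omega)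
      omega
    by_cases h2 : ∃ x1, I.G.Adj x x1 ∧ I.Top m o x1 h
    · obtain ⟨x1, ax, t1⟩ := h2
      obtain ⟨o', h', mu, e⟩ := ih (by omega) x1 o (gx.adj ax (by omega)) (go.mono (by omega))
        (t1.symm hd)
      have go' : I.Gd m (m + 2) o' :=
        Gd.dist (I.ρ o' o) o' go (I.ρ_symm _ _) (by omega) (by omega)
      obtain ⟨o'', ao, mu'⟩ := mu.prop hd (gx.adj ax (by omega)) go' ax.symm
      refine ⟨o'', h', mu', ?_⟩
      have r := I.adj_pm (x := o) (y := o') (y' := o'') (by rw [I.ρ_symm]; omega) ao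
      rw [I.ρ_symm o o'', I.ρ_symm o o'] at r
      have := t.uniq (mu'.2.1.cone hd gx.cl _ o rfl (by omega)) (by omega)
      omega
    · refine ⟨o, h + 1, ⟨hh, ⟨t, fun o' ao => ?_⟩, ⟨t.symm hd, fun x' ax => ?_⟩⟩, by rw [I.ρ_self]⟩
      · rcases t.step hd gx.cl (by omega) ao with u | ⟨h', e, u⟩
        · exact u
        · obtain rfl : h = h' := by omega
          exact absurd ⟨o', ao, u⟩ h1
      · rcases (t.symm hd).step hd go.cl (by omega) ax with u | ⟨h', e, u⟩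
        · exact u
        · obtain rfl : h = h' := by omega
          exact absurd ⟨x', ax, u⟩ h2

end

variable (I m) in
def RadAt (a r : ℕ) : Prop :=
  ∀ x o x' o' h, I.Gd m r x → I.Gd m r o → I.Gd m r x' → I.Gd m r o' → I.Mut m x o h →
    I.Mut m x' o' h → a % 2 = h % 2 → ((x' = x ∧ o' = o) ∨ (I.G.Adj x x' ∧ I.G.Adj o o')) →
    ∀ z z', I.ρ o z = a → I.ρ o' z' = a → I.E x z = I.E x' z'

lemma RadAt.mono {a r r' : ℕ} (h : I.RadAt m a r) (hr : r ≤ r') : I.RadAt m a r' :=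
  fun x o x' o' h' g1 g2 g3 g4 => h x o x' o' h' (g1.mono hr) (g2.mono hr) (g3.mono hr) (g4.mono hr)

lemma Mut.zero {x o z : V} {h a : ℕ} (mu : I.Mut m x o h) (ha : a ≤ 4 * m + 4) (hh : h < a)
    (e : a % 2 = h % 2) (hz : I.ρ o z = a) : I.E x z = 0 := by
  by_contra hc
  have h1 := I.E_nonneg x z
  have := mu.2.1.1.2.2 a ha e ⟨z, by omega, hz⟩
  omega

lemma radAt_top {a : ℕ} (h1 : m ≤ a) (h2 : a ≤ 4 * m + 4) (r : ℕ) : I.RadAt m a r := by
  intro x o x' o' h _ _ _ _ m1 m2 e _ z z' z1 z2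
  rw [m1.zero h2 (by have := m1.1; omega) e z1, m2.zero h2 (by have := m1.1; omega) e z2]

lemma sum_nbr {y p : V} (hp : I.G.Adj y p) (f : V → ℤ) (cc : ℤ)
    (h : ∀ y', I.G.Adj y y' → y' ≠ p → f y' = cc) :
    ∑ y' ∈ univ.filter (fun y' => I.G.Adj y y'), f y' = f p + 9 * cc := by
  have hm : p ∈ univ.filter (fun y' => I.G.Adj y y') := by simp [hp]
  rw [← Finset.add_sum_erase _ _ hm]
  congr 1
  rw [Finset.sum_congr rfl (g := fun _ => cc)]
  · rw [Finset.sum_const, Finset.card_erase_of_mem hm, I.reg]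
    simp
  · intro y' hy
    rw [Finset.mem_erase] at hy
    exact h y' (by simpa using hy.2) hy.1

section
variable (hd : 10 * m + 12 ≤ d)
include hd

lemma shift {a r : ℕ} (ha : a < m) (hr : m + 2 ≤ r) (R : I.RadAt m (a + 2) r) {x o xp op z zm : V}
    {h : ℕ} (gx : I.Gd m (r + 1) x) (go : I.Gd m (r + 1) o) (mu : I.Mut m x o h)
    (e : a % 2 = h % 2) (ax : I.G.Adj x xp) (ao : I.G.Adj o op) (mp : I.Mut m xp op h)
    (z1 : I.ρ o z = a + 1) (z2 : I.ρ op z = a) (az : I.G.Adj z zm) (z3 : I.ρ o zm = a) :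
    I.E x zm = I.E xp z := by
  obtain ⟨w, aw, hw, -⟩ := I.avoid z zm zm
  have w1 : I.ρ o w = a + 2 := I.child_of_ne z1 (by omega) az z3 aw hw
  have gx0 : I.Gd m r x := gx.mono (by omega)
  have go0 : I.Gd m r o := go.mono (by omega)
  have hw := I.wave x z
  rw [sum_nbr ax (fun x' => I.E x' z) (I.E x w), sum_nbr az (fun z' => I.E x z') (I.E x w)] at hw
  · omega
  · intro z' a1 a2
    exact R x o x o h gx0 go0 gx0 go0 mu mu (by omega) (Or.inl ⟨rfl, rfl⟩) z' w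
      (I.child_of_ne z1 (by omega) az z3 a1 a2) w1
  · intro x' a1 a2
    obtain ⟨o', ao', mu'⟩ := mu.prop hd (gx.mono (by omega)) (go.mono (by omega)) a1
    have hne : o' ≠ op := by
      rintro rfl
      exact a2 (mu.inj hd a1 ax ao mu' mp)
    have r1 : I.ρ z o' = a + 2 := I.child_of_ne (by rw [I.ρ_symm]; exact z1) (by omega) ao
      (by rw [I.ρ_symm]; exact z2) ao' hne
    exact (R x o x' o' h gx0 go0 (gx.adj a1 le_rfl) (go.adj ao' le_rfl) mu mu' (by omega)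
      (Or.inr ⟨a1, ao'⟩) w z w1 (by rw [I.ρ_symm]; exact r1)).symm

lemma radial_step {a r : ℕ} (ha : a < m) (hr : m + 2 ≤ r) (R : I.RadAt m (a + 2) r) {x o : V}
    {h : ℕ} (gx : I.Gd m (r + m + 1) x) (go : I.Gd m (r + m + 1) o) (mu : I.Mut m x o h)
    (e : a % 2 = h % 2) {z1 z2 : V} (e1 : I.ρ o z1 = a) (e2 : I.ρ o z2 = a) :
    I.E x z1 = I.E x z2 := by
  have key : ∀ s, s ≤ a → ∃ xs us p1 p2, I.Gd m (r + m + 1 - s) xs ∧ I.Gd m (r + m + 1 - s) us ∧
      I.Mut m xs us h ∧ I.ρ us o ≤ s ∧ I.ρ o p1 + s = a ∧ I.ρ o p2 + s = a ∧ I.ρ us p1 = a ∧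
      I.ρ us p2 = a ∧ I.E xs p1 = I.E x z1 ∧ I.E xs p2 = I.E x z2 := by
    intro s
    induction s with
    | zero => exact fun _ => ⟨x, o, z1, z2, gx, go, mu, by rw [I.ρ_self], by omega, by omega, e1, e2,
        rfl, rfl⟩
    | succ s ih =>
      intro hs
      obtain ⟨xs, us, p1, p2, g1, g2, ms, r0, r1, r2, s1, s2, q1, q2⟩ := ih (by omega)
      obtain ⟨b1, hb1⟩ := I.par (x := p1) (y := us) (by rw [I.ρ_symm]; omega)
      obtain ⟨b2, hb2⟩ := I.par (x := p2) (y := us) (by rw [I.ρ_symm]; omega)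
      obtain ⟨u', au, n1, n2⟩ := I.avoid us b1 b2
      have t1 := hb1 u' au n1
      have t2 := hb2 u' au n2
      rw [I.ρ_symm p1 u', I.ρ_symm p1 us] at t1
      rw [I.ρ_symm p2 u', I.ρ_symm p2 us] at t2
      obtain ⟨x', ax, mu'⟩ := ms.symm.prop hd (g2.mono (by omega)) (g1.mono (by omega)) au
      have gx' : I.Gd m (r + m + 1 - (s + 1)) x' := g1.adj ax (by omega)
      have gu' : I.Gd m (r + m + 1 - (s + 1)) u' := g2.adj au (by omega)
      have ru : I.ρ u' o ≤ s + 1 := by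
        have := I.ρ_adj o us u' au
        rw [I.ρ_symm o u', I.ρ_symm o us] at this
        omega
      have step : ∀ p, I.ρ o p + s = a → I.ρ us p = a → I.ρ u' p = a + 1 →
          ∃ p', I.ρ o p' + (s + 1) = a ∧ I.ρ u' p' = a ∧ I.E x' p' = I.E xs p := by
        intro p k1 k2 k3
        obtain ⟨p', ap, k4⟩ := I.par_ex o p (a - s - 1) (by omega) (by omega)
        have k5 := I.tri' u' o p' (by omega)
        have k6 := I.ρ_adj u' p' p ap.symm
        have k7 : I.ρ u' p' = a := by omega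
        exact ⟨p', by omega, k7, shift hd ha hr R (gx'.mono (by omega)) (gu'.mono (by omega))
          mu'.symm e ax.symm au.symm ms k3 k2 ap k7⟩
      obtain ⟨p1', a1, a2, a3⟩ := step p1 r1 s1 (by omega)
      obtain ⟨p2', c1, c2, c3⟩ := step p2 r2 s2 (by omega)
      exact ⟨x', u', p1', p2', gx', gu', mu'.symm, ru, a1, c1, a2, c2, a3.trans q1, c3.trans q2⟩
  obtain ⟨xs, us, p1, p2, -, -, -, -, r1, r2, -, -, q1, q2⟩ := key a le_rfl
  have k1 : o = p1 := (I.ρ_zero _ _).1 (by omega)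
  have k2 : o = p2 := (I.ρ_zero _ _).1 (by omega)
  rw [← q1, ← q2, ← k1, ← k2]

lemma radAt_step {a r : ℕ} (ha : a < m) (hr : m + 2 ≤ r) (R : I.RadAt m (a + 2) r) :
    I.RadAt m a (r + m + 1) := by
  intro x o x' o' h g1 g2 g3 g4 m1 m2 e hor z z' z1 z2
  rcases hor with ⟨rfl, rfl⟩ | ⟨ax, ao⟩
  · exact radial_step hd ha hr R g1 g2 m1 e z1 z2
  · obtain ⟨w, w1, w2⟩ := I.ext_sphere ao a (by omega)
    obtain ⟨wm, aw, w3⟩ := I.par_ex o w a w2 (by omega)
    rw [radial_step hd ha hr R g1 g2 m1 e z1 w3, radial_step hd ha hr R g3 g4 m2 e z2 w1]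
    exact shift hd ha hr R (g1.mono (by omega)) (g2.mono (by omega)) m1 e ax ao m2 w2 w1 aw w3

lemma radAt_all : ∀ b a : ℕ, a ≤ 4 * m + 4 → m ≤ a + b → I.RadAt m a (m + 2 + b * (m + 1)) := by
  intro b
  induction b with
  | zero => exact fun a h1 h2 => radAt_top (by omega) h1 _
  | succ b ih =>
    intro a h1 h2
    by_cases ha : m ≤ a
    · exact radAt_top ha h1 _
    · have := radAt_step hd (not_le.1 ha) (by omega) (ih (a + 2) (by omega) (by omega))
      exact this.mono (by rw [add_mul]; omega)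

end

end Inst

end Pool.Agent.H170Z.Cage
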