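import Mathlib
import Pool.Agent.H170Z.Cage.Defs

set_option autoImplicit false

namespace Pool.Agent.H170Z.Cage

open Polynomial Finset Matrix

variable {V : Type} [Fintype V] [DecidableEq V] {c d : ℕ}

namespace Inst

variable (I : Inst V c d)

noncomputable def AR : Matrix V V ℝ := I.A.map (fun z => (z : ℝ))
noncomputable def ER : Matrix V V ℝ := I.E.map (fun z => (z : ℝ))
noncomputable def NR (i : ℕ) : Matrix V V ℝ := (I.N i).map (fun z => (z : ℝ))

lemma AR_herm : I.AR.IsHermitian := by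
  ext x y
  simp [AR, Inst.A, SimpleGraph.adjMatrix_apply, SimpleGraph.adj_comm]

/-- adjacency eigenvalues -/
noncomputable def θ (i : V) : ℝ := I.AR_herm.eigenvalues i

/-- eigenvalues of the excess matrix -/
noncomputable def μ (i : V) : ℝ :=
  if I.θ i = 10 then (I.κ : ℝ) * Fintype.card V - Pr I.κ d 10 else - Pr I.κ d (I.θ i)

/-- the kernel `K(A, y)` -/
noncomputable def KM (y : ℝ) : Matrix V V ℝ :=
  ∑ i ∈ range (d + 1), (kap I.κ d i * Fr i y) • I.NR i

/-- scalar kernel at two eigenvalues -/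
noncomputable def KK (i j : V) : ℝ := Kr I.κ d (I.θ i) (I.θ j)

def bulk (i : V) : Prop := |I.θ i| ≤ 6

def cl (i j : V) : Prop := |I.θ i - I.θ j| < 1 / 2 ^ d

end Inst

end Pool.Agent.H170Z.Cage
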