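import Mathlib
import Pool.Agent.H170Z.Cage.Local
import Pool.Agent.H170Z.Cage.SDefs

set_option autoImplicit false

namespace Pool.Agent.H170Z.Cage

open Polynomial Finset Matrix

variable {V : Type} [Fintype V] [DecidableEq V] {c d : ℕ}

def rr (m : ℕ) : ℕ := m + 2 + m * (m + 1)

namespace Inst

variable (I : Inst V c d) (m : ℕ)

open Classical in
noncomputable def M (a : ℕ) : Matrix V V ℤ := fun x o =>
  if ∃ h, a % 2 = h % 2 ∧ I.Mut m x o h then (I.E * I.N a) x o / (Sz a : ℤ) else 0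

def W (x o : V) : Prop := ∃ h, I.Mut m x o h

def Ch : ℕ → V → V → Prop
  | 0, x, y => x = y
  | j + 1, x, y => ∃ o, I.W m x o ∧ Ch j o y

variable {I m}

lemma M_symm {a : ℕ} (ha : a < d) (x o : V) : I.M m a x o = I.M m a o x := by
  unfold M
  by_cases h : ∃ h, a % 2 = h % 2 ∧ I.Mut m x o h
  · rw [if_pos h, if_pos (h.imp fun _ u => ⟨u.1, u.2.symm⟩), I.EN_symm ha x o]
  · rw [if_neg h, if_neg (fun u : ∃ h, a % 2 = h % 2 ∧ I.Mut m o x h =>
      h (u.imp fun _ u => ⟨u.1, u.2.symm⟩))]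

lemma EN_nonneg {a : ℕ} (ha : a < d) (x o : V) : 0 ≤ (I.E * I.N a) x o := by
  rw [I.EN_apply ha]
  exact Finset.sum_nonneg fun z _ => I.E_nonneg x z

lemma M_abs_le {a : ℕ} (ha : a < d) (x o : V) : |I.M m a x o| ≤ (I.E * I.N a) x o := by
  have h0 := EN_nonneg (I := I) ha x o
  unfold M
  split_ifs
  · have h1 : (0 : ℤ) < Sz a := by exact_mod_cast Sz_pos a
    rw [abs_of_nonneg (Int.ediv_nonneg h0 h1.le)]
    exact Int.ediv_le_self _ h0
  · simpa using h0

lemma M_row {a : ℕ} (ha : a < d) (x : V) : ∑ o, |I.M m a x o| ≤ c * 10 ^ a := by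
  refine (Finset.sum_le_sum fun o _ => M_abs_le ha x o).trans ?_
  simp only [Matrix.mul_apply]
  rw [Finset.sum_comm]
  simp only [← Finset.mul_sum, I.N_row]
  rw [← Finset.sum_mul]
  have h1 : (Sz a : ℤ) ≤ 10 ^ a := by exact_mod_cast Sz_le a
  exact mul_le_mul (I.E_row x) h1 (by positivity) (by positivity)

lemma W_of_M {a : ℕ} {x o : V} (h : I.M m a x o ≠ 0) : I.W m x o := by
  unfold M at h
  split_ifs at h with h1
  · obtain ⟨h', -, mu⟩ := h1
    exact ⟨h', mu⟩
  · exact absurd rfl h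

section
variable (hd : 10 * m + 12 ≤ d)
include hd

lemma W.gd {r : ℕ} {x o : V} (g : I.Gd m (r + m) x) (w : I.W m x o) : I.Gd m r o := by
  obtain ⟨h, hh, ⟨⟨-, ⟨z, z1, z2⟩, -⟩, -⟩, -⟩ := w
  exact Gd.dist h o (g.stepE z1 (r' := r + h) (by omega)) (by rw [I.ρ_symm]; exact z2) (by omega)
    le_rfl

lemma M_val {a h : ℕ} {x o z : V} (g : I.Gd m (rr m + m) x) (mu : I.Mut m x o h) (ha : a < m)
    (e : a % 2 = h % 2) (hz : I.ρ o z = a) : I.M m a x o = I.E x z := by
  have go : I.Gd m (rr m) o := W.gd hd g ⟨h, mu⟩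
  have gx : I.Gd m (rr m) x := g.mono (by omega)
  have R : I.RadAt m a (rr m) := radAt_all hd m a (by omega) (by omega)
  unfold M
  rw [if_pos ⟨h, e, mu⟩, I.EN_apply (by omega),
    Finset.sum_congr rfl (g := fun _ => I.E x z), Finset.sum_const, I.sphere_card (by omega)]
  · have h1 : (Sz a : ℤ) ≠ 0 := by exact_mod_cast (Sz_pos a).ne'
    simp only [nsmul_eq_mul]
    exact Int.mul_ediv_cancel_left _ h1
  · intro z' hz'
    simp only [mem_filter, mem_univ, true_and] at hz'
    exact R x o x o h gx go gx go mu mu e (Or.inl ⟨rfl, rfl⟩) z' z hz' hz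

lemma center_uniq {x o o' z : V} {h h' : ℕ} (gx : I.Cl m x) (mu : I.Mut m x o h)
    (mu' : I.Mut m x o' h') (h1 : I.ρ o z < m) (h2 : I.ρ o' z < m) (e : I.ρ o z % 2 = h % 2)
    (e' : I.ρ o' z % 2 = h' % 2) : o = o' := by
  have t := I.tri' o z o' (by rw [I.ρ_symm]; omega)
  rw [I.ρ_symm z o'] at t
  have p := I.parity o z _ o' rfl (by omega)
  have hh := mu.1
  have hh' := mu'.1
  have a1 := (mu.2.1.cone hd gx _ o' rfl (by omega)).uniq mu'.2.1.1 (by omega)
  have a2 := (mu'.2.1.cone hd gx _ o (I.ρ_symm _ _) (by omega)).uniq mu.2.1.1 (by omega)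
  exact (I.ρ_zero _ _).1 (by omega)

lemma exists_center {x z : V} (g : I.Gd m (2 * m + 3) x) (hz : 0 < I.E x z) :
    ∃ o h, I.Mut m x o h ∧ I.ρ o z < m ∧ I.ρ o z % 2 = h % 2 := by
  classical
  have hne : ((range (4 * m + 5)).filter fun i => i % 2 = 0 ∧ I.Has x z i).Nonempty :=
    ⟨0, by
      rw [mem_filter, mem_range]
      exact ⟨by omega, rfl, z, hz, I.ρ_self z⟩⟩
  obtain ⟨h0, hm, hmax⟩ := Finset.exists_max_image _ (fun i => i) hne
  simp only [mem_filter, mem_range] at hm hmax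
  have t : I.Top m x z h0 := ⟨by omega, hm.2.2, fun i hi e b => hmax i ⟨by omega, by omega, b⟩⟩
  have hlt : h0 < m := by
    obtain ⟨z', y1, y2⟩ := hm.2.2
    rcases g.cl z z' hz y1 with u | u <;> omega
  obtain ⟨o, h, mu, e⟩ := exists_mut hd h0 hlt x z (g.mono (by omega)) (g.stepE hz (by omega)) t
  exact ⟨o, h, mu, by omega, by omega⟩

theorem E_decomp {x : V} (g : I.Gd m (rr m + 2 * m + 3) x) (z : V) :
    I.E x z = (∑ a ∈ range m, I.M m a * I.N a) x z := by
  classical
  have term : ∀ a ∈ range m, ∀ o, I.M m a x o * I.N a o z =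
      if I.ρ o z = a ∧ ∃ h, a % 2 = h % 2 ∧ I.Mut m x o h then I.E x z else 0 := by
    intro a ha o
    rw [mem_range] at ha
    rw [I.N_apply (by omega)]
    by_cases h1 : I.ρ o z = a
    · by_cases h2 : ∃ h, a % 2 = h % 2 ∧ I.Mut m x o h
      · obtain ⟨h, e, mu⟩ := h2
        rw [if_pos h1, if_pos ⟨h1, h, e, mu⟩, M_val hd (g.mono (by omega)) mu ha e h1, mul_one]
      · rw [if_neg (show ¬ (I.ρ o z = a ∧ ∃ h, a % 2 = h % 2 ∧ I.Mut m x o h) from
          fun u => h2 u.2)]
        unfold M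
        rw [if_neg h2, zero_mul]
    · rw [if_neg h1, if_neg (fun u => h1 u.1), mul_zero]
  rw [Matrix.sum_apply]
  simp only [Matrix.mul_apply]
  rw [Finset.sum_congr rfl fun a ha => Finset.sum_congr rfl fun o _ => term a ha o]
  rcases (I.E_nonneg x z).eq_or_lt with h0 | h0
  · simp [← h0]
  · obtain ⟨o, h, mu, h1, e⟩ := exists_center hd (g.mono (by omega)) h0
    rw [Finset.sum_eq_single (I.ρ o z), Finset.sum_eq_single o, if_pos ⟨rfl, h, e, mu⟩]
    · intro o' _ hne
      rw [if_neg]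
      rintro ⟨u1, h', e', mu'⟩
      exact hne (center_uniq hd g.cl mu' mu (by omega) h1 (by omega) e)
    · simp
    · intro a ha hne
      rw [mem_range] at ha
      apply Finset.sum_eq_zero
      intro o' _
      rw [if_neg]
      rintro ⟨u1, h', e', mu'⟩
      have := center_uniq hd g.cl mu' mu (by omega) h1 (by omega) e
      subst this
      exact hne u1.symm
    · intro hn
      exact absurd (mem_range.2 h1) hn

lemma W.iso {x o : V} (g : I.Gd m (m + 2 + m) x) (w : I.W m x o) :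
    ∃ β : V → V, (∀ x', I.G.Adj x x' → I.G.Adj o (β x') ∧ I.W m x' (β x')) ∧
      ∀ x1 x2, I.G.Adj x x1 → I.G.Adj x x2 → β x1 = β x2 → x1 = x2 := by
  have go := W.gd hd g w
  obtain ⟨h, mu⟩ := w
  have : ∀ x', ∃ o', I.G.Adj x x' → I.G.Adj o o' ∧ I.Mut m x' o' h := by
    intro x'
    by_cases ha : I.G.Adj x x'
    · obtain ⟨o', a1, a2⟩ := mu.prop hd (g.mono (by omega)) go ha
      exact ⟨o', fun _ => ⟨a1, a2⟩⟩
    · exact ⟨o, fun u => absurd u ha⟩
  choose β hβ using this
  refine ⟨β, fun x' ha => ⟨(hβ x' ha).1, h, (hβ x' ha).2⟩, fun x1 x2 a1 a2 e => ?_⟩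
  exact mu.inj hd a1 a2 (hβ x1 a1).1 (hβ x1 a1).2 (e ▸ (hβ x2 a2).2)

lemma Ch.iso : ∀ (j : ℕ) (x y : V), I.Gd m (2 * m + 2 + j * m) x → I.Ch m j x y →
    ∃ β : V → V, (∀ x', I.G.Adj x x' → I.G.Adj y (β x') ∧ I.Ch m j x' (β x')) ∧
      ∀ x1 x2, I.G.Adj x x1 → I.G.Adj x x2 → β x1 = β x2 → x1 = x2 := by
  intro j
  induction j with
  | zero =>
    intro x y _ h
    obtain rfl : x = y := h
    exact ⟨id, fun x' ha => ⟨ha, rfl⟩, fun _ _ _ _ e => e⟩
  | succ j ih =>
    rintro x y g ⟨o, w, ch⟩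
    rw [add_mul, one_mul] at g
    obtain ⟨β1, a1, i1⟩ := W.iso hd (g.mono (by omega)) w
    obtain ⟨β2, a2, i2⟩ := ih o y (W.gd hd (g.mono (by omega)) w) ch
    refine ⟨β2 ∘ β1, fun x' ha => ⟨(a2 _ (a1 x' ha).1).1, β1 x', (a1 x' ha).2,
      (a2 _ (a1 x' ha).1).2⟩, fun x1 x2 b1 b2 e => ?_⟩
    exact i1 x1 x2 b1 b2 (i2 _ _ (a1 x1 b1).1 (a1 x2 b2).1 e)

open Classical in
lemma W_card (x : V) : (univ.filter fun o => I.W m x o).card ≤ c * (m * 10 ^ m) := by
  have hsub : (univ.filter fun o => I.W m x o) ⊆ (univ.filter fun z => 0 < I.E x z).biUnion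
      fun z => (range m).biUnion fun a => univ.filter fun o => I.ρ z o = a := by
    intro o ho
    simp only [mem_filter, mem_univ, true_and] at ho
    obtain ⟨h, hh, ⟨⟨-, ⟨z, z1, z2⟩, -⟩, -⟩, -⟩ := ho
    simp only [mem_biUnion, mem_filter, mem_univ, true_and, mem_range]
    exact ⟨z, z1, h, hh, by rw [I.ρ_symm]; exact z2⟩
  refine (Finset.card_le_card hsub).trans ((Finset.card_biUnion_le_card_mul _ _ (m * 10 ^ m)
    fun z _ => ?_).trans (Nat.mul_le_mul_right _ (I.supp_card x)))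
  refine (Finset.card_biUnion_le_card_mul _ _ (10 ^ m) fun a ha => ?_).trans (by simp)
  rw [mem_range] at ha
  rw [I.sphere_card (by omega)]
  exact (Sz_le a).trans (Nat.pow_le_pow_right (by norm_num) ha.le)

open Classical in
lemma Ch_card : ∀ (j : ℕ) (x : V),
    (univ.filter fun y => I.Ch m j x y).card ≤ (c * (m * 10 ^ m)) ^ j := by
  intro j
  induction j with
  | zero =>
    intro x
    have : (univ.filter fun y => I.Ch m 0 x y) ⊆ {x} := by
      intro y hy
      simp only [mem_filter, mem_univ, true_and] at hy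
      exact mem_singleton.2 (Eq.symm hy)
    simpa using Finset.card_le_card this
  | succ j ih =>
    intro x
    have hsub : (univ.filter fun y => I.Ch m (j + 1) x y) ⊆
        (univ.filter fun o => I.W m x o).biUnion fun o => univ.filter fun y => I.Ch m j o y := by
      intro y hy
      simp only [mem_filter, mem_univ, true_and] at hy
      obtain ⟨o, w, ch⟩ := hy
      simp only [mem_biUnion, mem_filter, mem_univ, true_and]
      exact ⟨o, w, ch⟩
    refine (Finset.card_le_card hsub).trans ((Finset.card_biUnion_le_card_mul _ _ _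
      fun o _ => ih o).trans ?_)
    rw [pow_succ, mul_comm]
    exact Nat.mul_le_mul_left _ (W_card hd x)

end

open Classical in
lemma bad_card (r : ℕ) : (univ.filter fun x => ¬ I.Gd m r x).card ≤
    (11 + c) ^ r * (univ.filter fun x => ¬ I.Cl m x).card := by
  induction r with
  | zero =>
    rw [pow_zero, one_mul]
    exact le_of_eq rfl
  | succ r ih =>
    have hsub : (univ.filter fun x => ¬ I.Gd m (r + 1) x) ⊆
        (univ.filter fun y => ¬ I.Gd m r y).biUnion fun y =>
          insert y ((univ.filter fun x => I.G.Adj y x) ∪ univ.filter fun x => 0 < I.E y x) := by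
      intro x hx
      simp only [mem_filter, mem_univ, true_and] at hx
      simp only [mem_biUnion, mem_filter, mem_univ, true_and, mem_insert, mem_union]
      by_cases h1 : I.Gd m r x
      · have : ¬ ∀ y, I.Step x y → I.Gd m r y := fun u => hx ⟨h1, u⟩
        push Not at this
        obtain ⟨y, s, hy⟩ := this
        refine ⟨y, hy, Or.inr ?_⟩
        rcases s with s | s
        · exact Or.inl s.symm
        · exact Or.inr (by rwa [I.E_symm])
      · exact ⟨x, h1, Or.inl rfl⟩
    refine (Finset.card_le_card hsub).trans ((Finset.card_biUnion_le_card_mul _ _ (11 + c)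
      fun y _ => ?_).trans ?_)
    · refine (Finset.card_insert_le _ _).trans ?_
      have := Finset.card_union_le (univ.filter fun x => I.G.Adj y x)
        (univ.filter fun x => 0 < I.E y x)
      have := I.reg y
      have := I.supp_card y
      omega
    · rw [pow_succ, mul_assoc, mul_comm (11 + c), ← mul_assoc]
      exact Nat.mul_le_mul_right _ ih

open Classical in
variable (I m) in
noncomputable def Nn (j δ : ℕ) : ℕ :=
  (univ.filter fun p : V × V => I.Ch m j p.1 p.2 ∧ I.ρ p.1 p.2 = δ).card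

section
variable (hd : 10 * m + 12 ≤ d)
include hd

open Classical in
lemma card_pairs (j : ℕ) (S : Finset V) :
    (univ.filter fun p : V × V => p.1 ∈ S ∧ I.Ch m j p.1 p.2).card ≤
      S.card * (c * (m * 10 ^ m)) ^ j := by
  have hsub : (univ.filter fun p : V × V => p.1 ∈ S ∧ I.Ch m j p.1 p.2) ⊆
      S.biUnion fun x => (univ.filter fun y => I.Ch m j x y).image fun y => (x, y) := by
    rintro ⟨x, y⟩ hp
    simp only [mem_filter, mem_univ, true_and] at hp
    simp only [mem_biUnion, mem_image, mem_filter, mem_univ, true_and]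
    exact ⟨x, hp.1, y, hp.2, rfl⟩
  exact (Finset.card_le_card hsub).trans (Finset.card_biUnion_le_card_mul _ _ _
    fun x _ => Finset.card_image_le.trans (Ch_card hd j x))

open Classical in
lemma Nn_le (j δ : ℕ) : I.Nn m j δ ≤ Fintype.card V * (c * (m * 10 ^ m)) ^ j := by
  refine le_trans (Finset.card_le_card ?_) (card_pairs (I := I) hd j univ)
  intro p hp
  simp only [mem_filter, mem_univ, true_and] at hp ⊢
  exact hp.1

open Classical in
lemma Nn_step (j δ : ℕ) (h1 : 1 ≤ δ) (h2 : δ + 2 < d) : 8 * I.Nn m j δ ≤ I.Nn m j (δ + 2) +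
    8 * ((univ.filter fun x => ¬ I.Gd m (2 * m + 2 + j * m) x).card * (c * (m * 10 ^ m)) ^ j) := by
  set S := univ.filter fun p : V × V => (I.Ch m j p.1 p.2 ∧ I.ρ p.1 p.2 = δ) ∧
    I.Gd m (2 * m + 2 + j * m) p.1 with hS
  have a1 : I.Nn m j δ ≤ S.card +
      (univ.filter fun x => ¬ I.Gd m (2 * m + 2 + j * m) x).card * (c * (m * 10 ^ m)) ^ j := by
    refine le_trans ?_ (Nat.add_le_add_left (card_pairs (I := I) hd j _) _)
    refine le_trans (Finset.card_le_card ?_) (Finset.card_union_le _ _)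
    intro p hp
    simp only [hS, mem_filter, mem_univ, true_and, mem_union] at hp ⊢
    by_cases g : I.Gd m (2 * m + 2 + j * m) p.1
    · exact Or.inl ⟨hp, g⟩
    · exact Or.inr ⟨g, hp.1⟩
  have a2 : S.card * 8 ≤ I.Nn m j (δ + 2) * 1 := by
    refine Finset.card_mul_le_card_mul
      (fun p q : V × V => I.G.Adj p.1 q.1 ∧ I.G.Adj p.2 q.2) ?_ ?_
    · rintro ⟨x, y⟩ hp
      simp only [hS, mem_filter, mem_univ, true_and] at hp
      obtain ⟨⟨ch, hρ⟩, g⟩ := hp
      obtain ⟨β, b1, b2⟩ := Ch.iso hd j x y g ch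
      obtain ⟨p, hp⟩ := I.par (x := y) (y := x) (by rw [I.ρ_symm]; omega)
      obtain ⟨q, aq, hq⟩ := I.par_ex x y (δ - 1) (by omega) (by omega)
      have hc : 8 ≤ (((univ.filter fun x' => I.G.Adj x x').erase p).filter
          fun x' => β x' ≠ q).card := by
        have e1 := Finset.pred_card_le_card_erase (s := univ.filter fun x' => I.G.Adj x x') (a := p)
        rw [I.reg] at e1
        have e2 := Finset.card_filter_add_card_filter_not
          (s := (univ.filter fun x' => I.G.Adj x x').erase p) (fun x' => β x' ≠ q)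
        have e3 : (((univ.filter fun x' => I.G.Adj x x').erase p).filter
            fun x' => ¬ β x' ≠ q).card ≤ 1 := by
          rw [Finset.card_le_one]
          intro u hu v hv
          simp only [mem_filter, mem_erase, mem_univ, true_and, not_not] at hu hv
          exact b2 u v hu.1.2 hv.1.2 (hu.2.trans hv.2.symm)
        omega
      refine hc.trans (Finset.card_le_card_of_injOn (fun x' => (x', β x')) ?_ ?_)
      · intro x' hx'
        simp only [coe_filter, mem_erase, mem_filter, mem_univ, true_and, Set.mem_ofPred_eq] at hx'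
        obtain ⟨⟨n1, ax⟩, n2⟩ := hx'
        simp only [Finset.bipartiteAbove, coe_filter, mem_filter, mem_univ, true_and,
          Set.mem_ofPred_eq]
        refine ⟨⟨(b1 x' ax).2, ?_⟩, ax, (b1 x' ax).1⟩
        have r1 := hp x' ax n1
        rw [I.ρ_symm y x', I.ρ_symm y x] at r1
        have r2 := I.ρ_adj q x x' ax
        rw [I.ρ_symm q x', I.ρ_symm q x] at r2
        have r3 := I.ρ_adj x' q y aq.symm
        exact I.child_of_ne (x := x') (y := y) (p := q) (i := δ) (by omega) (by omega) aq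
          (by omega) (b1 x' ax).1 n2
      · intro u _ v _ e
        exact (Prod.ext_iff.1 e).1
    · rintro ⟨x', y'⟩ hq
      simp only [mem_filter, mem_univ, true_and] at hq
      rw [Finset.card_le_one]
      have key : ∀ p ∈ S.bipartiteBelow (fun p q : V × V => I.G.Adj p.1 q.1 ∧ I.G.Adj p.2 q.2)
          (x', y'), I.G.Adj x' p.1 ∧ I.G.Adj y' p.2 ∧ I.ρ y' p.1 = δ + 1 ∧ I.ρ x' p.2 = δ + 1 := by
        rintro ⟨x, y⟩ hp
        simp only [hS, Finset.bipartiteBelow, mem_filter, mem_univ, true_and] at hp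
        obtain ⟨⟨⟨-, hρ⟩, -⟩, ax, ay⟩ := hp
        have r1 := I.ρ_adj x y y' ay
        have r2 := I.ρ_adj y' x x' ax
        have r3 := I.ρ_adj y x x' ax
        have r4 := I.ρ_adj x' y y' ay
        rw [I.ρ_symm y' x', I.ρ_symm y' x] at r2
        rw [I.ρ_symm y x', I.ρ_symm y x] at r3
        refine ⟨ax.symm, ay.symm, ?_, ?_⟩
        · show I.ρ y' x = δ + 1
          rw [I.ρ_symm]
          omega
        · show I.ρ x' y = δ + 1
          omega
      intro p hp q hq'
      obtain ⟨p1, p2, p3, p4⟩ := key p hp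
      obtain ⟨q1, q2, q3, q4⟩ := key q hq'
      exact Prod.ext (I.par_uniq y' x' (δ + 1) _ _ (by rw [I.ρ_symm]; exact hq.2) h2 p1 q1 p3 q3)
        (I.par_uniq x' y' (δ + 1) _ _ hq.2 h2 p2 q2 p4 q4)
  omega

open Classical in
lemma Nn_small (j : ℕ) : ∀ s δ : ℕ, 1 ≤ δ → δ + 2 * s < d → (I.Nn m j δ : ℝ) ≤
    Fintype.card V * (c * (m * 10 ^ m) : ℝ) ^ j / 8 ^ s +
    2 * ((univ.filter fun x => ¬ I.Gd m (2 * m + 2 + j * m) x).card * (c * (m * 10 ^ m) : ℝ) ^ j) := by
  intro s
  induction s with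
  | zero =>
    intro δ _ _
    have h : (I.Nn m j δ : ℝ) ≤ Fintype.card V * (c * (m * 10 ^ m) : ℝ) ^ j := by
      exact_mod_cast Nn_le (I := I) hd j δ
    rw [pow_zero, div_one]
    exact h.trans (le_add_of_nonneg_right (by positivity))
  | succ s ih =>
    intro δ h1 h2
    have a := ih (δ + 2) (by omega) (by omega)
    have b : (8 * I.Nn m j δ : ℝ) ≤ I.Nn m j (δ + 2) + 8 * ((univ.filter fun x =>
        ¬ I.Gd m (2 * m + 2 + j * m) x).card * (c * (m * 10 ^ m) : ℝ) ^ j) := by
      exact_mod_cast Nn_step (I := I) hd j δ h1 (by omega)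
    have e : Fintype.card V * (c * (m * 10 ^ m) : ℝ) ^ j / 8 ^ (s + 1) =
        Fintype.card V * (c * (m * 10 ^ m) : ℝ) ^ j / 8 ^ s / 8 := by
      rw [pow_succ, div_div]
    have p : (0 : ℝ) ≤ (univ.filter fun x => ¬ I.Gd m (2 * m + 2 + j * m) x).card *
        (c * (m * 10 ^ m) : ℝ) ^ j := by positivity
    rw [e]
    linarith

end

end Inst

end Pool.Agent.H170Z.Cage
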