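import Mathlib
import Pool.Agent.H170Z.Cage.Defs

set_option autoImplicit false
set_option maxHeartbeats 400000

namespace Pool.Agent.H170Z.Cage

open Polynomial Finset Matrix

variable {V : Type} [Fintype V] [DecidableEq V]

open Classical in
lemma pe_coeff {B : Matrix V V ℝ} (h : B.IsHermitian) :
    (∀ j < nz h, B.charpoly.coeff j = 0) ∧
      B.charpoly.coeff (nz h) =
        ∏ i ∈ univ.filter (fun i => ¬ h.eigenvalues i = 0), (- h.eigenvalues i) := by
  have e : B.charpoly = X ^ nz h *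
      ∏ i ∈ univ.filter (fun i => ¬ h.eigenvalues i = 0), (X - C (h.eigenvalues i)) := by
    rw [h.charpoly_eq, ← prod_filter_mul_prod_filter_not univ (fun i => h.eigenvalues i = 0)]
    congr 1
    · rw [nz, ← prod_const]
      refine prod_congr (by congr) fun i hi => ?_
      rw [(mem_filter.1 hi).2]
      simp
  constructor
  · intro j hj
    rw [e, coeff_X_pow_mul', if_neg (not_le.2 hj)]
  · rw [e, coeff_X_pow_mul', if_pos le_rfl, Nat.sub_self, coeff_zero_eq_eval_zero, eval_prod]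
    simp

theorem pencil_lueck (B : Matrix V V ℤ[X])
    (hB : ∀ y : ℝ, (B.map fun p => (aeval y p : ℝ)).IsHermitian) (S : Finset ℝ)
    (h0 : ∀ g : ℤ[X], ∀ y ∈ S, ∀ y' ∈ S, aeval y g = 0 → aeval y' g = 0)
    (h1 : ∀ g : ℤ[X], (∀ y ∈ S, aeval y g ≠ 0) → 0 ≤ ∑ y ∈ S, Real.log |aeval y g|)
    (Λ τ : ℝ) (hΛ : 1 ≤ Λ) (hτ0 : 0 < τ) (hτ1 : τ < 1)
    (hev : ∀ y ∈ S, ∀ i, |(hB y).eigenvalues i| ≤ Λ) :
    (∀ y ∈ S, ∀ y' ∈ S, nz (hB y) = nz (hB y')) ∧
      (∑ y ∈ S, (nsm (hB y) τ : ℝ)) * Real.log (1 / τ) ≤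
        S.card * Fintype.card V * Real.log Λ := by
  classical
  have hc : ∀ (y : ℝ) (j : ℕ), (B.map fun p => (aeval y p : ℝ)).charpoly.coeff j =
      aeval y (B.charpoly.coeff j) := by
    intro y j
    have := Matrix.charpoly_map B ((aeval y : ℤ[X] →ₐ[ℤ] ℝ) : ℤ[X] →+* ℝ)
    have e : (B.map fun p => (aeval y p : ℝ)) =
        B.map ((aeval y : ℤ[X] →ₐ[ℤ] ℝ) : ℤ[X] →+* ℝ) := rfl
    rw [e, this, coeff_map]
    rfl
  have hne : ∀ y : ℝ, aeval y (B.charpoly.coeff (nz (hB y))) ≠ 0 := by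
    intro y
    rw [← hc, (pe_coeff (hB y)).2]
    exact prod_ne_zero_iff.2 fun i hi => neg_ne_zero.2 (mem_filter.1 hi).2
  have hle : ∀ y ∈ S, ∀ y' ∈ S, nz (hB y) ≤ nz (hB y') := by
    intro y hy y' hy'
    by_contra hlt
    push Not at hlt
    refine hne y' (h0 _ y hy y' hy' ?_)
    rw [← hc]
    exact (pe_coeff (hB y)).1 _ hlt
  have hnz : ∀ y ∈ S, ∀ y' ∈ S, nz (hB y) = nz (hB y') := fun y hy y' hy' =>
    le_antisymm (hle y hy y' hy') (hle y' hy' y hy)
  refine ⟨hnz, ?_⟩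
  rcases S.eq_empty_or_nonempty with rfl | ⟨y0, hy0⟩
  · simp
  have hL : 0 ≤ Real.log Λ := Real.log_nonneg hΛ
  have key := h1 (B.charpoly.coeff (nz (hB y0))) fun y hy => by
    rw [hnz y0 hy0 y hy]; exact hne y
  have hb : ∀ y ∈ S, Real.log |aeval y (B.charpoly.coeff (nz (hB y0)))| ≤
      Fintype.card V * Real.log Λ - (nsm (hB y) τ : ℝ) * Real.log (1 / τ) := by
    intro y hy
    rw [hnz y0 hy0 y hy, ← hc, (pe_coeff (hB y)).2, abs_prod, Real.log_prod (fun i hi =>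
      abs_ne_zero.2 (neg_ne_zero.2 (mem_filter.1 hi).2)), sum_filter]
    have e2 : (nsm (hB y) τ : ℝ) * Real.log (1 / τ) = ∑ i : V,
        if (hB y).eigenvalues i ≠ 0 ∧ |(hB y).eigenvalues i| ≤ τ then Real.log (1 / τ) else 0 := by
      rw [← sum_filter, sum_const, nsmul_eq_mul, nsm]
    have e1 : (Fintype.card V : ℝ) * Real.log Λ = ∑ _i : V, Real.log Λ := by
      rw [sum_const, nsmul_eq_mul, card_univ]
    rw [e1, e2, ← sum_sub_distrib]
    refine sum_le_sum fun i _ => ?_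
    by_cases hz : (hB y).eigenvalues i = 0
    · simp [hz, hL]
    · have hpos : 0 < |(hB y).eigenvalues i| := abs_pos.2 hz
      rw [if_pos hz, abs_neg]
      by_cases hs : |(hB y).eigenvalues i| ≤ τ
      · rw [if_pos ⟨hz, hs⟩, one_div, Real.log_inv]
        have := Real.log_le_log hpos hs
        linarith
      · rw [if_neg fun h => hs h.2, sub_zero]
        exact Real.log_le_log hpos (hev y hy i)
  have := key.trans (sum_le_sum hb)
  rw [sum_sub_distrib, sum_const, nsmul_eq_mul, ← sum_mul] at this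
  linarith

theorem sum_nz_le (B : ℝ → Matrix V V ℝ) (hB : ∀ y, (B y).IsHermitian) (S : Finset ℝ) (γ : ℝ)
    (hγ0 : 0 ≤ γ) (hγ : γ * S.card < 1)
    (horth : ∀ y ∈ S, ∀ y' ∈ S, y ≠ y' → ∀ v w : V → ℝ, B y *ᵥ v = 0 → B y' *ᵥ w = 0 →
      (v ⬝ᵥ w) ^ 2 ≤ γ ^ 2 * ((v ⬝ᵥ v) * (w ⬝ᵥ w))) :
    ∑ y ∈ S, nz (hB y) ≤ Fintype.card V := by
  classical
  let v : (Σ y : S, {i : V // (hB y).eigenvalues i = 0}) → (V → ℝ) :=
    fun p => ((hB p.1).eigenvectorBasis p.2.1).ofLp
  have hli : LinearIndependent ℝ v := by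
    rw [Fintype.linearIndependent_iff]
    intro g hg
    rw [Fintype.sum_sigma] at hg
    set u : S → V → ℝ := fun y => ∑ i : {i : V // (hB y).eigenvalues i = 0}, g ⟨y, i⟩ • v ⟨y, i⟩
      with hu
    have hker : ∀ y : S, B y *ᵥ u y = 0 := by
      intro y
      simp only [hu, mulVec_sum, mulVec_smul]
      refine sum_eq_zero fun i _ => ?_
      have := (hB y).mulVec_eigenvectorBasis i.1
      rw [i.2, zero_smul] at this
      simp only [v]
      rw [this, smul_zero]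
    have ha : ∀ y : S, 0 ≤ u y ⬝ᵥ u y := fun y => sum_nonneg fun _ _ => mul_self_nonneg _
    have h1 : ∑ y : S, ∑ y' : S, u y ⬝ᵥ u y' = 0 := by
      have hg' : ∑ y : S, u y = 0 := hg
      simp only [← dotProduct_sum, hg', dotProduct_zero, sum_const_zero]
    have h2 : ∀ y y' : S, (if y = y' then u y ⬝ᵥ u y else 0) -
        γ / 2 * (u y ⬝ᵥ u y) - γ / 2 * (u y' ⬝ᵥ u y') ≤ u y ⬝ᵥ u y' := by
      intro y y'
      split_ifs with h
      · subst h
        have := mul_nonneg hγ0 (ha y)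
        linarith
      · have h3 := horth y y.2 y' y'.2 (fun e => h (Subtype.ext e)) _ _ (hker y) (hker y')
        have h4 : (u y ⬝ᵥ u y') ^ 2 ≤ (γ / 2 * (u y ⬝ᵥ u y) + γ / 2 * (u y' ⬝ᵥ u y')) ^ 2 := by
          refine h3.trans ?_
          nlinarith [sq_nonneg (γ / 2 * (u y ⬝ᵥ u y) - γ / 2 * (u y' ⬝ᵥ u y'))]
        have h5 := (abs_le_of_sq_le_sq' h4 (by
          have := ha y
          have := ha y'
          positivity)).1
        linarith
    have h3 := sum_le_sum fun (y : S) (_ : y ∈ univ) =>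
      sum_le_sum fun (y' : S) (_ : y' ∈ univ) => h2 y y'
    rw [h1] at h3
    simp only [sum_sub_distrib, sum_ite_eq, mem_univ, if_true, sum_const, card_univ,
      Fintype.card_coe, nsmul_eq_mul, ← mul_sum] at h3
    have h4 : 0 ≤ ∑ y : S, u y ⬝ᵥ u y := sum_nonneg fun y _ => ha y
    have h5 : ∑ y : S, u y ⬝ᵥ u y = 0 := by nlinarith
    rw [sum_eq_zero_iff_of_nonneg fun y _ => ha y] at h5
    rintro ⟨y, i⟩
    have h6 : u y = 0 := dotProduct_self_eq_zero.1 (h5 y (mem_univ y))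
    have h7 : LinearIndependent ℝ fun j : {i : V // (hB y).eigenvalues i = 0} =>
        (hB y).eigenvectorBasis j.1 :=
      (hB y).eigenvectorBasis.orthonormal.linearIndependent.comp _ Subtype.val_injective
    rw [Fintype.linearIndependent_iff] at h7
    refine h7 (fun j => g ⟨y, j⟩) ?_ i
    apply WithLp.ofLp_injective
    simpa [hu, v] using h6
  have := hli.fintype_card_le_finrank
  rw [Module.finrank_fintype_fun_eq_card, Fintype.card_sigma] at this
  refine le_trans (le_of_eq ?_) this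
  rw [← sum_coe_sort S]
  refine sum_congr rfl fun y _ => ?_
  rw [nz, Fintype.card_subtype]

theorem quad_form_le {B : Matrix V V ℝ} (hB : B.IsHermitian) (Λ : ℝ)
    (h : ∀ x, ∑ y, |B x y| ≤ Λ) (v w : V → ℝ) :
    ((B *ᵥ v) ⬝ᵥ w) ^ 2 ≤ Λ ^ 2 * ((v ⬝ᵥ v) * (w ⬝ᵥ w)) := by
  have hs : ∀ x y, B x y = B y x := fun x y => by
    have := hB.apply x y
    simpa using this.symm
  have e : (B *ᵥ v) ⬝ᵥ w = ∑ p : V × V, B p.1 p.2 * v p.2 * w p.1 := by
    rw [Fintype.sum_prod_type]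
    simp only [dotProduct, mulVec, sum_mul]
  have cs := sum_sq_le_sum_mul_sum_of_sq_eq_mul (univ : Finset (V × V))
    (r := fun p => B p.1 p.2 * v p.2 * w p.1) (f := fun p => |B p.1 p.2| * v p.2 ^ 2)
    (g := fun p => |B p.1 p.2| * w p.1 ^ 2) (fun _ _ => by positivity) (fun _ _ => by positivity)
    (fun p _ => by
      have := sq_abs (B p.1 p.2)
      linear_combination (-(v p.2 ^ 2 * w p.1 ^ 2)) * this)
  have b1 : ∑ p : V × V, |B p.1 p.2| * v p.2 ^ 2 ≤ Λ * (v ⬝ᵥ v) := by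
    rw [Fintype.sum_prod_type, sum_comm, dotProduct, mul_sum]
    refine sum_le_sum fun y _ => ?_
    simp only [← sum_mul, ← sq]
    refine mul_le_mul_of_nonneg_right ?_ (sq_nonneg _)
    simp only [fun x => hs x y]
    exact h y
  have b2 : ∑ p : V × V, |B p.1 p.2| * w p.1 ^ 2 ≤ Λ * (w ⬝ᵥ w) := by
    rw [Fintype.sum_prod_type, dotProduct, mul_sum]
    refine sum_le_sum fun y _ => ?_
    simp only [← sum_mul, ← sq]
    exact mul_le_mul_of_nonneg_right (h y) (sq_nonneg _)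
  rw [e]
  refine cs.trans ((mul_le_mul b1 b2 (sum_nonneg fun _ _ => by positivity)
    ((sum_nonneg fun _ _ => by positivity).trans b1)).trans (le_of_eq (by ring)))

theorem eigenvalue_abs_le {B : Matrix V V ℝ} (hB : B.IsHermitian) (Λ : ℝ)
    (h : ∀ x, ∑ y, |B x y| ≤ Λ) (i : V) : |hB.eigenvalues i| ≤ Λ := by
  have hΛ : 0 ≤ Λ := (sum_nonneg fun _ _ => abs_nonneg _).trans (h i)
  have q := quad_form_le hB Λ h (hB.eigenvectorBasis i).ofLp (hB.eigenvectorBasis i).ofLp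
  rw [hB.mulVec_eigenvectorBasis, smul_dotProduct, smul_eq_mul, mul_pow] at q
  have hne : (hB.eigenvectorBasis i).ofLp ⬝ᵥ (hB.eigenvectorBasis i).ofLp ≠ 0 := by
    intro h0
    have h1 := dotProduct_self_eq_zero.1 h0
    exact hB.eigenvectorBasis.orthonormal.ne_zero i (WithLp.ofLp_injective _ (by simpa using h1))
  rw [← sq] at q
  exact abs_le_of_sq_le_sq' (le_of_mul_le_mul_right q (by positivity)) hΛ |> abs_le.2

end Pool.Agent.H170Z.Cage
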