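import Mathlib
import Pool.Agent.H170Z.Cage.Defs

set_option autoImplicit false

namespace Pool.Agent.H170Z.Cage

open Polynomial Finset

section

variable {V : Type} [Fintype V] [DecidableEq V] {c d : ℕ} (I : Inst V c d)

/-- neighbours -/
def r_nb (y : V) : Finset V := univ.filter fun y' => I.G.Adj y y'

theorem r_mem_nb {y y' : V} : y' ∈ r_nb I y ↔ I.G.Adj y y' := by simp [r_nb]

theorem r_card_nb (y : V) : (r_nb I y).card = 10 := I.reg y

/-- the square of the excess matrix -/
def r_K : Matrix V V ℤ := I.E * I.E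

theorem r_K_nonneg (y z : V) : 0 ≤ r_K I y z := by
  rw [r_K, Matrix.mul_apply]
  exact sum_nonneg fun x _ => mul_nonneg (I.E_nonneg _ _) (I.E_nonneg _ _)

theorem r_K_pos {x y z : V} (h1 : 0 < I.E x y) (h2 : 0 < I.E x z) : 0 < r_K I y z := by
  rw [r_K, Matrix.mul_apply]
  refine lt_of_lt_of_le ?_ (single_le_sum (f := fun j => I.E y j * I.E j z)
    (fun j _ => mul_nonneg (I.E_nonneg _ _) (I.E_nonneg _ _)) (mem_univ x))
  rw [I.E_symm y x]
  exact mul_pos h1 h2

theorem r_K_row (y : V) : ∑ z, r_K I y z ≤ (c : ℤ) * c := by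
  simp only [r_K, Matrix.mul_apply]
  rw [sum_comm]
  calc ∑ x, ∑ z, I.E y x * I.E x z = ∑ x, I.E y x * ∑ z, I.E x z := by
        simp only [mul_sum]
    _ ≤ ∑ x, I.E y x * c :=
        sum_le_sum fun x _ => mul_le_mul_of_nonneg_left (I.E_row x) (I.E_nonneg _ _)
    _ = (∑ x, I.E y x) * c := by rw [sum_mul]
    _ ≤ _ := mul_le_mul_of_nonneg_right (I.E_row y) (by positivity)

omit [DecidableEq V] in
theorem r_card_supp (f : V → ℤ) (hf : ∀ z, 0 ≤ f z) (a : ℕ) (h : ∑ z, f z ≤ a) :
    (univ.filter fun z => 0 < f z).card ≤ a := by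
  have h1 : ((univ.filter fun z => 0 < f z).card : ℤ) ≤ ∑ z, f z := by
    calc ((univ.filter fun z => 0 < f z).card : ℤ)
        = ∑ _z ∈ univ.filter fun z => 0 < f z, (1 : ℤ) := by simp
      _ ≤ ∑ z ∈ univ.filter fun z => 0 < f z, f z :=
          sum_le_sum fun z hz => (mem_filter.1 hz).2
      _ ≤ ∑ z, f z := sum_le_sum_of_subset_of_nonneg (filter_subset _ _) fun z _ _ => hf z
  exact_mod_cast h1.trans h

theorem r_card_suppK (y : V) : (univ.filter fun z => 0 < r_K I y z).card ≤ c * c :=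
  r_card_supp _ (r_K_nonneg I y) _ (by exact_mod_cast r_K_row I y)

theorem r_wave (y z : V) : ∑ u ∈ r_nb I y, r_K I u z = ∑ w ∈ r_nb I z, r_K I y w := by
  have h : I.G.adjMatrix ℤ * r_K I = r_K I * I.G.adjMatrix ℤ := by
    rw [r_K, ← mul_assoc, I.E_comm, mul_assoc, I.E_comm, mul_assoc]
  have h1 := congrFun (congrFun h y) z
  rw [SimpleGraph.adjMatrix_mul_apply, SimpleGraph.mul_adjMatrix_apply,
    SimpleGraph.neighborFinset_eq_filter, SimpleGraph.neighborFinset_eq_filter] at h1
  exact h1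

theorem r_step {x y y' : V} (h : I.ρ x y < d) (ha : I.G.Adj y y') :
    I.ρ x y' = I.ρ x y + 1 ∨ I.ρ x y' + 1 = I.ρ x y := by
  have h1 := I.ρ_adj x y y' ha
  have h2 := I.ρ_adj x y' y ha.symm
  have h3 := I.no_side x y y' h ha
  omega

theorem r_children {x y : V} (h : I.ρ x y < d) :
    9 ≤ ((r_nb I y).filter fun y' => I.ρ x y' = I.ρ x y + 1).card := by
  have h1 := card_filter_add_card_filter_not (s := r_nb I y) (fun y' => I.ρ x y' = I.ρ x y + 1)
  have h2 : ((r_nb I y).filter fun y' => ¬ I.ρ x y' = I.ρ x y + 1).card ≤ 1 := by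
    rw [card_le_one]
    intro a ha b hb
    obtain ⟨ha1, ha2⟩ := mem_filter.1 ha
    obtain ⟨hb1, hb2⟩ := mem_filter.1 hb
    rw [r_mem_nb] at ha1 hb1
    have h3 := (r_step I h ha1).resolve_left ha2
    have h4 := (r_step I h hb1).resolve_left hb2
    exact I.par_uniq x y (I.ρ x a) a b h3.symm (by omega) ha1 hb1 rfl (by omega)
  rw [r_card_nb] at h1
  omega

open Classical in
/-- rows with a support point at distance in `[t, R]` -/
noncomputable def r_U (t R : ℕ) : Finset V :=
  univ.filter fun y => ∃ z, 0 < r_K I y z ∧ t ≤ I.ρ y z ∧ I.ρ y z ≤ R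

theorem r_mem_U {t R : ℕ} {y : V} :
    y ∈ r_U I t R ↔ ∃ z, 0 < r_K I y z ∧ t ≤ I.ρ y z ∧ I.ρ y z ≤ R := by
  simp [r_U]

theorem r_nine {t R : ℕ} (hR : R + 1 < d) {y : V} (hy : y ∈ r_U I t (R + 1))
    (hb : y ∉ r_U I R (R + 1)) :
    9 ≤ ((r_U I t (R + 1)).filter fun y' => I.G.Adj y y').card := by
  obtain ⟨z, hz, h1, h2⟩ := (r_mem_U I).1 hy
  have h3 : I.ρ y z < R := by
    by_contra h
    exact hb ((r_mem_U I).2 ⟨z, hz, by omega, h2⟩)
  have h4 : I.ρ z y < d := by rw [I.ρ_symm]; omega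
  refine (r_children I h4).trans (card_le_card fun y' hy' => ?_)
  obtain ⟨ha, hd⟩ := mem_filter.1 hy'
  rw [r_mem_nb] at ha
  refine mem_filter.2 ⟨?_, ha⟩
  have h5 : 0 < ∑ u ∈ r_nb I y', r_K I u z :=
    hz.trans_le (single_le_sum (f := fun u => r_K I u z) (fun u _ => r_K_nonneg I u z)
      ((r_mem_nb I).2 ha.symm))
  rw [r_wave] at h5
  obtain ⟨w, hw, hw'⟩ : ∃ w ∈ r_nb I z, 0 < r_K I y' w := by
    by_contra hcon
    push Not at hcon
    exact absurd h5 (not_lt.2 (sum_nonpos hcon))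
  rw [r_mem_nb] at hw
  rw [I.ρ_symm z y', I.ρ_symm z y] at hd
  have h6 := r_step I (x := y') (y := z) (by omega) hw
  exact (r_mem_U I).2 ⟨w, hw', by omega, by omega⟩

theorem r_mix (hM : I.Mix) {t R : ℕ} (hR : R + 1 < d)
    (h : 5 * (r_U I t (R + 1)).card ≤ Fintype.card V) :
    (r_U I t (R + 1)).card ≤ 9 * (r_U I R (R + 1)).card := by
  have h1 := hM _ h
  have h2 : ∑ _y ∈ r_U I t (R + 1) \ r_U I R (R + 1), 9 ≤
      ∑ y ∈ r_U I t (R + 1), ((r_U I t (R + 1)).filter fun y' => I.G.Adj y y').card := by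
    refine le_trans (sum_le_sum fun y hy => ?_) (sum_le_sum_of_subset sdiff_subset)
    exact r_nine I hR (mem_sdiff.1 hy).1 (mem_sdiff.1 hy).2
  rw [sum_const, smul_eq_mul] at h2
  have h3 := le_card_sdiff (r_U I R (R + 1)) (r_U I t (R + 1))
  omega

/-- iterated neighbourhoods -/
def r_X (W : Finset V) : ℕ → Finset V
  | 0 => W
  | k + 1 => r_X W k ∪ (r_X W k).biUnion (r_nb I)

theorem r_X_card (W : Finset V) (k : ℕ) : (r_X I W k).card ≤ 11 ^ k * W.card := by
  induction k with
  | zero => simp [r_X]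
  | succ k ih =>
    have h1 : ((r_X I W k).biUnion (r_nb I)).card ≤ (r_X I W k).card * 10 :=
      card_biUnion_le_card_mul _ _ _ fun a _ => (r_card_nb I a).le
    have h2 := card_union_le (r_X I W k) ((r_X I W k).biUnion (r_nb I))
    change (r_X I W k ∪ (r_X I W k).biUnion (r_nb I)).card ≤ _
    rw [pow_succ]
    nlinarith

theorem r_X_sub (W : Finset V) (k : ℕ) : W ⊆ r_X I W k := by
  induction k with
  | zero => exact Subset.refl _
  | succ k ih => exact ih.trans subset_union_left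

theorem r_X_adj (W : Finset V) (k : ℕ) {u u' : V} (hu : u ∈ r_X I W k) (ha : I.G.Adj u u') :
    u' ∈ r_X I W (k + 1) :=
  mem_union_right _ (mem_biUnion.2 ⟨u, hu, (r_mem_nb I).2 ha⟩)

theorem r_path (y z : V) (hd : I.ρ z y ≤ d) : ∃ v : ℕ → V, v 0 = y ∧
    ∀ j, j ≤ I.ρ z y → I.ρ z (v j) + j = I.ρ z y ∧ (j < I.ρ z y → I.G.Adj (v j) (v (j + 1))) := by
  have hex : ∀ u : V, ∃ u', 0 < I.ρ z u → I.ρ z u ≤ d →
      I.G.Adj u u' ∧ I.ρ z u' + 1 = I.ρ z u := by
    intro u
    by_cases h : 0 < I.ρ z u ∧ I.ρ z u ≤ d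
    · obtain ⟨u', h1, h2⟩ := I.par_ex z u (I.ρ z u - 1) (by omega) (by omega)
      exact ⟨u', fun _ _ => ⟨h1, by omega⟩⟩
    · exact ⟨u, fun h1 h2 => absurd ⟨h1, h2⟩ h⟩
  choose par hpar using hex
  have key : ∀ j, j ≤ I.ρ z y → I.ρ z (par^[j] y) + j = I.ρ z y := by
    intro j
    induction j with
    | zero => intro _; rfl
    | succ j ih =>
      intro hj
      have h1 := ih (by omega)
      rw [Function.iterate_succ_apply']
      have h2 := (hpar (par^[j] y) (by omega) (by omega)).2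
      omega
  refine ⟨fun j => par^[j] y, rfl, fun j hj => ⟨key j hj, fun hj' => ?_⟩⟩
  have h1 := key j hj
  change I.G.Adj (par^[j] y) (par^[j + 1] y)
  rw [Function.iterate_succ_apply']
  exact (hpar (par^[j] y) (by omega) (by omega)).1

theorem r_grow {t R : ℕ} (ht : c * c ≤ t) (htR : t + 2 ≤ R) (hR : R < d) :
    r_U I t R ⊆ r_X I (r_U I (t + 1) R) (c * c) := by
  classical
  intro y hy
  by_contra hX
  obtain ⟨z, hz, h1, h2⟩ := (r_mem_U I).1 hy
  have hyz : I.ρ z y = t := by
    rw [I.ρ_symm]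
    by_contra h
    exact hX (r_X_sub I _ _ ((r_mem_U I).2 ⟨z, hz, by omega, h2⟩))
  obtain ⟨v, hv0, hv⟩ := r_path I y z (by omega)
  rw [hyz] at hv
  set M := c * c with hM
  set W := r_U I (t + 1) R with hW
  have hvX : ∀ j k, j + k = M → v j ∉ r_X I W k := by
    intro j
    induction j with
    | zero =>
      intro k hk
      rw [hv0, show k = M by omega]
      exact hX
    | succ j ih =>
      intro k hk h
      exact ih (k + 1) (by omega) (r_X_adj I W k h ((hv j (by omega)).2 (by omega)).symm)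
  have hnb : ∀ s u, s < M → I.G.Adj (v s) u → u ∉ W := by
    intro s u hs ha h
    exact hvX s (M - s - 1 + 1) (by omega) (r_X_adj I W _ (r_X_sub I W _ h) ha.symm)
  have hlip : ∀ w s k, s + k ≤ M → I.ρ w (v s) ≤ I.ρ w (v (s + k)) + k := by
    intro w s k
    induction k with
    | zero => intro _; exact le_rfl
    | succ k ih =>
      intro hk
      have h3 := ih (by omega)
      have h4 := I.ρ_adj w _ _ ((hv (s + k) (by omega)).2 (by omega)).symm
      change I.ρ w (v s) ≤ I.ρ w (v (s + k + 1)) + (k + 1)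
      omega
  let S : ℕ → Finset V := fun s => univ.filter fun w => 0 < r_K I (v s) w ∧
    ∀ j, s ≤ j → j ≤ M → I.ρ (v j) w + j = t + s
  have hS : ∀ s, s ≤ M → s + 1 ≤ (S s).card := by
    intro s
    induction s with
    | zero =>
      intro _
      refine card_pos.2 ⟨z, mem_filter.2 ⟨mem_univ _, by rw [hv0]; exact hz, fun j _ hj => ?_⟩⟩
      rw [I.ρ_symm]
      exact (hv j (by omega)).1
    | succ s ih =>
      intro hs
      have ih' := ih (by omega)
      let ch : V → Finset V := fun w => (r_nb I w).filter fun w' => I.ρ (v s) w' = t + 1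
      have hdist : ∀ w ∈ S s, I.ρ (v s) w = t := by
        intro w hw
        have := (mem_filter.1 hw).2.2 s le_rfl (by omega)
        omega
      have hsub : (S s).biUnion ch ⊆ S (s + 1) := by
        intro w' hw'
        obtain ⟨w, hw, hw'⟩ := mem_biUnion.1 hw'
        obtain ⟨ha, hd⟩ := mem_filter.1 hw'
        rw [r_mem_nb] at ha
        obtain ⟨-, hK, hρ⟩ := mem_filter.1 hw
        have hρ' : ∀ j, s + 1 ≤ j → j ≤ M → I.ρ (v j) w' + j = t + (s + 1) := by
          intro j hj1 hj2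
          have h3 := hρ j (by omega) hj2
          have h4 := I.ρ_adj (v j) w w' ha
          have h5 := hlip w' s (j - s) (by omega)
          rw [show s + (j - s) = j by omega, I.ρ_symm w' (v s), I.ρ_symm w' (v j)] at h5
          omega
        refine mem_filter.2 ⟨mem_univ _, ?_, hρ'⟩
        have h5 : 0 < ∑ u ∈ r_nb I w', r_K I (v s) u :=
          hK.trans_le (single_le_sum (f := fun u => r_K I (v s) u)
            (fun u _ => r_K_nonneg I _ u) ((r_mem_nb I).2 ha.symm))
        rw [← r_wave] at h5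
        obtain ⟨u, hu, hu'⟩ : ∃ u ∈ r_nb I (v s), 0 < r_K I u w' := by
          by_contra hcon
          push Not at hcon
          exact absurd h5 (not_lt.2 (sum_nonpos hcon))
        rw [r_mem_nb] at hu
        have hd' : I.ρ w' (v s) = t + 1 := by rw [I.ρ_symm]; exact hd
        have h6 := r_step I (x := w') (y := v s) (by omega) hu
        have h7 : I.ρ w' u = t := by
          rcases h6 with h6 | h6
          · exfalso
            refine hnb s u (by omega) hu ((r_mem_U I).2 ⟨w', hu', ?_, ?_⟩) <;>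
              rw [I.ρ_symm] <;> omega
          · omega
        have h8 : I.ρ w' (v (s + 1)) = t := by
          have := hρ' (s + 1) le_rfl hs
          rw [I.ρ_symm]
          omega
        have h9 := I.par_uniq w' (v s) t u (v (s + 1)) hd' (by omega) hu
          ((hv s (by omega)).2 (by omega)) h7 h8
        rw [← h9]
        exact hu'
      have hdis : ((S s : Finset V) : Set V).PairwiseDisjoint ch := by
        intro a ha b hb hab
        rw [Function.onFun, disjoint_left]
        intro w' h3 h4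
        obtain ⟨h5, h6⟩ := mem_filter.1 h3
        obtain ⟨h7, -⟩ := mem_filter.1 h4
        rw [r_mem_nb] at h5 h7
        exact hab (I.par_uniq (v s) w' t a b h6 (by omega) h5.symm h7.symm (hdist a ha)
          (hdist b hb))
      have hcard := card_le_card hsub
      rw [card_biUnion hdis] at hcard
      have h9 : ∑ _w ∈ S s, 9 ≤ ∑ w ∈ S s, (ch w).card := by
        refine sum_le_sum fun w hw => ?_
        have h3 := r_children I (x := v s) (y := w) (by rw [hdist w hw]; omega)
        rw [hdist w hw] at h3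
        exact h3
      rw [sum_const, smul_eq_mul] at h9
      omega
  have h3 := hS M le_rfl
  have h4 : (S M).card ≤ c * c :=
    le_trans (card_le_card fun w hw => mem_filter.2 ⟨mem_univ _, (mem_filter.1 hw).2.1⟩)
      (r_card_suppK I (v M))
  omega

theorem r_down (hM : I.Mix) {R : ℕ} (hR : R + 1 < d)
    (h : 5 * (11 ^ (c * c) * (9 * (r_U I R (R + 1)).card)) ≤ Fintype.card V) :
    ∀ k t, t + k = R → c * c ≤ t → (r_U I t (R + 1)).card ≤ 9 * (r_U I R (R + 1)).card := by
  intro k
  induction k with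
  | zero =>
    intro t ht _
    rw [show t = R by omega]
    omega
  | succ k ih =>
    intro t ht hc
    have h1 := ih (t + 1) (by omega) (by omega)
    have h2 := (card_le_card (r_grow I (t := t) (R := R + 1) hc (by omega) hR)).trans
      (r_X_card I _ _)
    refine r_mix I hM hR (le_trans (Nat.mul_le_mul_left _ (h2.trans ?_)) h)
    exact Nat.mul_le_mul_left _ h1

theorem r_sum_levels (a L : ℕ) :
    ∑ k ∈ range L, (r_U I (a + k) (a + k)).card ≤ c * c * Fintype.card V := by
  classical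
  have h1 : ∀ y, ((range L).filter fun k => y ∈ r_U I (a + k) (a + k)).card ≤ c * c := by
    intro y
    refine le_trans ?_ (r_card_suppK I y)
    refine le_trans (card_le_card (t := (univ.filter fun z => 0 < r_K I y z).image
      fun z => I.ρ y z - a) fun k hk => ?_) card_image_le
    obtain ⟨z, hz, h2, h3⟩ := (r_mem_U I).1 (mem_filter.1 hk).2
    exact mem_image.2 ⟨z, mem_filter.2 ⟨mem_univ _, hz⟩, by omega⟩
  calc ∑ k ∈ range L, (r_U I (a + k) (a + k)).card
      = ∑ k ∈ range L, ∑ y : V, if y ∈ r_U I (a + k) (a + k) then 1 else 0 := by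
        refine sum_congr rfl fun k _ => ?_
        rw [← card_filter]
        simp
    _ = ∑ y : V, ((range L).filter fun k => y ∈ r_U I (a + k) (a + k)).card := by
        rw [sum_comm]
        exact sum_congr rfl fun y _ => (card_filter _ _).symm
    _ ≤ ∑ _y : V, c * c := sum_le_sum fun y _ => h1 y
    _ = _ := by simp [mul_comm]

theorem r_pigeon (a L : ℕ) (hL : 0 < L) : ∃ k < L,
    L * (r_U I (a + k) (a + k + 1)).card ≤ 2 * (c * c * Fintype.card V) := by
  by_contra hcon
  push Not at hcon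
  have h1 : ∀ k, (r_U I (a + k) (a + k + 1)).card ≤
      (r_U I (a + k) (a + k)).card + (r_U I (a + 1 + k) (a + 1 + k)).card := by
    intro k
    refine le_trans (card_le_card fun y hy => ?_) (card_union_le _ _)
    obtain ⟨z, hz, h2, h3⟩ := (r_mem_U I).1 hy
    by_cases h : I.ρ y z = a + k
    · exact mem_union_left _ ((r_mem_U I).2 ⟨z, hz, by omega, by omega⟩)
    · exact mem_union_right _ ((r_mem_U I).2 ⟨z, hz, by omega, by omega⟩)
  have h2 : ∑ k ∈ range L, (r_U I (a + k) (a + k + 1)).card ≤ 2 * (c * c * Fintype.card V) := by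
    refine (sum_le_sum fun k _ => h1 k).trans ?_
    rw [sum_add_distrib]
    have h3 := r_sum_levels I a L
    have h4 := r_sum_levels I (a + 1) L
    omega
  have h3 : ∑ _k ∈ range L, 2 * (c * c * Fintype.card V) <
      ∑ k ∈ range L, L * (r_U I (a + k) (a + k + 1)).card :=
    sum_lt_sum_of_nonempty (nonempty_range_iff.2 hL.ne') fun k hk => hcon k (mem_range.1 hk)
  rw [sum_const, card_range, smul_eq_mul, ← mul_sum] at h3
  exact absurd (Nat.mul_le_mul_left L h2) (not_le.2 h3)

open Classical in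
theorem r_noncl (m R R' : ℕ) (h : R ≤ R') :
    (univ.filter fun x => ¬ I.Clustered m R x).card ≤ (r_U I m R').card * c := by
  refine le_trans (card_le_card (t := (r_U I m R').biUnion
    fun y => univ.filter fun x => 0 < I.E y x) fun x hx => ?_)
    (card_biUnion_le_card_mul _ _ _ fun y _ => r_card_supp _ (I.E_nonneg y) _ (I.E_row y))
  have h1 := (mem_filter.1 hx).2
  unfold Inst.Clustered at h1
  push Not at h1
  obtain ⟨y, z, hy, hz, h2, h3⟩ := h1
  refine mem_biUnion.2 ⟨y, (r_mem_U I).2 ⟨z, r_K_pos I hy hz, h2, h3.trans h⟩, ?_⟩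
  rw [mem_filter, I.E_symm]
  exact ⟨mem_univ _, hy⟩

end

open Classical in
theorem rare (c : ℕ) : ∃ m : ℕ, 1 ≤ m ∧ ∀ (R : ℕ) (β : ℝ), 0 < β → ∃ d₀ : ℕ, ∀ d : ℕ, d₀ ≤ d →
    ∀ (V : Type) [Fintype V] [DecidableEq V] (I : Inst V c d), I.Mix →
      ((univ.filter fun x => ¬ I.Clustered m R x).card : ℝ) ≤ β * Fintype.card V := by
  refine ⟨c * c + 1, by omega, fun R β hβ => ?_⟩
  obtain ⟨L₀, hL₀⟩ := exists_nat_ge (18 * (c : ℝ) ^ 3 / β)
  set L : ℕ := L₀ + 90 * 11 ^ (c * c) * (c * c) + 1 with hL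
  refine ⟨R + c * c + 1 + L + 2, fun d hd V _ _ I hM => ?_⟩
  obtain ⟨k, hk, hb⟩ := r_pigeon I (R + c * c + 1) L (by omega)
  set T := R + c * c + 1 + k with hT
  set b := (r_U I T (T + 1)).card with hbdef
  set n := Fintype.card V with hn
  have h1 : 5 * (11 ^ (c * c) * (9 * b)) ≤ n := by
    have h2 : L * (5 * (11 ^ (c * c) * (9 * b))) ≤ L * n := by
      calc L * (5 * (11 ^ (c * c) * (9 * b))) = 45 * 11 ^ (c * c) * (L * b) := by ring
        _ ≤ 45 * 11 ^ (c * c) * (2 * (c * c * n)) := Nat.mul_le_mul_left _ hb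
        _ = (90 * 11 ^ (c * c) * (c * c)) * n := by ring
        _ ≤ L * n := Nat.mul_le_mul_right _ (by omega)
    exact Nat.le_of_mul_le_mul_left h2 (by omega)
  have h2 := r_down I hM (R := T) (by omega) h1 (R + k) (c * c + 1) (by omega) (by omega)
  have h3 := r_noncl I (c * c + 1) R (T + 1) (by omega)
  have h4 : (univ.filter fun x => ¬ I.Clustered (c * c + 1) R x).card ≤ 9 * b * c :=
    h3.trans (Nat.mul_le_mul_right _ h2)
  have h5 : ((univ.filter fun x => ¬ I.Clustered (c * c + 1) R x).card : ℝ) ≤ 9 * b * c := by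
    exact_mod_cast h4
  refine h5.trans ?_
  have h6 : (L : ℝ) * b ≤ 2 * (c * c * n) := by exact_mod_cast hb
  have hLpos : (0 : ℝ) < L := by exact_mod_cast (show 0 < L by omega)
  have h7 : 18 * (c : ℝ) ^ 3 ≤ β * L := by
    rw [div_le_iff₀ hβ] at hL₀
    have : (L₀ : ℝ) ≤ L := by exact_mod_cast (show L₀ ≤ L by omega)
    nlinarith
  have hc : (0 : ℝ) ≤ c := by positivity
  have hn0 : (0 : ℝ) ≤ n := by positivity
  have h8 : (L : ℝ) * (9 * b * c) ≤ L * (β * n) := by
    calc (L : ℝ) * (9 * b * c) = 9 * c * (L * b) := by ring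
      _ ≤ 9 * c * (2 * (c * c * n)) := by gcongr
      _ = (18 * (c : ℝ) ^ 3) * n := by ring
      _ ≤ (β * L) * n := by gcongr
      _ = L * (β * n) := by ring
  exact le_of_mul_le_mul_left h8 hLpos

end Pool.Agent.H170Z.Cage
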