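import Mathlib
import Pool.Agent.H170Z.Cage.SDefs
import Pool.Agent.H170Z.Cage.Tree
import Pool.Agent.H170Z.Cage.Pencil

set_option autoImplicit false

namespace Pool.Agent.H170Z.Cage

open Polynomial Finset Matrix

variable {V : Type} [Fintype V] [DecidableEq V] {c d : ℕ}

namespace Inst

variable (I : Inst V c d)

/-- eigenvectors -/
noncomputable def s_v (i : V) : V → ℝ := (I.AR_herm.eigenvectorBasis i).ofLp

lemma s_eig (i : V) : I.AR *ᵥ I.s_v i = I.θ i • I.s_v i :=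
  I.AR_herm.mulVec_eigenvectorBasis i

lemma s_orth (i j : V) : I.s_v i ⬝ᵥ I.s_v j = if i = j then 1 else 0 := by
  have h := orthonormal_iff_ite.1 I.AR_herm.eigenvectorBasis.orthonormal j i
  rw [EuclideanSpace.inner_eq_star_dotProduct] at h
  simp only [star_trivial] at h
  rw [s_v, s_v, h]
  simp [eq_comm]

lemma s_comp (x y : V) : ∑ i, I.s_v i x * I.s_v i y = if x = y then 1 else 0 := by
  let M : Matrix V V ℝ := Matrix.of fun i x => I.s_v i x
  have h1 : M * Mᵀ = 1 := by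
    ext i j
    rw [Matrix.mul_apply, Matrix.one_apply, ← I.s_orth i j]
    rfl
  have h2 : Mᵀ * M = 1 := mul_eq_one_comm.1 h1
  have := congrFun (congrFun h2 x) y
  rw [Matrix.mul_apply, Matrix.one_apply] at this
  exact this

/-- simultaneous diagonalisation -/
def s_Dg (X : Matrix V V ℝ) (ξ : V → ℝ) : Prop := ∀ i, X *ᵥ I.s_v i = ξ i • I.s_v i

variable {I}

lemma s_Dg.entry {X : Matrix V V ℝ} {ξ : V → ℝ} (h : I.s_Dg X ξ) (x y : V) :
    X x y = ∑ i, ξ i * I.s_v i x * I.s_v i y := by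
  have e : X x y = ∑ z, X x z * ∑ i, I.s_v i z * I.s_v i y := by
    simp only [I.s_comp]
    simp
  rw [e]
  simp only [Finset.mul_sum]
  rw [Finset.sum_comm]
  refine Finset.sum_congr rfl fun i _ => ?_
  have := congrFun (h i) x
  simp only [Matrix.mulVec, dotProduct, Pi.smul_apply, smul_eq_mul] at this
  rw [← this, Finset.sum_mul]
  exact Finset.sum_congr rfl fun z _ => by ring

lemma s_Dg.trace {X : Matrix V V ℝ} {ξ : V → ℝ} (h : I.s_Dg X ξ) : X.trace = ∑ i, ξ i := by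
  simp only [Matrix.trace, Matrix.diag, h.entry]
  rw [Finset.sum_comm]
  refine Finset.sum_congr rfl fun i _ => ?_
  have := I.s_orth i i
  simp only [dotProduct, if_true] at this
  simp only [mul_assoc]
  rw [← Finset.mul_sum, this, mul_one]

lemma s_Dg.herm {X : Matrix V V ℝ} {ξ : V → ℝ} (h : I.s_Dg X ξ) : X.IsHermitian := by
  ext x y
  simp only [Matrix.conjTranspose_apply, star_trivial, h.entry]
  exact Finset.sum_congr rfl fun i _ => by ring

lemma s_Dg.eq {X Y : Matrix V V ℝ} {ξ ξ' : V → ℝ} (h : I.s_Dg X ξ) (h' : I.s_Dg Y ξ')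
    (e : ∀ i, ξ i = ξ' i) : X = Y := by
  ext x y
  rw [h.entry, h'.entry]
  simp only [e]

lemma s_Dg.add {X Y : Matrix V V ℝ} {ξ ξ' : V → ℝ} (h : I.s_Dg X ξ) (h' : I.s_Dg Y ξ') :
    I.s_Dg (X + Y) (fun i => ξ i + ξ' i) := fun i => by
  rw [Matrix.add_mulVec, h i, h' i, add_smul]

lemma s_Dg.sub {X Y : Matrix V V ℝ} {ξ ξ' : V → ℝ} (h : I.s_Dg X ξ) (h' : I.s_Dg Y ξ') :
    I.s_Dg (X - Y) (fun i => ξ i - ξ' i) := fun i => by
  rw [Matrix.sub_mulVec, h i, h' i, sub_smul]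

lemma s_Dg.mul {X Y : Matrix V V ℝ} {ξ ξ' : V → ℝ} (h : I.s_Dg X ξ) (h' : I.s_Dg Y ξ') :
    I.s_Dg (X * Y) (fun i => ξ i * ξ' i) := fun i => by
  rw [← Matrix.mulVec_mulVec, h' i, Matrix.mulVec_smul, h i, smul_smul, mul_comm]

lemma s_Dg.smul {X : Matrix V V ℝ} {ξ : V → ℝ} (h : I.s_Dg X ξ) (a : ℝ) :
    I.s_Dg (a • X) (fun i => a * ξ i) := fun i => by
  rw [Matrix.smul_mulVec, h i, smul_smul]

lemma s_Dg_one : I.s_Dg 1 (fun _ => 1) := fun i => by simp

lemma s_Dg.pow {X : Matrix V V ℝ} {ξ : V → ℝ} (h : I.s_Dg X ξ) (j : ℕ) :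
    I.s_Dg (X ^ j) (fun i => ξ i ^ j) := by
  induction j with
  | zero => simpa using s_Dg_one
  | succ j ih => simpa [pow_succ] using ih.mul h

lemma s_Dg_sum {ι : Type} (s : Finset ι) (X : ι → Matrix V V ℝ) (ξ : ι → V → ℝ)
    (h : ∀ a ∈ s, I.s_Dg (X a) (ξ a)) : I.s_Dg (∑ a ∈ s, X a) (fun i => ∑ a ∈ s, ξ a i) := by
  intro i
  rw [Matrix.sum_mulVec, Finset.sum_smul]
  exact Finset.sum_congr rfl fun a ha => h a ha i

lemma s_bound {X : Matrix V V ℝ} (hX : X.IsHermitian) {Λ t : ℝ} (h : ∀ x, ∑ y, |X x y| ≤ Λ)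
    {w : V → ℝ} (hw : X *ᵥ w = t • w) (hne : w ≠ 0) : |t| ≤ Λ := by
  obtain ⟨x, hx⟩ := Function.ne_iff.1 hne
  have hΛ : 0 ≤ Λ := (sum_nonneg fun _ _ => abs_nonneg _).trans (h x)
  have q := quad_form_le hX Λ h w w
  rw [hw, smul_dotProduct, smul_eq_mul, mul_pow] at q
  have hp : 0 < w ⬝ᵥ w := by
    rcases (dotProduct_self_star_nonneg w).lt_or_eq with h1 | h1
    · simpa using h1
    · exfalso
      apply hne
      simp only [star_trivial] at h1
      exact dotProduct_self_eq_zero.1 h1.symm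
  have : t ^ 2 ≤ Λ ^ 2 := by
    have h2 : 0 < (w ⬝ᵥ w) ^ 2 := by positivity
    have : t ^ 2 * (w ⬝ᵥ w) ^ 2 ≤ Λ ^ 2 * (w ⬝ᵥ w) ^ 2 := by nlinarith
    exact le_of_mul_le_mul_right this h2
  exact abs_le_of_sq_le_sq' this hΛ |> fun h => abs_le.2 h

variable (I)

lemma s_v_ne (i : V) : I.s_v i ≠ 0 := by
  intro h
  have := I.s_orth i i
  rw [h] at this
  simp at this

/-- real form of a polynomial in the adjacency matrix -/
noncomputable def s_PR (p : ℤ[X]) : Matrix V V ℝ := (aeval I.A p).map (fun z => (z : ℝ))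

lemma s_PR_mulVec (p : ℤ[X]) {w : V → ℝ} {t : ℝ} (h : I.AR *ᵥ w = t • w) :
    I.s_PR p *ᵥ w = (aeval t p : ℝ) • w := by
  have hφ : ∀ M : Matrix V V ℤ, M.map (fun z => (z : ℝ)) = (Int.castRingHom ℝ).mapMatrix M :=
    fun M => rfl
  have hp : ∀ m : ℕ, I.AR ^ m *ᵥ w = t ^ m • w := by
    intro m
    induction m with
    | zero => simp
    | succ m ih => rw [pow_succ, ← Matrix.mulVec_mulVec, h, Matrix.mulVec_smul, ih, smul_smul,
        pow_succ, mul_comm]
  unfold s_PR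
  induction p using Polynomial.induction_on' with
  | add p q hp hq =>
    rw [map_add, map_add, hφ, map_add, ← hφ, ← hφ, Matrix.add_mulVec, hp, hq, add_smul]
  | monomial m a =>
    rw [aeval_monomial, aeval_monomial, hφ, map_mul, map_pow, ← hφ I.A]
    have : (Int.castRingHom ℝ).mapMatrix ((algebraMap ℤ (Matrix V V ℤ)) a) =
        (a : ℝ) • (1 : Matrix V V ℝ) := by
      simp
      ext x y
      by_cases hxy : x = y <;> simp [hxy, Matrix.intCast_apply]
    rw [this, smul_mul_assoc, one_mul, Matrix.smul_mulVec]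
    change (a : ℝ) • (I.AR ^ m *ᵥ w) = _
    rw [hp, smul_smul]
    simp

lemma s_Dg_PR (p : ℤ[X]) : I.s_Dg (I.s_PR p) (fun i => aeval (I.θ i) p) :=
  fun i => I.s_PR_mulVec p (I.s_eig i)

lemma s_Dg_AR : I.s_Dg I.AR I.θ := I.s_eig

lemma s_Dg_NR (a : ℕ) : I.s_Dg (I.NR a) (fun i => Fr a (I.θ i)) := I.s_Dg_PR (Fp a)

lemma s_AR_apply (x y : V) : I.AR x y = if I.G.Adj x y then 1 else 0 := by
  simp [AR, A_apply]

lemma s_AR_row (x : V) : ∑ y, I.AR x y = 10 := by
  simp only [s_AR_apply]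
  rw [← Finset.sum_filter]
  simp [I.reg x]

lemma s_AR_symm (x y : V) : I.AR x y = I.AR y x := by
  simp only [s_AR_apply, SimpleGraph.adj_comm]

lemma s_AR_const (a : ℝ) : I.AR *ᵥ (fun _ => a) = (10 : ℝ) • (fun _ => a) := by
  funext x
  simp only [Matrix.mulVec, dotProduct, Pi.smul_apply, smul_eq_mul]
  rw [← Finset.sum_mul, s_AR_row]

lemma s_ER_apply (x y : V) : I.ER x y = (I.κ : ℝ) - I.s_PR (Pp I.κ d) x y := by
  have := I.E_eq x y
  simp only [ER, s_PR, Matrix.map_apply, Inst.A, this]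
  push_cast
  ring

lemma s_ER_mulVec {w : V → ℝ} {t : ℝ} (h : I.AR *ᵥ w = t • w) (x : V) :
    (I.ER *ᵥ w) x = (I.κ : ℝ) * ∑ y, w y - Pr I.κ d t * w x := by
  have := congrFun (I.s_PR_mulVec (Pp I.κ d) h) x
  simp only [Matrix.mulVec, dotProduct, Pi.smul_apply, smul_eq_mul] at this ⊢
  simp only [s_ER_apply, sub_mul, Finset.sum_sub_distrib, this, Finset.mul_sum, Pr]

lemma s_ER_herm : I.ER.IsHermitian := by
  ext x y
  simp [ER, I.E_symm y x]

lemma s_ER_nonneg (x y : V) : 0 ≤ I.ER x y := by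
  simp only [ER, Matrix.map_apply]
  exact_mod_cast I.E_nonneg x y

lemma s_ER_row (x : V) : ∑ y, I.ER x y ≤ c := by
  simp only [ER, Matrix.map_apply]
  exact_mod_cast I.E_row x

lemma s_ER_abs (x : V) : ∑ y, |I.ER x y| ≤ c := by
  simp only [abs_of_nonneg (I.s_ER_nonneg _ _)]
  exact I.s_ER_row x

lemma s_sum_zero {i : V} (h : I.θ i ≠ 10) : ∑ y, I.s_v i y = 0 := by
  have h1 : ∑ x, (I.AR *ᵥ I.s_v i) x = 10 * ∑ y, I.s_v i y := by
    simp only [Matrix.mulVec, dotProduct]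
    rw [Finset.sum_comm, Finset.mul_sum]
    refine Finset.sum_congr rfl fun y _ => ?_
    rw [← Finset.sum_mul]
    simp only [I.s_AR_symm _ y, s_AR_row]
  rw [s_eig] at h1
  simp only [Pi.smul_apply, smul_eq_mul] at h1
  rw [← Finset.mul_sum] at h1
  have : (I.θ i - 10) * ∑ y, I.s_v i y = 0 := by linarith
  rcases mul_eq_zero.1 this with h2 | h2
  · exact absurd (by linarith) h
  · exact h2

lemma s_Sz_ge (hd : 1 ≤ d) : (9 : ℝ) ^ d ≤ Sz d := by
  obtain ⟨e, rfl⟩ : ∃ e, d = e + 1 := ⟨d - 1, by omega⟩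
  simp only [Sz, pow_succ]
  push_cast
  have : (0 : ℝ) < 9 ^ e := by positivity
  linarith

lemma s_kap_le (hd : 1 ≤ d) : kap I.κ d d ≤ 1 / 9 ^ d :=
  (kap_le I.hκ le_rfl).trans (one_div_le_one_div_of_le (by positivity) (s_Sz_ge hd))

lemma s_H01 (x y : V) : ∀ j, j < d →
    (aeval I.A (Hp j)) x y = 0 ∨ ((aeval I.A (Hp j)) x y = 1 ∧ I.ρ x y ≤ j) := by
  intro j
  induction j using Nat.twoStepInduction with
  | zero =>
    intro h
    have := I.N_apply h x y
    simp only [Inst.N, Fp] at this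
    simp only [Hp]
    rw [this]
    split_ifs with h1
    · right; exact ⟨rfl, h1.le⟩
    · left; rfl
  | one =>
    intro h
    have := I.N_apply h x y
    simp only [Inst.N, Fp] at this
    simp only [Hp]
    rw [this]
    split_ifs with h1
    · right; exact ⟨rfl, h1.le⟩
    · left; rfl
  | more j ih _ =>
    intro h
    have h1 := I.N_apply h x y
    simp only [Inst.N, Fp, map_sub, Matrix.sub_apply] at h1
    rcases ih (by omega) with h2 | ⟨h2, h3⟩
    · rw [h2, sub_zero] at h1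
      rw [h1]
      split_ifs with h4
      · right; exact ⟨rfl, h4.le⟩
      · left; rfl
    · rw [if_neg (by omega), h2] at h1
      right
      exact ⟨by linarith, by omega⟩

lemma s_N_zero {i : ℕ} (hi : i ≤ d) {x z : V} (h : I.ρ x z ≠ i) : I.NR i x z = 0 := by
  simp only [NR, Matrix.map_apply]
  rcases hi.lt_or_eq with h1 | rfl
  · rw [I.N_apply h1, if_neg h]; simp
  · have := (I.N_top x z).2.2 h
    simp only [Inst.N, Inst.A, this]; simp

lemma s_N_abs {i : ℕ} (hi : i ≤ d) (x z : V) : |I.NR i x z| ≤ 10 := by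
  simp only [NR, Matrix.map_apply]
  rcases hi.lt_or_eq with h1 | rfl
  · rw [I.N_apply h1]
    split_ifs <;> norm_num
  · have h := I.N_top x z
    have h1 : (0 : ℝ) ≤ (I.N i x z : ℤ) := by exact_mod_cast h.1
    have h2 : ((I.N i x z : ℤ) : ℝ) ≤ 10 := by exact_mod_cast h.2.1
    rw [abs_of_nonneg h1]; exact h2

lemma s_KM_apply (y : ℝ) (x z : V) : I.KM y x z =
    if I.ρ x z ≤ d then kap I.κ d (I.ρ x z) * Fr (I.ρ x z) y * I.NR (I.ρ x z) x z else 0 := by
  simp only [KM, Matrix.sum_apply, Matrix.smul_apply, smul_eq_mul]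
  split_ifs with h
  · refine Finset.sum_eq_single _ (fun i hi hne => ?_) (fun h1 => absurd (by simp; omega) h1)
    rw [I.s_N_zero (by simp at hi; omega) (Ne.symm hne), mul_zero]
  · refine Finset.sum_eq_zero fun i hi => ?_
    have : i ≤ d := by simp at hi; omega
    rw [I.s_N_zero this (by omega), mul_zero]

lemma s_Dg_KM (y : ℝ) : I.s_Dg (I.KM y) (fun i => Kr I.κ d (I.θ i) y) := by
  have := s_Dg_sum (I := I) (range (d + 1)) (fun a => (kap I.κ d a * Fr a y) • I.NR a)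
    (fun a i => (kap I.κ d a * Fr a y) * Fr a (I.θ i)) (fun a _ => (I.s_Dg_NR a).smul _)
  intro i
  have h := this i
  simp only [KM, Kr]
  rw [h]
  congr 1
  exact Finset.sum_congr rfl fun a _ => by ring

lemma s_Z (i : V) : (I.θ i - 10) * Pr I.κ d (I.θ i) = -((I.θ i - 10) * I.μ i) := by
  unfold μ
  split_ifs with h
  · rw [h]; ring
  · ring

lemma s_const (hd : 2 ≤ d) (hc : c < 3 ^ (d - 1)) {i : V} (h : I.θ i = 10) :
    ∃ a : ℝ, I.s_v i = fun _ => a := by
  have hn : (0 : ℝ) < Fintype.card V := by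
    have := I.ne
    exact_mod_cast Fintype.card_pos
  set a : ℝ := (∑ y, I.s_v i y) / Fintype.card V with ha
  refine ⟨a, ?_⟩
  by_contra hne
  have hw : I.AR *ᵥ (I.s_v i - fun _ => a) = (10 : ℝ) • (I.s_v i - fun _ => a) := by
    rw [Matrix.mulVec_sub, s_eig, h, s_AR_const, smul_sub]
  have hs : ∑ y, (I.s_v i - fun _ => a : V → ℝ) y = 0 := by
    simp only [Pi.sub_apply, Finset.sum_sub_distrib, Finset.sum_const, Finset.card_univ,
      nsmul_eq_mul, ha]
    field_simp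
    ring
  have hE : I.ER *ᵥ (I.s_v i - fun _ => a) = (-Pr I.κ d 10) • (I.s_v i - fun _ => a) := by
    funext x
    rw [I.s_ER_mulVec hw, hs]
    simp only [Pi.smul_apply, smul_eq_mul]
    ring
  have h1 := s_bound I.s_ER_herm I.s_ER_abs hE (sub_ne_zero.2 hne)
  have h2 := Pr_big I.hκ hd (x := 10) (by norm_num) (by norm_num)
  rw [abs_neg] at h1
  have h3 : (c : ℝ) < 3 ^ (d - 1) := by exact_mod_cast hc
  linarith

lemma s_Dg_ER (hd : 2 ≤ d) (hc : c < 3 ^ (d - 1)) : I.s_Dg I.ER I.μ := by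
  intro i
  funext x
  rw [I.s_ER_mulVec (I.s_eig i)]
  unfold μ
  split_ifs with h
  · obtain ⟨a, ha⟩ := I.s_const hd hc h
    rw [ha, h]
    simp only [Finset.sum_const, Finset.card_univ, nsmul_eq_mul, Pi.smul_apply, smul_eq_mul]
    ring
  · rw [I.s_sum_zero h]
    simp only [Pi.smul_apply, smul_eq_mul]
    ring

theorem charpoly_θ : I.A.charpoly.map (Int.castRingHom ℝ) = ∏ i, (X - C (I.θ i)) := by
  rw [← Matrix.charpoly_map]
  exact I.AR_herm.charpoly_eq

theorem θ_abs_le (i : V) : |I.θ i| ≤ 10 := by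
  refine eigenvalue_abs_le I.AR_herm 10 (fun x => ?_) i
  rw [← I.s_AR_row x]
  refine le_of_eq (Finset.sum_congr rfl fun y _ => abs_of_nonneg ?_)
  rw [s_AR_apply]
  split_ifs <;> norm_num

theorem Fr_θ_le (i : V) : |Fr d (I.θ i)| ≤ Sz d := by
  refine s_bound (I.s_Dg_NR d).herm (fun x => ?_) (I.s_Dg_NR d i) (I.s_v_ne i)
  have h1 : ∀ y, |I.NR d x y| = ((I.N d x y : ℤ) : ℝ) := fun y =>
    abs_of_nonneg (by
      simp only [NR, Matrix.map_apply]
      exact_mod_cast (I.N_top x y).1)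
  simp only [h1]
  have := I.N_row d x
  exact le_of_eq (by exact_mod_cast this)

theorem Hr_sq_sum {j : ℕ} (hj : j < d) :
    ∑ i, Hr j (I.θ i) ^ 2 ≤ 2 * 9 ^ j * Fintype.card V := by
  have hD := I.s_Dg_PR (Hp j)
  have h1 := (hD.mul hD).trace
  have h2 : ∑ i, Hr j (I.θ i) ^ 2 = (I.s_PR (Hp j) * I.s_PR (Hp j)).trace := by
    rw [h1]
    exact Finset.sum_congr rfl fun i _ => by rw [Hr, sq]
  rw [h2]
  have h3 : ∀ x, (I.s_PR (Hp j) * I.s_PR (Hp j)) x x = Hr j 10 := by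
    intro x
    have h4 := congrFun (I.s_PR_mulVec (Hp j) (I.s_AR_const 1)) x
    simp only [Matrix.mulVec, dotProduct, mul_one, Pi.smul_apply, smul_eq_mul] at h4
    rw [Matrix.mul_apply, Hr, ← h4]
    refine Finset.sum_congr rfl fun y _ => ?_
    have h5 : I.s_PR (Hp j) y x = I.s_PR (Hp j) x y := by
      simpa using hD.herm.apply x y
    rw [h5]
    simp only [s_PR, Matrix.map_apply]
    rcases I.s_H01 x y j hj with h6 | ⟨h6, _⟩ <;> rw [h6] <;> simp
  simp only [Matrix.trace, Matrix.diag, h3, Finset.sum_const, Finset.card_univ, nsmul_eq_mul]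
  have := Hr_ten j
  have hn : (0 : ℝ) ≤ Fintype.card V := by positivity
  nlinarith

theorem KM_diag (hd : 1 ≤ d) (y : ℝ) (x : V) : I.KM y x x = 1 := by
  rw [s_KM_apply, I.ρ_self, if_pos (Nat.zero_le _), Fr_zero]
  simp only [NR, Matrix.map_apply]
  rw [I.N_apply (by omega), I.ρ_self]
  simp [kap, Sz, show 0 < d by omega]

theorem KM_le {y : ℝ} (hy : |y| ≤ 6) (x z : V) :
    |I.KM y x z| ≤ 20 * (I.ρ x z + 1) / 3 ^ (I.ρ x z) := by
  rw [s_KM_apply]
  split_ifs with h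
  · rw [abs_mul, abs_mul, abs_of_pos (kap_pos I.hκ _)]
    have h1 := kap_Fr_le I.hκ h hy
    have h2 := I.s_N_abs h x z
    calc _ ≤ (2 * (I.ρ x z + 1) / 3 ^ (I.ρ x z) : ℝ) * 10 :=
          mul_le_mul h1 h2 (abs_nonneg _) (by positivity)
      _ = _ := by ring
  · rw [abs_zero]; positivity

section
variable (hd : 2 ≤ d) (hc : c < 3 ^ (d - 1))
include hd hc

theorem μ_abs_le (i : V) : |I.μ i| ≤ c := by
  exact s_bound I.s_ER_herm I.s_ER_abs (I.s_Dg_ER hd hc i) (I.s_v_ne i)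

theorem θ_cases (i : V) : |I.θ i| ≤ 6 ∨ 7 ≤ |I.θ i| := by
  by_contra hcon
  push Not at hcon
  have h1 := I.μ_abs_le hd hc i
  have h10 : I.θ i ≠ 10 := by
    intro h
    rw [h] at hcon
    norm_num at hcon
  rw [μ, if_neg h10, abs_neg] at h1
  have h2 := Pr_big I.hκ hd hcon.1.le (by linarith [neg_abs_le (I.θ i), hcon.2])
  have h3 : (c : ℝ) < 3 ^ (d - 1) := by exact_mod_cast hc
  linarith

theorem mix : I.Mix := by
  intro U hU
  have hn : (0 : ℝ) < Fintype.card V := by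
    have := I.ne
    exact_mod_cast Fintype.card_pos
  have h6 : ∀ i, I.θ i ≠ 10 → I.θ i ≤ 6 := by
    intro i h10
    by_contra hcon
    push Not at hcon
    have h1 := I.μ_abs_le hd hc i
    rw [μ, if_neg h10, abs_neg] at h1
    have h2 := Pr_big I.hκ hd (x := I.θ i) (hcon.le.trans (le_abs_self _)) (by linarith)
    have h3 : (c : ℝ) < 3 ^ (d - 1) := by exact_mod_cast hc
    linarith
  set a : ℝ := (U.card : ℝ) / Fintype.card V with ha
  set u : V → ℝ := fun x => if x ∈ U then 1 else 0 with hu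
  have hus : ∑ x, u x = U.card := by simp [hu]
  have huu : ∀ x, u x * u x = u x := fun x => by
    simp only [hu]; split_ifs <;> simp
  set w : V → ℝ := fun x => u x - a with hw
  have hws : ∑ x, w x = 0 := by
    simp only [hw, Finset.sum_sub_distrib, hus, Finset.sum_const, Finset.card_univ, nsmul_eq_mul,
      ha]
    field_simp
    ring
  have hq : ∀ (X : Matrix V V ℝ) (ξ : V → ℝ), I.s_Dg X ξ →
      ∑ x, ∑ y, w x * X x y * w y = ∑ i, ξ i * (∑ x, I.s_v i x * w x) ^ 2 := by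
    intro X ξ hX
    simp only [hX.entry, sq, Finset.mul_sum, Finset.sum_mul]
    rw [Finset.sum_congr rfl fun x _ => Finset.sum_comm, Finset.sum_comm]
    refine Finset.sum_congr rfl fun i _ => ?_
    refine Finset.sum_congr rfl fun x _ => Finset.sum_congr rfl fun y _ => by ring
  have hA := hq _ _ I.s_Dg_AR
  have h1 := hq _ _ (s_Dg_one (I := I))
  have h2 : ∑ x, ∑ y, w x * (1 : Matrix V V ℝ) x y * w y = ∑ x, w x * w x := by
    refine Finset.sum_congr rfl fun x _ => ?_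
    simp [Matrix.one_apply]
  have h3 : ∑ i, I.θ i * (∑ x, I.s_v i x * w x) ^ 2 ≤
      6 * ∑ i, 1 * (∑ x, I.s_v i x * w x) ^ 2 := by
    rw [Finset.mul_sum]
    refine Finset.sum_le_sum fun i _ => ?_
    by_cases h10 : I.θ i = 10
    · obtain ⟨b, hb⟩ := I.s_const hd hc h10
      rw [hb]
      simp only
      rw [← Finset.mul_sum, hws]
      simp
    · have := h6 i h10
      nlinarith [sq_nonneg (∑ x, I.s_v i x * w x)]
  have h4 : ∑ x, w x * w x = U.card - a * U.card := by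
    have : ∀ x, w x * w x = u x - a * u x - a * w x := fun x => by
      simp only [hw]; linear_combination huu x
    simp only [this, Finset.sum_sub_distrib, ← Finset.mul_sum, hus, hws]
    ring
  have h5 : ∑ x, ∑ y, u x * I.AR x y * u y =
      ∑ x, ∑ y, w x * I.AR x y * w y + 10 * a * U.card := by
    have e1 : ∀ x y, u x * I.AR x y * u y =
        w x * I.AR x y * w y + a * (w x * I.AR x y) + a * (I.AR y x * u y) := fun x y => by
      rw [I.s_AR_symm y x]; simp only [hw]; ring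
    simp only [e1, Finset.sum_add_distrib, ← Finset.mul_sum, s_AR_row]
    rw [Finset.sum_comm (f := fun x y => I.AR y x * u y)]
    simp only [← Finset.sum_mul, s_AR_row, ← Finset.mul_sum, hus, hws]
    ring
  have h7 : ∑ x, ∑ y, u x * I.AR x y * u y =
      ((∑ y ∈ U, (U.filter fun y' => I.G.Adj y y').card : ℕ) : ℝ) := by
    push_cast
    simp only [hu, s_AR_apply, ite_mul, mul_ite, one_mul, zero_mul, mul_one, mul_zero]
    rw [← Finset.sum_subset (Finset.subset_univ U) (fun x _ hx => by simp [hx])]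
    refine Finset.sum_congr rfl fun x hx => ?_
    rw [← Finset.sum_subset (Finset.subset_univ U) (fun y _ hy => by simp [hy])]
    rw [Finset.card_filter]
    push_cast
    exact Finset.sum_congr rfl fun y hy => by simp [hx, hy]
  have ha0 : 0 ≤ a := by positivity
  have ha5 : 5 * a ≤ 1 := by
    have : (5 : ℝ) * U.card ≤ Fintype.card V := by exact_mod_cast hU
    rw [ha, ← mul_div_assoc, div_le_one hn]
    exact this
  have hU0 : (0 : ℝ) ≤ U.card := by positivity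
  have : ((∑ y ∈ U, (U.filter fun y' => I.G.Adj y y').card : ℕ) : ℝ) ≤ 8 * U.card := by
    rw [← h7, h5, hA]
    rw [← h1, h2, h4] at h3
    nlinarith
  exact_mod_cast this

theorem trace_KM (y : ℝ) (j : ℕ) :
    (I.ER ^ j * I.KM y).trace = ∑ i, Kr I.κ d (I.θ i) y * I.μ i ^ j := by
  rw [(((I.s_Dg_ER hd hc).pow j).mul (I.s_Dg_KM y)).trace]
  exact Finset.sum_congr rfl fun i _ => mul_comm _ _

theorem KM_eigen {j : V} (hj : I.bulk j) (x z : V) :
    |((I.AR - I.θ j • (1 : Matrix V V ℝ)) * I.KM (I.θ j)) x z| ≤ 200 * c * (d + 1) / 3 ^ d := by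
  have hE := I.s_Dg_ER hd hc
  have hL := (I.s_Dg_AR.sub (s_Dg_one.smul (I.θ j))).mul (I.s_Dg_KM (I.θ j))
  have hZ := (I.s_Dg_AR.mul hE).sub (hE.smul 10)
  have hR := (hZ.smul (-(kap I.κ d d * Fr d (I.θ j)))).add
    ((I.s_Dg_NR d).smul (kap I.κ d d * ((I.θ j - 10) * I.μ j)))
  have e := hL.eq hR (fun i => by
    simp only [mul_one]
    rw [Kr_cd I.hκ hd, s_Z, s_Z]
    ring)
  rw [e]
  simp only [Matrix.add_apply, Matrix.smul_apply, Matrix.sub_apply, smul_eq_mul]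
  have hc0 : (0 : ℝ) ≤ c := by positivity
  have h1 : 0 ≤ (I.AR * I.ER) x z := by
    rw [Matrix.mul_apply]
    refine Finset.sum_nonneg fun y _ => mul_nonneg ?_ (I.s_ER_nonneg _ _)
    rw [s_AR_apply]; split_ifs <;> norm_num
  have h2 : (I.AR * I.ER) x z ≤ c := by
    rw [Matrix.mul_apply]
    refine le_trans (Finset.sum_le_sum fun y _ => ?_) (I.s_ER_row z)
    have hs : I.ER y z = I.ER z y := by simp [ER, I.E_symm y z]
    rw [s_AR_apply, hs]
    have := I.s_ER_nonneg z y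
    split_ifs <;> linarith
  have h3 := I.s_ER_nonneg x z
  have h4 : I.ER x z ≤ c :=
    le_trans (Finset.single_le_sum (fun y _ => I.s_ER_nonneg x y) (Finset.mem_univ z))
      (I.s_ER_row x)
  have h5 : |(I.AR * I.ER) x z - 10 * I.ER x z| ≤ 10 * c := abs_le.2 ⟨by linarith, by linarith⟩
  have h6 := kap_Fr_le I.hκ (le_refl d) hj
  have h7 := I.s_N_abs (le_refl d) x z
  have h8 := I.μ_abs_le hd hc j
  have h9 : |I.θ j - 10| ≤ 16 := by
    have := abs_le.1 hj
    exact abs_le.2 ⟨by linarith [this.1], by linarith [this.2]⟩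
  have hk := kap_pos (d := d) I.hκ d
  have h10 : kap I.κ d d ≤ 1 / 3 ^ d := (I.s_kap_le (by omega)).trans
    (one_div_le_one_div_of_le (by positivity) (pow_le_pow_left₀ (by norm_num) (by norm_num) d))
  refine (abs_add_le _ _).trans ?_
  rw [abs_mul, abs_neg, abs_mul, abs_mul, abs_mul, abs_mul, abs_of_pos hk]
  have b1 : kap I.κ d d * |Fr d (I.θ j)| * |(I.AR * I.ER) x z - 10 * I.ER x z| ≤
      2 * (d + 1) / 3 ^ d * (10 * c) := mul_le_mul h6 h5 (abs_nonneg _) (by positivity)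
  have b2 : kap I.κ d d * (|I.θ j - 10| * |I.μ j|) * |I.NR d x z| ≤ 1 / 3 ^ d * (16 * c) * 10 :=
    mul_le_mul (mul_le_mul h10 (mul_le_mul h9 h8 (abs_nonneg _) (by norm_num))
      (by positivity) (by positivity)) h7 (abs_nonneg _) (by positivity)
  have b3 : (1 : ℝ) / 3 ^ d * (16 * c) * 10 ≤ 160 * c * (d + 1) / 3 ^ d := by
    have : (1 : ℝ) / 3 ^ d * (16 * c) * 10 = 160 * c * 1 / 3 ^ d := by ring
    rw [this]
    have hd0 : (0 : ℝ) ≤ d := by positivity
    gcongr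
    linarith
  have b4 : (2 : ℝ) * (d + 1) / 3 ^ d * (10 * c) + 160 * c * (d + 1) / 3 ^ d ≤
      200 * c * (d + 1) / 3 ^ d := by
    have : (2 : ℝ) * (d + 1) / 3 ^ d * (10 * c) + 160 * c * (d + 1) / 3 ^ d =
      180 * c * (d + 1) / 3 ^ d := by ring
    rw [this]
    gcongr
    norm_num
  linarith

theorem KK_bulk {i j : V} (hi : I.bulk i) (hj : I.bulk j) :
    |I.θ i - I.θ j| * |I.KK i j| ≤ 64 * c * (d + 1) / 3 ^ d := by
  have hk := kap_pos (d := d) I.hκ d
  have hc0 : (0 : ℝ) ≤ c := by positivity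
  have e : (I.θ i - I.θ j) * I.KK i j = kap I.κ d d * Fr d (I.θ i) * ((I.θ j - 10) * I.μ j)
      - kap I.κ d d * Fr d (I.θ j) * ((I.θ i - 10) * I.μ i) := by
    rw [KK, Kr_cd I.hκ hd, s_Z, s_Z]; ring
  have m1 := I.μ_abs_le hd hc i
  have m2 := I.μ_abs_le hd hc j
  have f2 := kap_Fr_le I.hκ (le_refl d) hj
  have t2 : |I.θ j - 10| ≤ 16 := by
    have := abs_le.1 hj
    exact abs_le.2 ⟨by linarith [this.1], by linarith [this.2]⟩
  have f1 := kap_Fr_le I.hκ (le_refl d) hi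
  have t1 : |I.θ i - 10| ≤ 16 := by
    have := abs_le.1 hi
    exact abs_le.2 ⟨by linarith [this.1], by linarith [this.2]⟩
  rw [← abs_mul, e]
  refine (abs_sub _ _).trans ?_
  simp only [abs_mul, abs_of_pos hk]
  have b1 : kap I.κ d d * |Fr d (I.θ i)| * (|I.θ j - 10| * |I.μ j|) ≤
      2 * (d + 1) / 3 ^ d * (16 * c) :=
    mul_le_mul f1 (mul_le_mul t2 m2 (abs_nonneg _) (by norm_num)) (by positivity) (by positivity)
  have b2 : kap I.κ d d * |Fr d (I.θ j)| * (|I.θ i - 10| * |I.μ i|) ≤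
      2 * (d + 1) / 3 ^ d * (16 * c) :=
    mul_le_mul f2 (mul_le_mul t1 m1 (abs_nonneg _) (by norm_num)) (by positivity) (by positivity)
  have : (64 : ℝ) * c * (d + 1) / 3 ^ d =
    2 * (d + 1) / 3 ^ d * (16 * c) + 2 * (d + 1) / 3 ^ d * (16 * c) := by ring
  linarith

theorem KK_out {i j : V} (hi : ¬ I.bulk i) (hj : I.bulk j) : |I.KK i j| ≤ 60 * c := by
  have hk := kap_pos (d := d) I.hκ d
  have hc0 : (0 : ℝ) ≤ c := by positivity
  have e : (I.θ i - I.θ j) * I.KK i j = kap I.κ d d * Fr d (I.θ i) * ((I.θ j - 10) * I.μ j)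
      - kap I.κ d d * Fr d (I.θ j) * ((I.θ i - 10) * I.μ i) := by
    rw [KK, Kr_cd I.hκ hd, s_Z, s_Z]; ring
  have m1 := I.μ_abs_le hd hc i
  have m2 := I.μ_abs_le hd hc j
  have f2 := kap_Fr_le I.hκ (le_refl d) hj
  have t2 : |I.θ j - 10| ≤ 16 := by
    have := abs_le.1 hj
    exact abs_le.2 ⟨by linarith [this.1], by linarith [this.2]⟩
  have h7 : 7 ≤ |I.θ i| := (I.θ_cases hd hc i).resolve_left hi
  have g1 : 1 ≤ |I.θ i - I.θ j| := by
    have := abs_sub_abs_le_abs_sub (I.θ i) (I.θ j)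
    have h6 : |I.θ j| ≤ 6 := hj
    linarith
  have t1 : |I.θ i - 10| ≤ 20 := by
    have := abs_le.1 (I.θ_abs_le i)
    exact abs_le.2 ⟨by linarith [this.1], by linarith [this.2]⟩
  have f1 : kap I.κ d d * |Fr d (I.θ i)| ≤ 1 := by
    have hS : (0 : ℝ) < Sz d := by exact_mod_cast Sz_pos d
    calc _ ≤ 1 / (Sz d : ℝ) * Sz d :=
          mul_le_mul (kap_le I.hκ le_rfl) (I.Fr_θ_le i) (abs_nonneg _) (by positivity)
      _ = 1 := by field_simp
  have f3 : (2 : ℝ) * (d + 1) / 3 ^ d ≤ 2 := by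
    rw [div_le_iff₀ (by positivity)]
    have := one_add_mul_le_pow (show (-2 : ℝ) ≤ 2 by norm_num) d
    have hd0 : (0 : ℝ) ≤ d := by positivity
    norm_num at this
    linarith
  have b0 : |I.KK i j| ≤ |(I.θ i - I.θ j) * I.KK i j| := by
    rw [abs_mul]
    nlinarith [abs_nonneg (I.KK i j)]
  refine b0.trans ?_
  rw [e]
  refine (abs_sub _ _).trans ?_
  simp only [abs_mul, abs_of_pos hk]
  have b1 : kap I.κ d d * |Fr d (I.θ i)| * (|I.θ j - 10| * |I.μ j|) ≤ 1 * (16 * c) :=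
    mul_le_mul f1 (mul_le_mul t2 m2 (abs_nonneg _) (by norm_num)) (by positivity) (by positivity)
  have b2 : kap I.κ d d * |Fr d (I.θ j)| * (|I.θ i - 10| * |I.μ i|) ≤ 2 * (20 * c) :=
    mul_le_mul (f2.trans f3) (mul_le_mul t1 m1 (abs_nonneg _) (by norm_num)) (by positivity)
      (by positivity)
  linarith

theorem KK_sep {i j : V} (hi : I.bulk i) (hj : I.bulk j) :
    |I.θ i - I.θ j| * |I.KK i j| ≤
      32 * (d + 1) / 3 ^ d * |I.μ i - I.μ j| + 34 * c * (d + 1) ^ 3 / 3 ^ d * |I.θ i - I.θ j| := by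
  have hk := kap_pos (d := d) I.hκ d
  have hc0 : (0 : ℝ) ≤ c := by positivity
  have e : (I.θ i - I.θ j) * I.KK i j = kap I.κ d d * Fr d (I.θ i) * ((I.θ j - 10) * I.μ j)
      - kap I.κ d d * Fr d (I.θ j) * ((I.θ i - 10) * I.μ i) := by
    rw [KK, Kr_cd I.hκ hd, s_Z, s_Z]; ring
  have m1 := I.μ_abs_le hd hc i
  have m2 := I.μ_abs_le hd hc j
  have f2 := kap_Fr_le I.hκ (le_refl d) hj
  have t2 : |I.θ j - 10| ≤ 16 := by
    have := abs_le.1 hj
    exact abs_le.2 ⟨by linarith [this.1], by linarith [this.2]⟩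
  have f1 := kap_Fr_le I.hκ (le_refl d) hi
  have t1 : |I.θ i - 10| ≤ 16 := by
    have := abs_le.1 hi
    exact abs_le.2 ⟨by linarith [this.1], by linarith [this.2]⟩
  have e2 : (I.θ i - I.θ j) * I.KK i j =
      kap I.κ d d * (Fr d (I.θ i) - Fr d (I.θ j)) * ((I.θ j - 10) * I.μ j)
      - kap I.κ d d * Fr d (I.θ j) *
        ((I.θ i - 10) * (I.μ i - I.μ j) + (I.θ i - I.θ j) * I.μ j) := by
    rw [e]; ring
  rw [← abs_mul, e2]
  refine (abs_sub _ _).trans ?_
  simp only [abs_mul, abs_of_pos hk]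
  have l1 := Fr_lip d hi hj
  have k1 := I.s_kap_le (show 1 ≤ d by omega)
  have b1 : kap I.κ d d * |Fr d (I.θ i) - Fr d (I.θ j)| * (|I.θ j - 10| * |I.μ j|) ≤
      1 / 9 ^ d * (2 * (d + 1) ^ 3 * 3 ^ d * |I.θ i - I.θ j|) * (16 * c) :=
    mul_le_mul (mul_le_mul k1 l1 (abs_nonneg _) (by positivity))
      (mul_le_mul t2 m2 (abs_nonneg _) (by norm_num)) (by positivity) (by positivity)
  have b2 : |(I.θ i - 10) * (I.μ i - I.μ j) + (I.θ i - I.θ j) * I.μ j| ≤
      16 * |I.μ i - I.μ j| + |I.θ i - I.θ j| * c := by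
    refine (abs_add_le _ _).trans ?_
    rw [abs_mul, abs_mul]
    gcongr
  have b3 := mul_le_mul f2 b2 (abs_nonneg _) (by positivity)
  have e9 : (9 : ℝ) ^ d = 3 ^ d * 3 ^ d := by rw [← mul_pow]; norm_num
  have b4 : (1 : ℝ) / 9 ^ d * (2 * (d + 1) ^ 3 * 3 ^ d * |I.θ i - I.θ j|) * (16 * c) =
      32 * c * (d + 1) ^ 3 / 3 ^ d * |I.θ i - I.θ j| := by
    rw [e9]; field_simp; ring
  have b5 : (2 : ℝ) * (d + 1) / 3 ^ d * (|I.θ i - I.θ j| * c) ≤
      2 * c * (d + 1) ^ 3 / 3 ^ d * |I.θ i - I.θ j| := by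
    have hd1 : (1 : ℝ) ≤ d + 1 := by
      have : (0 : ℝ) ≤ d := by positivity
      linarith
    have h3 : ((d : ℝ) + 1) ≤ (d + 1) ^ 3 := le_self_pow₀ hd1 (by norm_num)
    have : (2 : ℝ) * (d + 1) / 3 ^ d * (|I.θ i - I.θ j| * c) =
      2 * c * (d + 1) / 3 ^ d * |I.θ i - I.θ j| := by ring
    rw [this]
    gcongr
  have b6 : (34 : ℝ) * c * (d + 1) ^ 3 / 3 ^ d * |I.θ i - I.θ j| =
    32 * c * (d + 1) ^ 3 / 3 ^ d * |I.θ i - I.θ j| +
      2 * c * (d + 1) ^ 3 / 3 ^ d * |I.θ i - I.θ j| := by ring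
  have b7 : (2 : ℝ) * (d + 1) / 3 ^ d * (16 * |I.μ i - I.μ j| + |I.θ i - I.θ j| * c) =
    32 * (d + 1) / 3 ^ d * |I.μ i - I.μ j| +
      2 * (d + 1) / 3 ^ d * (|I.θ i - I.θ j| * c) := by ring
  linarith

end

end Inst

end Pool.Agent.H170Z.Cage
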